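import Mathlib
import Pool.Agent.CMV.OrdClass

set_option autoImplicit false

/-!
# Ordinary Weil numbers in several CM fields, low codimension: definitions
-/

namespace Pool.Agent.LCD

open NumberField Module
open Pool.Agent.CMT (QBar)
open Pool.Agent.CMV (IsOrdinary OrdinaryClass commonPower)
open Pool.Agent.FFT (Idx TateWeight Divisorial)

/-- all Tate weights of codimension at most `i` on all products of powers are divisorial -/
def LowTate {J : Type} {K : J → Type} [∀ j, Field (K j)] (q : ℕ) (π : ∀ j, K j) (i : ℕ) : Prop :=
  ∀ (n : J → ℕ) (i' : ℕ) (Δ : Finset (Idx K n)), i' ≤ i → TateWeight q π i' Δ → Divisorial q π Δ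

/-- no two different eigenvalues of the Frobenius on the first cohomology of the product of the
`A_j` have a common power: the abelian varieties `A_j` are absolutely simple and pairwise not
isogenous over the algebraic closure of the finite field -/
def NoCommonPower {J : Type} {K : J → Type} [∀ j, Field (K j)] (π : ∀ j, K j) : Prop :=
  ∀ (x y : Σ j, K j →+* QBar) (m : ℕ), 0 < m → x.2 (π x.1) ^ m = y.2 (π y.1) ^ m → x = y

/-- a tuple `t` of classes of ordinary Weil numbers is bad in codimension `i`: there are a power `q`
of `p` and ordinary Weil `q`-numbers `π j` in the classes `t j` such that not all Tate weights of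
codimension at most `i` on the products of powers are divisorial, or two different eigenvalues
have a common power -/
def BadTuple {J : Type} {K : J → Type} [∀ j, Field (K j)] [∀ j, NumberField (K j)]
    [∀ j, IsCMField (K j)] (p : ℕ) [Fact p.Prime] (i : ℕ) (t : ∀ j, OrdinaryClass p (K j)) :
    Prop :=
  ∃ (q : ℕ) (π : ∀ j, K j) (h : ∀ j, IsOrdinary p q (π j)),
    (∀ j, Quotient.mk (commonPower p (K j)) ⟨(q, π j), h j⟩ = t j) ∧
      ¬ (NoCommonPower π ∧ LowTate q π i)

end Pool.Agent.LCD
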