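import Mathlib

set_option autoImplicit false

/-!
# Low codimension: definitions for the analytic part

`Y` is a finite set (pairs of complex conjugate embeddings), `Γ` a finite set which indexes signed
permutations of `Y`, `ε : Y → Bool` a random sign vector (a random CM type).
-/

namespace Pool.Agent.LCD

open Finset
open scoped BigOperators

/-- the average of a function on a finite type -/
noncomputable def av {α : Type} [Fintype α] (f : α → ℝ) : ℝ := (∑ a, f a) / Fintype.card α

/-- the sign of a boolean -/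
noncomputable def sb (b : Bool) : ℝ := if b then 1 else -1

/-- the sign vector -/
noncomputable def sv {Y : Type} (ε : Y → Bool) : Y → ℝ := fun y => sb (ε y)

/-- the part of the sign vector on `I` -/
noncomputable def pv {Y : Type} [DecidableEq Y] (I : Finset Y) (ε : Y → Bool) : Y → ℝ :=
  fun y => if y ∈ I then sb (ε y) else 0

/-- the Euclidean norm -/
noncomputable def nY {Y : Type} [Fintype Y] (v : Y → ℝ) : ℝ := √(∑ y, v y ^ 2)

/-- the normalised inner product of functions on `Γ` -/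
noncomputable def ip {Γ : Type} [Fintype Γ] (w w' : Γ → ℝ) : ℝ := av (fun τ => w τ * w' τ)

/-- the normalised Euclidean norm of functions on `Γ` -/
noncomputable def nG {Γ : Type} [Fintype Γ] (w : Γ → ℝ) : ℝ := √(av (fun τ => w τ ^ 2))

/-- a family of signed permutations -/
structure SP (Y Γ : Type) where
  /-- the permutations -/
  π : Γ → Equiv.Perm Y
  /-- the signs -/
  σ : Γ → Y → Bool

variable {Y Γ : Type}

/-- the inner products of `h` with the signed permutations of `v` -/
noncomputable def SP.W [Fintype Y] (P : SP Y Γ) (h v : Y → ℝ) : Γ → ℝ :=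
  fun τ => ∑ y, h y * sb (P.σ τ y) * v (P.π τ y)

/-- at most `|Γ| / g` permutations map `y` to `z` -/
def Spr [Fintype Γ] [DecidableEq Y] (P : SP Y Γ) (g : ℝ) : Prop :=
  ∀ y z, g * ((univ.filter (fun τ => P.π τ y = z)).card : ℝ) ≤ Fintype.card Γ

/-- the operator `v ↦ W h v` has norm at most `u` -/
def OpLe [Fintype Y] [Fintype Γ] (P : SP Y Γ) (h : Y → ℝ) (u : ℝ) : Prop := ∀ v : Y → ℝ, nG (P.W h v) ≤ u * nY v

/-- the Gram matrix -/
noncomputable def Gm [Fintype Y] [Fintype Γ] [DecidableEq Y] (P : SP Y Γ) (h : Y → ℝ) : Matrix Y Y ℝ :=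
  Matrix.of fun a b => ip (P.W h (Pi.single a 1)) (P.W h (Pi.single b 1))

/-- a signed sum of basis vectors -/
noncomputable def hv [DecidableEq Y] {U : Type} [Fintype U] (y : U → Y) (ρ δ : U → Bool) : Y → ℝ :=
  fun z => ∑ j, if y j = z then sb (δ j) * sb (ρ j) else 0

/-- the `ℓ¹` norm of an integral vector -/
def l1 [Fintype Y] (f : Y → ℤ) : ℕ := ∑ y, (f y).natAbs

/-- the square of the Euclidean norm of an integral vector -/
def sq [Fintype Y] (f : Y → ℤ) : ℕ := ∑ y, (f y).natAbs ^ 2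

/-- the real vector of an integral vector -/
def rl (f : Y → ℤ) : Y → ℝ := fun y => (f y : ℝ)

/-- the normalised vector -/
noncomputable def xv [Fintype Y] (f : Y → ℤ) : Y → ℝ := fun y => (f y : ℝ) / √(sq f : ℝ)

/-- `1 + log |Y|` -/
noncomputable def kap (Y : Type) [Fintype Y] : ℝ := 1 + Real.log (Fintype.card Y)

/-- the normalised integral vectors of `ℓ¹` norm at most `s` -/
def TT (Y : Type) [Fintype Y] (s : ℕ) : Set (Y → ℝ) :=
  {x | ∃ f : Y → ℤ, 1 ≤ l1 f ∧ l1 f ≤ s ∧ x = xv f}

/-- the maximum of the norms -/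
noncomputable def Mx [Fintype Y] [Fintype Γ] (P : SP Y Γ) (T : Set (Y → ℝ)) (v : Y → ℝ) : ℝ := ⨆ x : T, nG (P.W x v)

/-- the maximal deviation -/
noncomputable def DX [Fintype Y] [Fintype Γ] (P : SP Y Γ) (T : Set (Y → ℝ)) (ε : Y → Bool) : ℝ :=
  ⨆ x : T, |nG (P.W x (sv ε)) ^ 2 - nY (x : Y → ℝ) ^ 2|

/-- the maximum of the decoupled forms -/
noncomputable def FX [Fintype Y] [Fintype Γ] [DecidableEq Y] (P : SP Y Γ) (T : Set (Y → ℝ)) (I : Finset Y) (ε : Y → Bool) : ℝ :=
  ⨆ x : T, |ip (P.W x (pv I ε)) (P.W x (pv Iᶜ ε))|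

/-- the bound of the chaining; `κ` will be `kap Y` -/
noncomputable def th (κ g : ℝ) (s p : ℕ) : ℝ :=
  ∑ r ∈ range (Nat.size s + 1),
    9 * √(2 * p + 2 * (s / 2 ^ r) * κ + 4 * Real.log s) * √(4700 * κ * 2 ^ r / g)

/-- the sign vectors which are orthogonal to all signed permutations of an integral vector of small
`ℓ¹` norm -/
def Bad [Fintype Y] (P : SP Y Γ) (s : ℕ) : Set (Y → Bool) :=
  {ε | ∃ f : Y → ℤ, 1 ≤ l1 f ∧ l1 f ≤ s ∧ P.W (rl f) (sv ε) = 0}

end Pool.Agent.LCD
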