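import Mathlib
import Pool.Agent.LCD.Defs

set_option autoImplicit false
set_option linter.unusedSectionVars false
set_option linter.unusedSimpArgs false

/-!
# Basic facts
-/

namespace Pool.Agent.LCD

open Finset
open scoped BigOperators

/-! ## Averages -/

section Av

variable {α β : Type} [Fintype α] [Fintype β]

theorem av_nonneg {f : α → ℝ} (h : ∀ a, 0 ≤ f a) : 0 ≤ av f :=
  div_nonneg (sum_nonneg fun a _ => h a) (Nat.cast_nonneg _)

theorem av_mono {f g : α → ℝ} (h : ∀ a, f a ≤ g a) : av f ≤ av g :=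
  div_le_div_of_nonneg_right (sum_le_sum fun a _ => h a) (Nat.cast_nonneg _)

theorem av_add (f g : α → ℝ) : av (fun a => f a + g a) = av f + av g := by
  unfold av; rw [sum_add_distrib, add_div]

theorem av_sub (f g : α → ℝ) : av (fun a => f a - g a) = av f - av g := by
  unfold av; rw [sum_sub_distrib, sub_div]

theorem av_mul_left (c : ℝ) (f : α → ℝ) : av (fun a => c * f a) = c * av f := by
  unfold av; rw [← mul_sum, mul_div_assoc]

theorem av_mul_right (c : ℝ) (f : α → ℝ) : av (fun a => f a * c) = av f * c := by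
  unfold av; rw [← sum_mul, div_mul_eq_mul_div]

theorem av_neg (f : α → ℝ) : av (fun a => - f a) = - av f := by
  unfold av; rw [sum_neg_distrib, neg_div]

theorem av_zero : av (fun _ : α => (0 : ℝ)) = 0 := by simp [av]

theorem av_const [Nonempty α] (c : ℝ) : av (fun _ : α => c) = c := by
  unfold av
  rw [sum_const, card_univ, nsmul_eq_mul, mul_div_assoc, mul_comm]
  have : (Fintype.card α : ℝ) ≠ 0 := by exact_mod_cast Fintype.card_ne_zero
  field_simp

theorem av_sum {ι : Type} (s : Finset ι) (f : ι → α → ℝ) :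
    av (fun a => ∑ i ∈ s, f i a) = ∑ i ∈ s, av (f i) := by
  unfold av
  rw [sum_comm, sum_div]

theorem av_comm (f : α → β → ℝ) : av (fun a => av (fun b => f a b)) = av (fun b => av (fun a => f a b)) := by
  unfold av
  rw [← sum_div, ← sum_div, sum_comm, div_div, div_div, mul_comm]

theorem av_equiv (e : α ≃ β) (f : β → ℝ) : av (fun a => f (e a)) = av f := by
  unfold av
  rw [Fintype.card_congr e]
  congr 1
  exact Equiv.sum_comp e f

theorem abs_av_le (f : α → ℝ) : |av f| ≤ av (fun a => |f a|) := by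
  unfold av
  rw [abs_div, abs_of_nonneg (Nat.cast_nonneg (Fintype.card α) : (0 : ℝ) ≤ _)]
  exact div_le_div_of_nonneg_right (abs_sum_le_sum_abs _ _) (Nat.cast_nonneg _)

theorem exists_le_av [Nonempty α] (f : α → ℝ) : ∃ a, f a ≤ av f := by
  by_contra h
  push Not at h
  have h1 : ∑ _a : α, av f < ∑ a, f a := sum_lt_sum_of_nonempty univ_nonempty fun a _ => h a
  have h2 : (0 : ℝ) < Fintype.card α := by exact_mod_cast Fintype.card_pos
  rw [sum_const, card_univ, nsmul_eq_mul] at h1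
  unfold av at h1
  rw [mul_div_cancel₀ _ h2.ne'] at h1
  exact lt_irrefl _ h1

/-- Jensen's inequality -/
theorem av_pow_le [Nonempty α] (f : α → ℝ) (h : ∀ a, 0 ≤ f a) (p : ℕ) :
    av f ^ p ≤ av (fun a => f a ^ p) := by
  have h2 : (0 : ℝ) < Fintype.card α := by exact_mod_cast Fintype.card_pos
  have h3 := Real.pow_arith_mean_le_arith_mean_pow (univ : Finset α)
    (fun _ => 1 / (Fintype.card α : ℝ)) f (fun _ _ => by positivity)
    (by rw [sum_const, card_univ, nsmul_eq_mul]; field_simp) (fun a _ => h a) p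
  have e1 : ∑ a : α, 1 / (Fintype.card α : ℝ) * f a = av f := by
    unfold av; rw [← mul_sum]; ring
  have e2 : ∑ a : α, 1 / (Fintype.card α : ℝ) * f a ^ p = av (fun a => f a ^ p) := by
    unfold av; rw [← mul_sum]; ring
  rw [e1, e2] at h3
  exact h3

/-- Cauchy-Schwarz -/
theorem av_mul_sq_le (f g : α → ℝ) : av (fun a => f a * g a) ^ 2 ≤
    av (fun a => f a ^ 2) * av (fun a => g a ^ 2) := by
  unfold av
  rw [div_pow, div_mul_div_comm, ← _root_.sq]
  exact div_le_div_of_nonneg_right (sum_mul_sq_le_sq_mul_sq _ _ _) (by positivity)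

end Av

/-! ## Signs -/

theorem sb_sq (b : Bool) : sb b ^ 2 = 1 := by unfold sb; split_ifs <;> norm_num

theorem sb_mul_self (b : Bool) : sb b * sb b = 1 := by rw [← _root_.sq]; exact sb_sq b

theorem abs_sb (b : Bool) : |sb b| = 1 := by unfold sb; split_ifs <;> norm_num

theorem sb_not (b : Bool) : sb (!b) = - sb b := by cases b <;> simp [sb]

/-! ## Norms -/

section Norms

variable {Y Γ : Type} [Fintype Y] [Fintype Γ]

theorem nY_nonneg (v : Y → ℝ) : 0 ≤ nY v := Real.sqrt_nonneg _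

theorem nY_sq (v : Y → ℝ) : nY v ^ 2 = ∑ y, v y ^ 2 :=
  Real.sq_sqrt (sum_nonneg fun _ _ => by positivity)

theorem nY_smul (c : ℝ) (v : Y → ℝ) : nY (c • v) = |c| * nY v := by
  unfold nY
  rw [← Real.sqrt_sq_eq_abs, ← Real.sqrt_mul (by positivity)]
  congr 1
  rw [mul_sum]
  exact sum_congr rfl fun y _ => by simp only [Pi.smul_apply, smul_eq_mul]; ring

theorem nY_add_le (v w : Y → ℝ) : nY (v + w) ≤ nY v + nY w := by
  have h0 : 0 ≤ nY v + nY w := add_nonneg (nY_nonneg _) (nY_nonneg _)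
  rw [← Real.sqrt_sq h0]
  unfold nY
  apply Real.sqrt_le_sqrt
  have h1 : (∑ y, v y * w y) ≤ nY v * nY w := by
    refine le_of_sq_le_sq ?_ (mul_nonneg (nY_nonneg _) (nY_nonneg _))
    rw [mul_pow, nY_sq, nY_sq]
    exact sum_mul_sq_le_sq_mul_sq _ _ _
  have h2 : (√(∑ y, v y ^ 2) + √(∑ y, w y ^ 2)) ^ 2 = nY v ^ 2 + 2 * (nY v * nY w) + nY w ^ 2 := by
    unfold nY; ring
  rw [h2, nY_sq, nY_sq]
  have h3 : ∑ y, (v + w) y ^ 2 = ∑ y, v y ^ 2 + 2 * (∑ y, v y * w y) + ∑ y, w y ^ 2 := by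
    rw [mul_sum, ← sum_add_distrib, ← sum_add_distrib]
    exact sum_congr rfl fun y _ => by simp only [Pi.add_apply]; ring
  rw [h3]
  linarith

theorem nY_single [DecidableEq Y] (y : Y) : nY (Pi.single y (1 : ℝ)) = 1 := by
  unfold nY
  rw [sum_eq_single y]
  · simp
  · intro b _ hb; simp [Pi.single_apply, hb]
  · intro h; exact absurd (mem_univ y) h

theorem ip_comm (w w' : Γ → ℝ) : ip w w' = ip w' w := by
  unfold ip; simp only [mul_comm]

theorem ip_add_left (u v w : Γ → ℝ) : ip (u + v) w = ip u w + ip v w := by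
  unfold ip; rw [← av_add]; congr 1; funext τ; simp only [Pi.add_apply]; ring

theorem ip_smul_left (c : ℝ) (v w : Γ → ℝ) : ip (c • v) w = c * ip v w := by
  unfold ip; rw [← av_mul_left]; congr 1; funext τ; simp only [Pi.smul_apply, smul_eq_mul]; ring

theorem ip_sub_left (u v w : Γ → ℝ) : ip (u - v) w = ip u w - ip v w := by
  unfold ip; rw [← av_sub]; congr 1; funext τ; simp only [Pi.sub_apply]; ring

theorem ip_add_right (u v w : Γ → ℝ) : ip u (v + w) = ip u v + ip u w := by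
  rw [ip_comm, ip_add_left, ip_comm v, ip_comm w]

theorem ip_smul_right (c : ℝ) (v w : Γ → ℝ) : ip v (c • w) = c * ip v w := by
  rw [ip_comm, ip_smul_left, ip_comm]

theorem ip_sub_right (u v w : Γ → ℝ) : ip u (v - w) = ip u v - ip u w := by
  rw [ip_comm, ip_sub_left, ip_comm v, ip_comm w]

theorem ip_sum_left {ι : Type} (s : Finset ι) (f : ι → Γ → ℝ) (w : Γ → ℝ) :
    ip (∑ i ∈ s, f i) w = ∑ i ∈ s, ip (f i) w := by
  unfold ip
  rw [← av_sum]
  congr 1
  funext τ
  rw [Finset.sum_apply, sum_mul]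

theorem ip_sum_right {ι : Type} (s : Finset ι) (f : ι → Γ → ℝ) (w : Γ → ℝ) :
    ip w (∑ i ∈ s, f i) = ∑ i ∈ s, ip w (f i) := by
  rw [ip_comm, ip_sum_left]
  exact sum_congr rfl fun i _ => ip_comm _ _

theorem nG_nonneg (w : Γ → ℝ) : 0 ≤ nG w := Real.sqrt_nonneg _

theorem nG_sq (w : Γ → ℝ) : nG w ^ 2 = av (fun τ => w τ ^ 2) :=
  Real.sq_sqrt (av_nonneg fun _ => by positivity)

theorem nG_sq_ip (w : Γ → ℝ) : nG w ^ 2 = ip w w := by
  rw [nG_sq]; unfold ip; simp only [_root_.sq]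

theorem abs_ip_le (w w' : Γ → ℝ) : |ip w w'| ≤ nG w * nG w' := by
  refine abs_le_of_sq_le_sq ?_ (mul_nonneg (nG_nonneg _) (nG_nonneg _))
  rw [mul_pow, nG_sq, nG_sq]
  exact av_mul_sq_le _ _

theorem nG_smul (c : ℝ) (w : Γ → ℝ) : nG (c • w) = |c| * nG w := by
  unfold nG
  rw [← Real.sqrt_sq_eq_abs, ← Real.sqrt_mul (by positivity), ← av_mul_left]
  congr 2
  funext τ
  simp only [Pi.smul_apply, smul_eq_mul]; ring

theorem nG_zero : nG (0 : Γ → ℝ) = 0 := by simp [nG, av]

theorem nG_neg (w : Γ → ℝ) : nG (-w) = nG w := by simp [nG]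

theorem nG_add_le (v w : Γ → ℝ) : nG (v + w) ≤ nG v + nG w := by
  have h0 : 0 ≤ nG v + nG w := add_nonneg (nG_nonneg _) (nG_nonneg _)
  refine le_of_sq_le_sq ?_ h0
  rw [nG_sq_ip, ip_add_left, ip_add_right, ip_add_right]
  have h1 := le_of_abs_le (abs_ip_le v w)
  have h2 := ip_comm w v
  have h3 := nG_sq_ip v
  have h4 := nG_sq_ip w
  nlinarith

theorem nG_sum_le {ι : Type} (s : Finset ι) (f : ι → Γ → ℝ) : nG (∑ i ∈ s, f i) ≤ ∑ i ∈ s, nG (f i) := by
  classical
  induction s using Finset.induction_on with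
  | empty => simp [nG_zero]
  | insert a s ha ih =>
    rw [sum_insert ha, sum_insert ha]
    exact (nG_add_le _ _).trans (by linarith)

end Norms

/-! ## The operators -/

section Ops

variable {Y Γ : Type} [Fintype Y] [Fintype Γ] [DecidableEq Y] (P : SP Y Γ)

theorem W_add_left (h h' v : Y → ℝ) : P.W (h + h') v = P.W h v + P.W h' v := by
  funext τ
  simp only [SP.W, Pi.add_apply, ← sum_add_distrib]
  exact sum_congr rfl fun y _ => by ring

theorem W_sub_left (h h' v : Y → ℝ) : P.W (h - h') v = P.W h v - P.W h' v := by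
  funext τ
  simp only [SP.W, Pi.sub_apply, ← sum_sub_distrib]
  exact sum_congr rfl fun y _ => by ring

theorem W_smul_left (c : ℝ) (h v : Y → ℝ) : P.W (c • h) v = c • P.W h v := by
  funext τ
  simp only [SP.W, Pi.smul_apply, smul_eq_mul, mul_sum]
  exact sum_congr rfl fun y _ => by ring

theorem W_zero_left (v : Y → ℝ) : P.W 0 v = 0 := by
  funext τ; simp [SP.W]

theorem W_sum_left {ι : Type} (s : Finset ι) (h : ι → Y → ℝ) (v : Y → ℝ) :
    P.W (∑ i ∈ s, h i) v = ∑ i ∈ s, P.W (h i) v := by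
  classical
  induction s using Finset.induction_on with
  | empty => simp [W_zero_left]
  | insert a s ha ih => rw [sum_insert ha, sum_insert ha, W_add_left, ih]

theorem W_add_right (h v v' : Y → ℝ) : P.W h (v + v') = P.W h v + P.W h v' := by
  funext τ
  simp only [SP.W, Pi.add_apply, ← sum_add_distrib]
  exact sum_congr rfl fun y _ => by ring

theorem W_smul_right (c : ℝ) (h v : Y → ℝ) : P.W h (c • v) = c • P.W h v := by
  funext τ
  simp only [SP.W, Pi.smul_apply, smul_eq_mul, mul_sum]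
  exact sum_congr rfl fun y _ => by ring

theorem W_zero_right (h : Y → ℝ) : P.W h 0 = 0 := by
  funext τ; simp [SP.W]

theorem W_sum_right {ι : Type} (s : Finset ι) (h : Y → ℝ) (v : ι → Y → ℝ) :
    P.W h (∑ i ∈ s, v i) = ∑ i ∈ s, P.W h (v i) := by
  classical
  induction s using Finset.induction_on with
  | empty => simp [W_zero_right]
  | insert a s ha ih => rw [sum_insert ha, sum_insert ha, W_add_right, ih]

theorem eq_sum_single (v : Y → ℝ) : v = ∑ a, v a • Pi.single (M := fun _ => ℝ) a 1 := by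
  funext y
  rw [Finset.sum_apply]
  simp [Pi.single_apply]

/-- expansion in the second variable -/
theorem W_eq_sum (h v : Y → ℝ) : P.W h v = ∑ a, v a • P.W h (Pi.single a 1) := by
  conv_lhs => rw [eq_sum_single v]
  rw [W_sum_right]
  exact sum_congr rfl fun a _ => W_smul_right P _ _ _

theorem W_single_left (y : Y) (v : Y → ℝ) (τ : Γ) :
    P.W (Pi.single y 1) v τ = sb (P.σ τ y) * v (P.π τ y) := by
  unfold SP.W
  rw [sum_eq_single y]
  · simp
  · intro b _ hb; simp [Pi.single_apply, hb]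
  · intro h; exact absurd (mem_univ y) h

theorem W_single_right (h : Y → ℝ) (a : Y) (τ : Γ) :
    P.W h (Pi.single a 1) τ = h ((P.π τ).symm a) * sb (P.σ τ ((P.π τ).symm a)) := by
  unfold SP.W
  rw [sum_eq_single ((P.π τ).symm a)]
  · simp
  · intro b _ hb
    have : P.π τ b ≠ a := by
      rintro rfl
      exact hb (by simp)
    simp [Pi.single_apply, this]
  · intro h; exact absurd (mem_univ _) h

/-- the diagonal of the Gram matrix -/
theorem sum_diag (h : Y → ℝ) [Nonempty Γ] :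
    ∑ a, nG (P.W h (Pi.single a 1)) ^ 2 = nY h ^ 2 := by
  simp only [nG_sq, ← av_sum]
  have : ∀ τ : Γ, ∑ a, P.W h (Pi.single a 1) τ ^ 2 = nY h ^ 2 := by
    intro τ
    rw [nY_sq, ← Equiv.sum_comp (P.π τ) (fun a => P.W h (Pi.single a 1) τ ^ 2)]
    refine sum_congr rfl fun y _ => ?_
    rw [W_single_right, mul_pow, sb_sq, mul_one, Equiv.symm_apply_apply]
  simp only [this]
  exact av_const _

theorem opLe_mono {h : Y → ℝ} {u u' : ℝ} (hu : OpLe P h u) (huu : u ≤ u') : OpLe P h u' :=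
  fun v => (hu v).trans (mul_le_mul_of_nonneg_right huu (nY_nonneg v))

theorem opLe_zero : OpLe P 0 0 := fun v => by rw [W_zero_left, nG_zero, zero_mul]

theorem opLe_add {h h' : Y → ℝ} {u u' : ℝ} (hu : OpLe P h u) (hu' : OpLe P h' u') :
    OpLe P (h + h') (u + u') := fun v => by
  rw [W_add_left, add_mul]
  exact (nG_add_le _ _).trans (add_le_add (hu v) (hu' v))

theorem opLe_smul {h : Y → ℝ} {u : ℝ} (hu : OpLe P h u) (c : ℝ) : OpLe P (c • h) (|c| * u) :=
  fun v => by
  rw [W_smul_left, nG_smul, mul_assoc]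
  exact mul_le_mul_of_nonneg_left (hu v) (abs_nonneg c)

theorem opLe_neg {h : Y → ℝ} {u : ℝ} (hu : OpLe P h u) : OpLe P (-h) u := by
  have := opLe_smul P hu (-1)
  simpa using this

theorem opLe_sub {h h' : Y → ℝ} {u u' : ℝ} (hu : OpLe P h u) (hu' : OpLe P h' u') :
    OpLe P (h - h') (u + u') := by
  rw [sub_eq_add_neg]; exact opLe_add P hu (opLe_neg P hu')

theorem opLe_sum {ι : Type} (s : Finset ι) (h : ι → Y → ℝ) (u : ι → ℝ)
    (hu : ∀ i ∈ s, OpLe P (h i) (u i)) : OpLe P (∑ i ∈ s, h i) (∑ i ∈ s, u i) := by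
  classical
  induction s using Finset.induction_on with
  | empty => simpa using opLe_zero P
  | insert a s ha ih =>
    rw [sum_insert ha, sum_insert ha]
    exact opLe_add P (hu a (mem_insert_self _ _)) (ih fun i hi => hu i (mem_insert_of_mem hi))

/-- the matrix `v ↦ W (e_y) v` -/
theorem nG_W_single_le {g : ℝ} (hg : 0 < g) (hP : Spr P g) (y : Y) (v : Y → ℝ) [Nonempty Γ] :
    nG (P.W (Pi.single y 1) v) ^ 2 ≤ nY v ^ 2 / g := by
  rw [nG_sq, nY_sq]
  simp only [W_single_left, mul_pow, sb_sq, one_mul]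
  have h2 : (0 : ℝ) < Fintype.card Γ := by exact_mod_cast Fintype.card_pos
  have h1 : ∑ τ, v (P.π τ y) ^ 2 = ∑ z, ((univ.filter (fun τ => P.π τ y = z)).card : ℝ) * v z ^ 2 := by
    rw [← sum_fiberwise (s := univ) (g := fun τ => P.π τ y)]
    refine sum_congr rfl fun z _ => ?_
    rw [sum_congr rfl (g := fun _ => v z ^ 2), sum_const, nsmul_eq_mul]
    intro τ hτ
    rw [mem_filter] at hτ
    rw [hτ.2]
  unfold av
  rw [h1, div_le_div_iff₀ h2 hg, sum_mul, sum_mul]
  refine sum_le_sum fun z _ => ?_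
  have := mul_le_mul_of_nonneg_right (hP y z) (by positivity : (0 : ℝ) ≤ v z ^ 2)
  linarith

theorem opLe_single {g : ℝ} (hg : 0 < g) (hP : Spr P g) (y : Y) [Nonempty Γ] :
    OpLe P (Pi.single y 1) (1 / √g) := by
  intro v
  refine le_of_sq_le_sq ?_ (by have := nY_nonneg v; positivity)
  rw [mul_pow, div_pow, one_pow, Real.sq_sqrt hg.le]
  refine (nG_W_single_le P hg hP y v).trans (le_of_eq ?_)
  ring

end Ops

/-! ## Integral vectors -/

section Int

variable {Y : Type} [Fintype Y]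

theorem sq_cast (f : Y → ℤ) : (sq f : ℝ) = ∑ y, (f y : ℝ) ^ 2 := by
  unfold sq
  push_cast
  refine sum_congr rfl fun y _ => ?_
  rw [Nat.cast_natAbs, Int.cast_abs, sq_abs]

theorem l1_cast (f : Y → ℤ) : (l1 f : ℝ) = ∑ y, |(f y : ℝ)| := by
  unfold l1
  push_cast
  refine sum_congr rfl fun y _ => ?_
  rw [Nat.cast_natAbs, Int.cast_abs]

theorem l1_le_sq (f : Y → ℤ) : l1 f ≤ sq f := by
  unfold l1 sq
  exact sum_le_sum fun y _ => Nat.le_self_pow (by norm_num) _

theorem sq_le_l1_sq (f : Y → ℤ) : sq f ≤ l1 f ^ 2 := by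
  unfold l1 sq
  exact sum_sq_le_sq_sum_of_nonneg (fun _ _ => Nat.zero_le _)

theorem sq_pos {f : Y → ℤ} (h : 1 ≤ l1 f) : (0 : ℝ) < sq f := by
  exact_mod_cast lt_of_lt_of_le h (l1_le_sq f)

theorem nY_xv {f : Y → ℤ} (h : 1 ≤ l1 f) : nY (xv f) = 1 := by
  unfold nY xv
  simp only [div_pow]
  rw [← sum_div, ← sq_cast, Real.sq_sqrt (Nat.cast_nonneg _), div_self (sq_pos h).ne',
    Real.sqrt_one]

theorem xv_eq (f : Y → ℤ) : xv f = (1 / √(sq f : ℝ)) • rl f := by
  funext y
  simp only [xv, rl, Pi.smul_apply, smul_eq_mul]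
  ring

theorem l1_eq_zero {f : Y → ℤ} : l1 f = 0 ↔ f = 0 := by
  unfold l1
  rw [sum_eq_zero_iff]
  constructor
  · intro h
    funext y
    exact Int.natAbs_eq_zero.mp (h y (mem_univ y))
  · rintro rfl y _
    simp

theorem natAbs_le_l1 (f : Y → ℤ) (y : Y) : (f y).natAbs ≤ l1 f :=
  single_le_sum (f := fun y => (f y).natAbs) (fun _ _ => Nat.zero_le _) (mem_univ y)

theorem finite_l1 [DecidableEq Y] (s : ℕ) : {f : Y → ℤ | l1 f ≤ s}.Finite := by
  refine (Set.finite_Icc (fun _ => -(s : ℤ)) (fun _ => (s : ℤ))).subset ?_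
  intro f hf
  have : ∀ y, (f y).natAbs ≤ s := fun y => (natAbs_le_l1 f y).trans hf
  rw [Set.mem_Icc]
  refine ⟨fun y => ?_, fun y => ?_⟩ <;> have := this y <;> dsimp only <;> omega

theorem finite_TT [DecidableEq Y] (s : ℕ) : (TT Y s).Finite := by
  refine ((finite_l1 (Y := Y) s).image xv).subset ?_
  rintro x ⟨f, _, h2, rfl⟩
  exact ⟨f, h2, rfl⟩

end Int

/-! ## Suprema -/

section Sup

theorem le_sup' {α : Type} {T : Set α} (hT : T.Finite) (F : α → ℝ) {x : α} (hx : x ∈ T) :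
    F x ≤ ⨆ x : T, F x := by
  have := hT.to_subtype
  exact le_ciSup (Set.finite_range (fun x : T => F x)).bddAbove ⟨x, hx⟩

theorem sup_nonneg' {α : Type} {T : Set α} (F : α → ℝ) (h : ∀ x, 0 ≤ F x) : 0 ≤ ⨆ x : T, F x :=
  Real.iSup_nonneg fun x => h x

theorem sup_le' {α : Type} {T : Set α} (F : α → ℝ) {B : ℝ} (hB : 0 ≤ B) (h : ∀ x ∈ T, F x ≤ B) :
    ⨆ x : T, F x ≤ B := Real.iSup_le (fun x => h x x.2) hB

variable {Y Γ : Type} [Fintype Y] [Fintype Γ] [DecidableEq Y] (P : SP Y Γ)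

theorem Mx_nonneg (T : Set (Y → ℝ)) (v : Y → ℝ) : 0 ≤ Mx P T v :=
  sup_nonneg' (T := T) (fun x => nG (P.W x v)) fun _ => nG_nonneg _

theorem le_Mx {T : Set (Y → ℝ)} (hT : T.Finite) {x : Y → ℝ} (hx : x ∈ T) (v : Y → ℝ) :
    nG (P.W x v) ≤ Mx P T v := le_sup' hT (fun x => nG (P.W x v)) hx

theorem Mx_add_le {T : Set (Y → ℝ)} (hT : T.Finite) (v w : Y → ℝ) :
    Mx P T (v + w) ≤ Mx P T v + Mx P T w := by
  refine sup_le' (fun x => nG (P.W x (v + w))) (add_nonneg (Mx_nonneg P T v) (Mx_nonneg P T w)) ?_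
  intro x hx
  rw [W_add_right]
  exact (nG_add_le _ _).trans (add_le_add (le_Mx P hT hx v) (le_Mx P hT hx w))

theorem Mx_smul_le {T : Set (Y → ℝ)} (hT : T.Finite) (c : ℝ) (v : Y → ℝ) :
    Mx P T (c • v) ≤ |c| * Mx P T v := by
  refine sup_le' (fun x => nG (P.W x (c • v))) (mul_nonneg (abs_nonneg c) (Mx_nonneg P T v)) ?_
  intro x hx
  rw [W_smul_right, nG_smul]
  exact mul_le_mul_of_nonneg_left (le_Mx P hT hx v) (abs_nonneg c)

end Sup

end Pool.Agent.LCD
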