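import Mathlib
import Pool.Agent.LCD.Basic

set_option autoImplicit false

/-!
# Low codimension: targets of the analytic part (proofs: Blueprint.lean.txt)
-/

namespace Pool.Agent.LCD

open Finset
open scoped BigOperators

/-! ## Moments of sign sums -/

/-- MOM: moments of sums with random signs -/
def T_MOM : Prop := ∀ (α : Type) [Fintype α] [DecidableEq α] (c : α → ℝ) (k : ℕ), 1 ≤ k →
  av (fun δ : α → Bool => (∑ j, sb (δ j) * c j) ^ (2 * k)) ≤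
    (2 * Real.exp 1 * k) ^ k * (∑ j, c j ^ 2) ^ k

/-- MAXP: moments of maxima of sums with random signs -/
def T_MAXP : Prop := ∀ (β : Type) [Fintype β] [DecidableEq β] (ι : Type) [Fintype ι]
  (c : ι → β → ℝ) (B L : ℝ) (p : ℕ), 1 ≤ p → 0 ≤ L → 0 ≤ B → (∀ k, nY (c k) ≤ B) → (Fintype.card ι : ℝ) ≤ Real.exp L →
  av (fun δ : β → Bool => (⨆ k, |∑ b, sb (δ b) * c k b|) ^ p) ≤
    (9 / 2 * √(2 * p + L) * B) ^ p

/-! ## Random signs make the operator small -/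

/-- TRC: trace moments -/
def T_TRC : Prop := ∀ (Y Γ : Type) [Fintype Y] [DecidableEq Y] [Fintype Γ] [Nonempty Γ]
  (P : SP Y Γ) (g : ℝ), 0 < g → Spr P g → ∀ (U : Type) [Fintype U] [DecidableEq U] (y : U → Y)
  (ρ : U → Bool) (k : ℕ), 1 ≤ k →
  av (fun δ : U → Bool => ((Gm P (hv y ρ δ)) ^ k).trace) ≤
    Fintype.card Y * (1 / g) ^ k * av (fun δ : U → Bool => (∑ j, sb (δ j)) ^ (2 * k))

/-- POW: the operator norm and the trace of a power of the Gram matrix -/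
def T_POW : Prop := ∀ (Y Γ : Type) [Fintype Y] [DecidableEq Y] [Fintype Γ] [Nonempty Γ]
  (P : SP Y Γ) (h v : Y → ℝ) (t : ℕ), 1 ≤ t →
  nG (P.W h v) ^ (2 * 2 ^ t) ≤ ((Gm P h) ^ (2 ^ t)).trace * nY v ^ (2 * 2 ^ t)

/-- RAD: some choice of signs makes the operator small -/
def T_RAD : Prop := ∀ (Y Γ : Type) [Fintype Y] [DecidableEq Y] [Nonempty Y] [Fintype Γ]
  [Nonempty Γ] (P : SP Y Γ) (g : ℝ), 0 < g → Spr P g → ∀ (U : Type) [Fintype U] (y : U → Y)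
  (ρ : U → Bool), ∃ δ : U → Bool, OpLe P (hv y ρ δ) (√(30 * kap Y * Fintype.card U / g))

/-- HALV: halving an integral vector -/
def T_HALV : Prop := ∀ (Y Γ : Type) [Fintype Y] [DecidableEq Y] [Nonempty Y] [Fintype Γ]
  [Nonempty Γ] (P : SP Y Γ) (g : ℝ), 0 < g → Spr P g → ∀ f : Y → ℤ, ∃ f' : Y → ℤ,
  2 * l1 f' ≤ l1 f ∧ OpLe P (rl f - (2 : ℝ) • rl f') (√(30 * kap Y * l1 f / g))

/-- SEQ: repeated halving -/
def T_SEQ : Prop := ∀ (Y Γ : Type) [Fintype Y] [DecidableEq Y] [Nonempty Y] [Fintype Γ]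
  [Nonempty Γ] (P : SP Y Γ) (g : ℝ), 0 < g → Spr P g → ∀ f : Y → ℤ, ∃ F : ℕ → Y → ℤ,
  F 0 = f ∧ (∀ r, 2 ^ r * l1 (F r) ≤ l1 f) ∧
  ∀ r, OpLe P (rl f - (2 : ℝ) ^ r • rl (F r)) (√(200 * kap Y * 2 ^ r * l1 f / g))

/-- NET: the chain of nets -/
def T_NET : Prop := ∀ (Y Γ : Type) [Fintype Y] [DecidableEq Y] [Fintype Γ]
  [Nonempty Γ] (P : SP Y Γ) (g : ℝ), 0 < g → Spr P g → 2 ≤ Fintype.card Y → ∀ s : ℕ, 1 ≤ s →
  ∃ Q : ℕ → (Y → ℝ) → (Y → ℝ), (∀ x ∈ TT Y s, Q 0 x = x) ∧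
    (∀ x ∈ TT Y s, Q (Nat.size s + 1) x = 0) ∧
    (∀ r, ∀ x ∈ TT Y s, Q r x ∈ TT Y s ∨ Q r x = 0) ∧
    (∀ r ≤ Nat.size s, ∀ x ∈ TT Y s,
      OpLe P (Q r x - Q (r + 1) x) (√(4700 * kap Y * 2 ^ r / g))) ∧
    ∀ r ≤ Nat.size s, ((((fun x => (Q r x, Q (r + 1) x)) '' TT Y s).ncard : ℕ) : ℝ) ≤
      Real.exp (2 * (s / 2 ^ r) * kap Y + 4 * Real.log s)

/-! ## Chaining -/

/-- LEV: one level of the chain -/
def T_LEV : Prop := ∀ (Y Γ : Type) [Fintype Y] [DecidableEq Y] [Fintype Γ] [Nonempty Γ]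
  (P : SP Y Γ) (ι : Type) [Fintype ι] (y z : ι → Y → ℝ) (u L : ℝ) (p : ℕ), 1 ≤ p → 0 ≤ L →
  0 ≤ u → (Fintype.card ι : ℝ) ≤ Real.exp L → (∀ k, OpLe P (z k) u) → ∀ (I : Finset Y)
  (M : (Y → ℝ) → ℝ), (∀ v, 0 ≤ M v) → (∀ k v, nG (P.W (y k) v) ≤ M v) →
  av (fun ε : Y → Bool => (⨆ k, |ip (P.W (y k) (pv I ε)) (P.W (z k) (pv Iᶜ ε))|) ^ p) ≤
    (9 / 2 * √(2 * p + L) * u) ^ p * av (fun ε : Y → Bool => M (pv I ε) ^ p)

/-- JEN: the part on `I` is not larger than the whole vector -/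
def T_JEN : Prop := ∀ (Y : Type) [Fintype Y] [DecidableEq Y] (M : (Y → ℝ) → ℝ),
  (∀ v, 0 ≤ M v) → (∀ v w, M (v + w) ≤ M v + M w) → (∀ (c : ℝ) v, M (c • v) ≤ |c| * M v) →
  ∀ (I : Finset Y) (q : ℕ),
    av (fun ε : Y → Bool => M (pv I ε) ^ q) ≤ av (fun ε : Y → Bool => M (sv ε) ^ q)

/-- DEC: decoupling -/
def T_DEC : Prop := ∀ (Y Γ : Type) [Fintype Y] [DecidableEq Y] [Fintype Γ] [Nonempty Γ]
  (P : SP Y Γ) (x : Y → ℝ) (ε : Y → Bool),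
  nG (P.W x (sv ε)) ^ 2 - nY x ^ 2 =
    4 * av (fun I : Finset Y => ip (P.W x (pv I ε)) (P.W x (pv Iᶜ ε)))

/-- SUM: moments of sums -/
def T_SUM : Prop := ∀ (α : Type) [Fintype α] [Nonempty α] (ι : Type) (s : Finset ι)
  (X : ι → α → ℝ) (θ : ι → ℝ) (M : ℝ) (p : ℕ), 1 ≤ p → s.Nonempty → (∀ i ∈ s, ∀ a, 0 ≤ X i a) →
  (∀ i ∈ s, 0 < θ i) → (∀ i ∈ s, av (fun a => X i a ^ p) ≤ θ i ^ p * M) →
  av (fun a => (∑ i ∈ s, X i a) ^ p) ≤ (∑ i ∈ s, θ i) ^ p * M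

/-- PHI: the decoupled forms are small -/
def T_PHI : Prop := ∀ (Y Γ : Type) [Fintype Y] [DecidableEq Y] [Fintype Γ] [Nonempty Γ]
  (P : SP Y Γ) (g : ℝ), 0 < g → Spr P g → 2 ≤ Fintype.card Y → ∀ s p : ℕ, 1 ≤ s → 1 ≤ p →
  ∀ I : Finset Y, av (fun ε : Y → Bool => FX P (TT Y s) I ε ^ p) ≤
    th (kap Y) g s p ^ p * √(av (fun ε : Y → Bool => Mx P (TT Y s) (sv ε) ^ (2 * p)))

/-- BOOT: the probability of bad sign vectors -/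
def T_BOOT : Prop := ∀ (Y Γ : Type) [Fintype Y] [DecidableEq Y] [Fintype Γ] [Nonempty Γ]
  (P : SP Y Γ) (g : ℝ), 0 < g → Spr P g → 2 ≤ Fintype.card Y → ∀ s p : ℕ, 1 ≤ s → 1 ≤ p →
  16 * th (kap Y) g s p ≤ 1 →
    ((Bad P s).ncard : ℝ) ≤ (8 * th (kap Y) g s p) ^ p * 2 ^ Fintype.card Y

/-- NUM: the numerical estimate -/
def T_NUM : Prop := ∀ (κ g : ℝ) (s p : ℕ), 1 ≤ κ → 0 < g → 1 ≤ s → 1 ≤ p → Real.log s ≤ κ →
  10 ^ 11 * (s * κ ^ 4) ≤ g → 10 ^ 11 * (p * (s * κ)) ≤ g → 24 * th κ g s p ≤ 1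

/-- ABS: almost all sign vectors are not orthogonal to the signed permutations of an integral
vector of small `ℓ¹` norm -/
def T_ABS : Prop := ∃ c : ℝ, 0 < c ∧ ∀ (Y Γ : Type) [Fintype Y] [DecidableEq Y] [Fintype Γ]
  [Nonempty Γ] (P : SP Y Γ) (g : ℝ), 0 < g → Spr P g → ∀ s : ℕ, 1 ≤ s →
  s * kap Y ^ 4 ≤ c * g →
    ((Bad P s).ncard : ℝ) ≤ Real.exp (-(c * g / (s * kap Y))) * 2 ^ Fintype.card Y

end Pool.Agent.LCD
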