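import Mathlib
import Pool.Agent.LCD.Targets
import Pool.Agent.FFT.CF

set_option autoImplicit false

/-!
# Low codimension: targets of the arithmetic part (proofs: Blueprint.lean.txt)
-/

namespace Pool.Agent.LCD

open NumberField Finset Module
open Pool.Agent.CMT (QBar IsCMType)
open Pool.Agent.CMTP (NotInduced)
open Pool.Agent.FFT (Idx CMWeight CMDivisorial act conj)
open scoped BigOperators

/-- there is no small integral relation between the signs of the types -/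
def Low {J : Type} [Fintype J] {K : J → Type} [∀ j, Field (K j)] [∀ j, NumberField (K j)]
    [∀ j, IsCMField (K j)] (Φ : ∀ j, Finset (K j →+* QBar)) (i : ℕ) : Prop :=
  ∀ f : (Σ j, K j →+* QBar) → ℤ, (∀ x, f (conj x) = - f x) → ∑ x, (f x).natAbs ≤ 4 * i →
    (∀ τ : QBar ≃+* QBar, ∑ x, FFT.CF_.sg Φ (act K τ x) * f x = 0) → f = 0

/-- all Tate weights of codimension at most `i` on all products of powers are divisorial -/
def LowDiv {J : Type} {K : J → Type} [∀ j, Field (K j)] (Φ : ∀ j, Finset (K j →+* QBar))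
    (i : ℕ) : Prop :=
  ∀ (n : J → ℕ) (i' : ℕ) (Δ : Finset (Idx K n)), i' ≤ i → CMWeight Φ i' Δ → CMDivisorial Φ Δ

/-- HALF: signed permutations of one half of a set with an involution -/
def T_HALF : Prop := ∀ (X : Type) [Fintype X] [DecidableEq X] (H : Subgroup (Equiv.Perm X))
  [Fintype H] (c : X → X), (∀ x, c (c x) = x) → (∀ h ∈ H, ∀ x, c (h x) = h (c x)) →
  ∀ g : ℕ, (∀ x, 2 * g ≤ {y : X | ∃ h ∈ H, h x = y}.ncard) →
  ∀ Φ₀ : Finset X, (∀ x, x ∈ Φ₀ ↔ c x ∉ Φ₀) →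
  ∃ P : SP {x // x ∈ Φ₀} H, Spr P g ∧ ∀ (h : H) (y : {x // x ∈ Φ₀}),
    ((P.π h y : X) = (h : Equiv.Perm X) y ∧ P.σ h y = true) ∨
    ((P.π h y : X) = c ((h : Equiv.Perm X) y) ∧ P.σ h y = false)

/-- LOWT: from relations to Tate weights -/
def T_LOWT : Prop := ∀ (J : Type) [Fintype J] (K : J → Type) [∀ j, Field (K j)]
  [∀ j, NumberField (K j)] [∀ j, IsCMField (K j)] (Φ : ∀ j, Finset (K j →+* QBar)),
  (∀ j, IsCMType (K j) (Φ j)) → ∀ i : ℕ, 1 ≤ i → Low Φ i →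
    (∀ j, NotInduced (Φ j)) ∧ LowDiv Φ i

/-- CNT: counting the exceptional tuples of CM types -/
def T_CNT : Prop := ∃ c : ℝ, 0 < c ∧ ∀ (J : Type) [Fintype J] (K : J → Type) [∀ j, Field (K j)]
  [∀ j, NumberField (K j)] [∀ j, IsCMField (K j)] (g i : ℕ), 1 ≤ i →
  (∀ j, 2 * g ≤ finrank ℚ (K j)) →
  i * (1 + Real.log (∑ j, finrank ℚ (K j) : ℕ)) ^ 4 ≤ c * g →
    (Nat.card {Φ : ∀ j, Finset (K j →+* QBar) // (∀ j, IsCMType (K j) (Φ j)) ∧ ¬ Low Φ i} : ℝ) ≤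
      Real.exp (-(c * g / (i * (1 + Real.log (∑ j, finrank ℚ (K j) : ℕ))))) *
        Nat.card {Φ : ∀ j, Finset (K j →+* QBar) // ∀ j, IsCMType (K j) (Φ j)}

end Pool.Agent.LCD
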