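import Mathlib
import Pool.Agent.CMV.OrdFinal
import Pool.Agent.FFT.CF
import Pool.Agent.LCD.OrdDefs
import Pool.Agent.LCD.Targets2

set_option autoImplicit false

/-!
# Ordinary Weil numbers in several CM fields: from relations to Tate weights
-/

namespace Pool.Agent.LCD

open NumberField Finset Module
open Pool.Agent.CMT (QBar IsCMType cc cc_cc)
open Pool.Agent.CMTP (cc_ne)
open Pool.Agent.CMV (IsOrdinary OrdinaryClass commonPower HasType norm_q_lt)
open Pool.Agent.FFT (Idx TateWeight Divisorial act conj mult IsWeil SlopesPrimeTo p_NORM p_FINF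
  p_MATCH)
open Pool.Agent.FFT.CF_ (sg sg_conj conj_conj act_conj count)
open scoped BigOperators

section
variable {J : Type} [Fintype J] {K : J → Type} [∀ j, Field (K j)] [∀ j, NumberField (K j)]
  [∀ j, IsCMField (K j)]

theorem sum_mult {n : J → ℕ} (Δ : Finset (Idx K n)) : ∑ x, mult Δ x = Δ.card := by
  classical
  have h := count Δ (fun _ => True)
  simp only [if_true, and_true] at h
  rw [← h]
  congr 1
  have e : {x : Idx K n | x ∈ Δ} = (Δ : Set (Idx K n)) := by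
    ext x
    simp
  rw [e, Set.ncard_coe_finset]

theorem mult_nonneg {n : J → ℕ} (Δ : Finset (Idx K n)) (x : Σ j, K j →+* QBar) :
    0 ≤ mult Δ x := by
  unfold mult
  positivity

theorem sum_conj (F : (Σ j, K j →+* QBar) → ℤ) : ∑ x, F (conj x) = ∑ x, F x := by
  classical
  have h : Function.Involutive (conj (K := K)) := conj_conj
  exact Fintype.sum_equiv h.toPerm _ _ fun x => rfl

/-- ordinary Weil numbers: the relations between the signs given by a Tate weight -/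
theorem sum_sg_mult (p : ℕ) [Fact p.Prime] (q : ℕ) (π : ∀ j, K j)
    (hπ : ∀ j, IsOrdinary p q (π j)) (ha : ∃ a : ℕ, 1 ≤ a ∧ q = p ^ a)
    (ι : QBar →+* PadicAlgCl p) (Φ : ∀ j, Finset (K j →+* QBar))
    (hΦ : ∀ j, HasType ι (π j) (Φ j)) (n : J → ℕ) (i : ℕ) (Δ : Finset (Idx K n))
    (hΔ : TateWeight q π i Δ) (τ : QBar ≃+* QBar) :
    ∑ x, sg Φ (act K τ x) * mult Δ x = 0 := by
  classical
  obtain ⟨a, ha, hq⟩ := ha
  obtain ⟨hN0, hN1⟩ := FFT.ORD_.norm_q p a q ha hq
  have hsl : ∀ j, SlopesPrimeTo p q 2 (π j) := by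
    intro j ψ
    rcases (hπ j).2.2 ψ with h | h
    · exact ⟨1, 0, by norm_num, by rw [h]; simp⟩
    · exact ⟨1, 1, by norm_num, by rw [h]⟩
  obtain ⟨B, w, hB, -, hw, hrel⟩ := p_NORM p a q 2 ha hq Nat.prime_two J K π
    (fun j => (hπ j).2.1) hsl ι
  have hB0 : (B : ℤ) ≠ 0 := by
    intro h0
    apply hB
    have : B = 0 := by exact_mod_cast h0
    rw [this]
    exact dvd_zero 2
  have hw1 : ∀ x : Σ j, K j →+* QBar, 2 * w x - B = B * sg Φ x := by
    intro x
    have e := hw x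
    by_cases hx : x.2 ∈ Φ x.1
    · have e1 : ‖ι (x.2 (π x.1))‖ = ‖(q : PadicAlgCl p)‖ := by
        rcases (hπ x.1).2.2 (ι.comp x.2) with h | h
        · exact absurd ((hΦ x.1 x.2).1 hx) (by
            have h' : ‖ι (x.2 (π x.1))‖ = 1 := h
            rw [h']
            exact lt_irrefl 1)
        · exact h
      rw [e1, ← zpow_natCast] at e
      have e2 : (B : ℤ) = w x := zpow_right_injective₀ hN0 hN1.ne e
      unfold FFT.CF_.sg
      rw [if_pos hx, ← e2]
      ring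
    · have e1 : ‖ι (x.2 (π x.1))‖ = 1 := by
        rcases (hπ x.1).2.2 (ι.comp x.2) with h | h
        · exact h
        · refine absurd ((hΦ x.1 x.2).2 ?_) hx
          have h' : ‖ι (x.2 (π x.1))‖ = ‖(q : PadicAlgCl p)‖ := h
          rw [h']
          exact hN1
      rw [e1, one_pow, ← zpow_zero (‖(q : PadicAlgCl p)‖)] at e
      have e2 : (0 : ℤ) = w x := zpow_right_injective₀ hN0 hN1.ne e
      unfold FFT.CF_.sg
      rw [if_neg hx, ← e2]
      ring
  have e := hrel n i Δ hΔ τ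
  have e3 : ∑ x, mult Δ x * (2 * w (act K τ x) - B) =
      B * ∑ x, sg Φ (act K τ x) * mult Δ x := by
    rw [Finset.mul_sum]
    refine Finset.sum_congr rfl fun x _ => ?_
    rw [hw1]
    ring
  rw [e3] at e
  exact (mul_eq_zero.1 e).resolve_left hB0

theorem mult_eq_of_low (p : ℕ) [Fact p.Prime] (q : ℕ) (π : ∀ j, K j)
    (hπ : ∀ j, IsOrdinary p q (π j)) (ha : ∃ a : ℕ, 1 ≤ a ∧ q = p ^ a)
    (ι : QBar →+* PadicAlgCl p) (Φ : ∀ j, Finset (K j →+* QBar)) (hcm : ∀ j, IsCMType (K j) (Φ j))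
    (hΦ : ∀ j, HasType ι (π j) (Φ j)) (i : ℕ) (hlow : Low Φ i) (n : J → ℕ) (i' : ℕ)
    (Δ : Finset (Idx K n)) (hi : i' ≤ i) (hΔ : TateWeight q π i' Δ) (x : Σ j, K j →+* QBar) :
    mult Δ x = mult Δ (conj x) := by
  have h := hlow (fun x => mult Δ x - mult Δ (conj x)) ?_ ?_ ?_
  · have := congrFun h x
    simp only [Pi.zero_apply] at this
    omega
  · intro x
    simp only [conj_conj]
    ring
  · have h1 : ∀ x : Σ j, K j →+* QBar, ((mult Δ x - mult Δ (conj x)).natAbs : ℤ) ≤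
        mult Δ x + mult Δ (conj x) := by
      intro x
      have := mult_nonneg Δ x
      have := mult_nonneg Δ (conj x)
      omega
    have h2 : ((∑ x, (mult Δ x - mult Δ (conj x)).natAbs : ℕ) : ℤ) ≤ 4 * i := by
      push_cast
      refine le_trans (Finset.sum_le_sum fun x _ => ?_) (?_ :
        ∑ x, (mult Δ x + mult Δ (conj x)) ≤ (4 * i : ℤ))
      · have := h1 x
        rwa [Int.natCast_natAbs] at this
      · rw [Finset.sum_add_distrib, sum_conj (fun x => mult Δ x), sum_mult, hΔ.1]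
        push_cast
        omega
    exact_mod_cast h2
  · intro τ
    have e := sum_sg_mult p q π hπ ha ι Φ hΦ n i' Δ hΔ τ
    have e1 : ∑ x, sg Φ (act K τ x) * mult Δ (conj x) = - ∑ x, sg Φ (act K τ x) * mult Δ x := by
      rw [← sum_conj (fun x => sg Φ (act K τ x) * mult Δ (conj x)), ← Finset.sum_neg_distrib]
      refine Finset.sum_congr rfl fun x _ => ?_
      rw [conj_conj, ← act_conj, sg_conj hcm]
      ring
    simp only [mul_sub, Finset.sum_sub_distrib]
    rw [e1, e]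
    ring

theorem low_tate (p : ℕ) [Fact p.Prime] (q : ℕ) (π : ∀ j, K j)
    (hπ : ∀ j, IsOrdinary p q (π j)) (ha : ∃ a : ℕ, 1 ≤ a ∧ q = p ^ a)
    (ι : QBar →+* PadicAlgCl p) (Φ : ∀ j, Finset (K j →+* QBar)) (hcm : ∀ j, IsCMType (K j) (Φ j))
    (hΦ : ∀ j, HasType ι (π j) (Φ j)) (i : ℕ) (hi : 1 ≤ i) (hlow : Low Φ i) :
    NoCommonPower π ∧ LowTate q π i := by
  classical
  constructor
  · intro x y m hm hxy
    let Δ : Finset (Idx K (fun _ => 2)) :=
      {⟨x.1, x.2, (0 : Fin 2)⟩, ⟨y.1, cc y.2, (1 : Fin 2)⟩}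
    have hne : (⟨x.1, x.2, (0 : Fin 2)⟩ : Idx K (fun _ => 2)) ≠ ⟨y.1, cc y.2, (1 : Fin 2)⟩ := by
      intro h
      have := congrArg (fun z : Idx K (fun _ => 2) => (z.2.2 : ℕ)) h
      simp at this
    have hΔ : TateWeight q π 1 Δ := by
      refine ⟨?_, m, hm, ?_⟩
      · show Finset.card {_, _} = 2 * 1
        rw [Finset.card_pair hne]
      · show (∏ z ∈ ({⟨x.1, x.2, (0 : Fin 2)⟩, ⟨y.1, cc y.2, (1 : Fin 2)⟩} :
          Finset (Idx K (fun _ => 2))), z.2.1 (π z.1)) ^ m = _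
        rw [Finset.prod_pair hne, mul_pow]
        show x.2 (π x.1) ^ m * (cc y.2 (π y.1)) ^ m = _
        rw [hxy, ← mul_pow]
        have e : y.2 (π y.1) * cc y.2 (π y.1) = (q : QBar) := by
          show y.2 (π y.1) * y.2 (IsCMField.complexConj (K y.1) (π y.1)) = q
          rw [← map_mul, (hπ y.1).2.1.2, map_natCast]
        rw [e, one_mul]
    have h := mult_eq_of_low p q π hπ ha ι Φ hcm hΦ i hlow (fun _ => 2) 1 Δ hi hΔ x
    have h1 : 0 < mult Δ x := by
      unfold mult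
      have : 0 < ((univ : Finset (Fin 2)).filter (fun s => (⟨x.1, x.2, s⟩ :
          Idx K (fun _ => 2)) ∈ Δ)).card := by
        rw [Finset.card_pos]
        refine ⟨(0 : Fin 2), ?_⟩
        rw [Finset.mem_filter]
        exact ⟨mem_univ _, Finset.mem_insert_self _ _⟩
      exact_mod_cast this
    rw [h] at h1
    have h2 : 0 < ((univ : Finset (Fin 2)).filter (fun s => (⟨x.1, cc x.2, s⟩ :
        Idx K (fun _ => 2)) ∈ Δ)).card := by
      have h3 : (0 : ℤ) < (((univ : Finset (Fin 2)).filter (fun s => (⟨x.1, cc x.2, s⟩ :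
        Idx K (fun _ => 2)) ∈ Δ)).card : ℤ) := h1
      exact_mod_cast h3
    obtain ⟨s, hs⟩ := Finset.card_pos.1 h2
    rw [Finset.mem_filter] at hs
    have hs2 : (⟨x.1, cc x.2, s⟩ : Idx K (fun _ => 2)) = ⟨x.1, x.2, (0 : Fin 2)⟩ ∨
        (⟨x.1, cc x.2, s⟩ : Idx K (fun _ => 2)) = ⟨y.1, cc y.2, (1 : Fin 2)⟩ := by
      have := hs.2
      rwa [Finset.mem_insert, Finset.mem_singleton] at this
    let pr : Idx K (fun _ => 2) → Σ j, K j →+* QBar := fun z => ⟨z.1, z.2.1⟩
    rcases hs2 with h4 | h4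
    · exfalso
      have h5 := congrArg pr h4
      have h6 : (⟨x.1, cc x.2⟩ : Σ j, K j →+* QBar) = ⟨x.1, x.2⟩ := h5
      rw [Sigma.mk.injEq] at h6
      exact cc_ne x.2 (eq_of_heq h6.2)
    · have h5 := congrArg pr h4
      have h6 : conj x = conj y := h5
      rw [← conj_conj x, h6, conj_conj]
  · intro n i' Δ hi' hΔ
    exact p_FINF p_MATCH J K q π (fun j => (hπ j).2.1) n Δ
      (mult_eq_of_low p q π hπ ha ι Φ hcm hΦ i hlow n i' Δ hi' hΔ)

end

end Pool.Agent.LCD
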