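import Pool.Agent.LCD.Targets

set_option autoImplicit false

/-!
# Low codimension: ABS, the choice of the parameters
-/

namespace Pool.Agent.LCD

open Finset
open scoped BigOperators

namespace ABS_

theorem bad_empty {Y Γ : Type} [Fintype Y] [Fintype Γ] [IsEmpty Y] (P : SP Y Γ) (s : ℕ) :
    Bad P s = ∅ := by
  apply Set.eq_empty_iff_forall_notMem.mpr
  rintro ε ⟨f, hf, -, -⟩
  simp [l1] at hf

theorem g_le_card {Y Γ : Type} [Fintype Y] [DecidableEq Y] [Fintype Γ] [Nonempty Γ]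
    (P : SP Y Γ) (g : ℝ) (hS : Spr P g) (y : Y) : g ≤ Fintype.card Y := by
  have h1 : (∑ z : Y, ((univ.filter (fun τ => P.π τ y = z)).card : ℝ)) = Fintype.card Γ := by
    have := Finset.card_eq_sum_card_fiberwise (f := fun τ => P.π τ y) (s := (univ : Finset Γ))
      (t := (univ : Finset Y)) (fun _ _ => Finset.mem_coe.mpr (mem_univ _))
    rw [card_univ] at this
    rw [this]
    push_cast
    rfl
  have h2 : g * (Fintype.card Γ : ℝ) ≤ Fintype.card Y * Fintype.card Γ := by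
    rw [← h1, mul_sum, h1]
    calc (∑ z : Y, g * ((univ.filter (fun τ => P.π τ y = z)).card : ℝ))
        ≤ ∑ _z : Y, (Fintype.card Γ : ℝ) := sum_le_sum fun z _ => hS y z
      _ = Fintype.card Y * Fintype.card Γ := by
        rw [sum_const, card_univ, nsmul_eq_mul]
  have h3 : (0 : ℝ) < Fintype.card Γ := by exact_mod_cast Fintype.card_pos
  exact le_of_mul_le_mul_right h2 h3

theorem th_nonneg (κ g : ℝ) (s p : ℕ) : 0 ≤ th κ g s p := by
  unfold th
  exact sum_nonneg fun r _ => by positivity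

theorem third_pow (p : ℕ) : ((1 : ℝ) / 3) ^ p ≤ Real.exp (-(p : ℝ)) := by
  have h : (1 : ℝ) / 3 ≤ Real.exp (-1) := by
    rw [Real.exp_neg, one_div]
    apply inv_anti₀ (Real.exp_pos _)
    have := Real.exp_one_lt_d9
    linarith
  have : Real.exp (-(p : ℝ)) = Real.exp (-1) ^ p := by
    rw [← Real.exp_nat_mul]; congr 1; ring
  rw [this]
  exact pow_le_pow_left₀ (by norm_num) h p

end ABS_

open ABS_

theorem tABS (hB : T_BOOT) (hN : T_NUM) : T_ABS := by
  refine ⟨1 / (2 * 10 ^ 11), by norm_num, ?_⟩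
  intro Y Γ _ _ _ _ P g hg hS s hs hc
  rcases isEmpty_or_nonempty Y with hE | ⟨⟨y⟩⟩
  · rw [bad_empty]
    simp only [Set.ncard_empty, Nat.cast_zero]
    positivity
  set n := Fintype.card Y with hn
  have hgn : g ≤ n := g_le_card P g hS y
  have hn0 : 0 < n := Fintype.card_pos_iff.mpr ⟨y⟩
  have hn1 : (1 : ℝ) ≤ n := by exact_mod_cast hn0
  have hκ : 1 ≤ kap Y := by
    unfold kap
    have := Real.log_nonneg hn1
    rw [← hn]; linarith
  set κ := kap Y with hκd
  have hs1 : (1 : ℝ) ≤ s := by exact_mod_cast hs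
  have hκ3 : 1 ≤ κ ^ 3 := one_le_pow₀ hκ
  have hκ4 : 1 ≤ κ ^ 4 := one_le_pow₀ hκ
  have hsk : (s : ℝ) ≤ s * κ ^ 4 := le_mul_of_one_le_right (by linarith) hκ4
  have hc' : 2 * 10 ^ 11 * (s * κ ^ 4) ≤ g := by
    have : (s : ℝ) * κ ^ 4 ≤ 1 / (2 * 10 ^ 11) * g := hc
    have h3 : 2 * 10 ^ 11 * ((s : ℝ) * κ ^ 4) ≤ 2 * 10 ^ 11 * (1 / (2 * 10 ^ 11) * g) :=
      mul_le_mul_of_nonneg_left this (by norm_num)
    linarith
  have hg2 : 2 ≤ g := by linarith
  have hn2 : 2 ≤ n := by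
    have : (2 : ℝ) ≤ n := hg2.trans hgn
    exact_mod_cast this
  have hsn : (s : ℝ) ≤ n := by
    have : (s : ℝ) ≤ g := by linarith
    exact this.trans hgn
  have hlog : Real.log s ≤ κ := by
    have h1 := Real.log_le_log (by linarith) hsn
    have : κ = 1 + Real.log n := rfl
    linarith
  have hsκ : 0 < (s : ℝ) * κ := by positivity
  set A : ℝ := g / (10 ^ 11 * (s * κ)) with hA
  have hA2 : 2 ≤ A := by
    rw [hA, le_div_iff₀ (by positivity)]
    have h4 : (s : ℝ) * κ ≤ s * κ ^ 4 := by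
      have : κ ≤ κ ^ 4 := le_self_pow₀ hκ (by norm_num)
      exact mul_le_mul_of_nonneg_left this (by linarith)
    nlinarith
  set p := ⌊A⌋₊ with hp
  have hp1 : 1 ≤ p := Nat.le_floor (by push_cast; linarith)
  have hpA : (p : ℝ) ≤ A := Nat.floor_le (by linarith)
  have hAp : A < p + 1 := Nat.lt_floor_add_one A
  have hp1' : (1 : ℝ) ≤ p := by exact_mod_cast hp1
  have hN2 : 10 ^ 11 * ((p : ℝ) * (s * κ)) ≤ g := by
    have : (p : ℝ) * (10 ^ 11 * (s * κ)) ≤ g := by
      rw [hA, le_div_iff₀ (by positivity)] at hpA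
      exact hpA
    linarith
  have hN1 : 10 ^ 11 * ((s : ℝ) * κ ^ 4) ≤ g := by
    have : 0 ≤ (s : ℝ) * κ ^ 4 := by positivity
    linarith
  have hth := hN κ g s p hκ hg hs hp1 hlog hN1 hN2
  have hth0 := th_nonneg κ g s p
  have hb := hB Y Γ P g hg hS hn2 s p hs hp1 (by linarith)
  refine hb.trans (mul_le_mul_of_nonneg_right ?_ (by positivity))
  calc (8 * th κ g s p) ^ p ≤ (1 / 3) ^ p :=
        pow_le_pow_left₀ (by linarith) (by linarith) p
    _ ≤ Real.exp (-(p : ℝ)) := third_pow p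
    _ ≤ Real.exp (-(1 / (2 * 10 ^ 11) * g / (s * κ))) := by
        apply Real.exp_le_exp.mpr
        have : 1 / (2 * 10 ^ 11) * g / (s * κ) = A / 2 := by
          rw [hA]; field_simp
        rw [this]
        linarith

end Pool.Agent.LCD
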