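import Pool.Agent.LCD.Targets

set_option autoImplicit false
set_option linter.unusedSectionVars false

/-!
# BOOT: closing the argument and Markov
-/

namespace Pool.Agent.LCD

open Finset
open scoped BigOperators

namespace BOOT_

lemma th_nonneg (κ g : ℝ) (s p : ℕ) : 0 ≤ th κ g s p := by
  unfold th
  exact sum_nonneg fun r _ => by positivity

section Main

variable {Y Γ : Type} [Fintype Y] [DecidableEq Y] [Fintype Γ] [Nonempty Γ] (P : SP Y Γ)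

lemma DX_nonneg (T : Set (Y → ℝ)) (ε : Y → Bool) : 0 ≤ DX P T ε :=
  sup_nonneg' (T := T) (fun x => |nG (P.W x (sv ε)) ^ 2 - nY x ^ 2|) fun _ => abs_nonneg _

lemma FX_nonneg (T : Set (Y → ℝ)) (I : Finset Y) (ε : Y → Bool) : 0 ≤ FX P T I ε :=
  sup_nonneg' (T := T) (fun x => |ip (P.W x (pv I ε)) (P.W x (pv Iᶜ ε))|) fun _ => abs_nonneg _

lemma le_DX {T : Set (Y → ℝ)} (hT : T.Finite) {x : Y → ℝ} (hx : x ∈ T) (ε : Y → Bool) :
    |nG (P.W x (sv ε)) ^ 2 - nY x ^ 2| ≤ DX P T ε :=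
  le_sup' hT (fun x => |nG (P.W x (sv ε)) ^ 2 - nY x ^ 2|) hx

lemma le_FX {T : Set (Y → ℝ)} (hT : T.Finite) {x : Y → ℝ} (hx : x ∈ T) (I : Finset Y)
    (ε : Y → Bool) : |ip (P.W x (pv I ε)) (P.W x (pv Iᶜ ε))| ≤ FX P T I ε :=
  le_sup' hT (fun x => |ip (P.W x (pv I ε)) (P.W x (pv Iᶜ ε))|) hx

/-- decoupling of the maximal deviation -/
lemma DX_le (hdec : T_DEC) {T : Set (Y → ℝ)} (hT : T.Finite) (ε : Y → Bool) :
    DX P T ε ≤ 4 * av (fun I : Finset Y => FX P T I ε) := by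
  have h0 : 0 ≤ 4 * av (fun I : Finset Y => FX P T I ε) :=
    mul_nonneg (by norm_num) (av_nonneg fun I => FX_nonneg P T I ε)
  refine sup_le' (fun x => |nG (P.W x (sv ε)) ^ 2 - nY x ^ 2|) h0 ?_
  intro x hx
  show |nG (P.W x (sv ε)) ^ 2 - nY x ^ 2| ≤ _
  rw [hdec Y Γ P x ε, abs_mul, abs_of_nonneg (by norm_num : (0 : ℝ) ≤ 4)]
  refine mul_le_mul_of_nonneg_left ?_ (by norm_num)
  refine (abs_av_le _).trans ?_
  exact av_mono fun I => le_FX P hT hx I ε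

/-- the maximum of the norms and the maximal deviation -/
lemma Mx_sq_le (s : ℕ) (ε : Y → Bool) : Mx P (TT Y s) (sv ε) ^ 2 ≤ 1 + DX P (TT Y s) ε := by
  have hD := DX_nonneg P (TT Y s) ε
  have h1 : Mx P (TT Y s) (sv ε) ≤ √(1 + DX P (TT Y s) ε) := by
    refine sup_le' (fun x => nG (P.W x (sv ε))) (Real.sqrt_nonneg _) ?_
    intro x hx
    show nG (P.W x (sv ε)) ≤ _
    apply Real.le_sqrt_of_sq_le
    have h2 := le_DX P (finite_TT s) hx ε
    obtain ⟨f, hf1, hf2, hf3⟩ := hx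
    have h3 : nY x = 1 := by rw [hf3]; exact nY_xv hf1
    rw [h3] at h2
    have h4 := le_abs_self (nG (P.W x (sv ε)) ^ 2 - 1 ^ 2)
    linarith
  have h0 := Mx_nonneg P (TT Y s) (sv ε)
  calc Mx P (TT Y s) (sv ε) ^ 2 ≤ √(1 + DX P (TT Y s) ε) ^ 2 := pow_le_pow_left₀ h0 h1 2
    _ = 1 + DX P (TT Y s) ε := Real.sq_sqrt (by linarith)

/-- bad sign vectors have large deviation -/
lemma one_le_DX {s : ℕ} {ε : Y → Bool} (h : ε ∈ Bad P s) : 1 ≤ DX P (TT Y s) ε := by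
  obtain ⟨f, hf1, hf2, hf3⟩ := h
  have hx : xv f ∈ TT Y s := ⟨f, hf1, hf2, rfl⟩
  have h1 := le_DX P (finite_TT s) hx ε
  have h2 : P.W (xv f) (sv ε) = 0 := by
    rw [xv_eq, W_smul_left, hf3, smul_zero]
  rw [h2, nG_zero, nY_xv hf1] at h1
  norm_num at h1
  exact h1

end Main

/-- the numerical part of the argument -/
lemma close {Z θ : ℝ} {p : ℕ} (hp : 1 ≤ p) (hZ : 0 ≤ Z) (hθ : 0 ≤ θ) (hθ1 : 4 * θ ≤ 1 / 4)
    (h : Z ^ 2 ≤ 2 ^ (p - 1) * (1 + (4 * θ) ^ p * Z)) : Z ≤ 2 ^ p := by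
  by_contra hcon
  push Not at hcon
  have e1 : (2 : ℝ) ^ p = 2 * 2 ^ (p - 1) := by
    rw [← pow_succ']
    congr 1
    omega
  have h1 : (1 : ℝ) ≤ 2 ^ (p - 1) := one_le_pow₀ (by norm_num)
  have h2 : (4 * θ) ^ p ≤ (1 / 4 : ℝ) ^ p := pow_le_pow_left₀ (by linarith) hθ1 p
  have h3 : (2 : ℝ) ^ (p - 1) * (1 / 4 : ℝ) ^ p ≤ 1 / 4 := by
    have h4 : (1 / 4 : ℝ) ^ p = (1 / 4) ^ (p - 1) * (1 / 4) := by
      rw [← pow_succ]
      congr 1
      omega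
    rw [h4, ← mul_assoc, ← mul_pow]
    have h5 : ((2 : ℝ) * (1 / 4)) ^ (p - 1) ≤ 1 := pow_le_one₀ (by norm_num) (by norm_num)
    linarith
  have h6 : (2 : ℝ) ^ (p - 1) * ((4 * θ) ^ p * Z) ≤ 1 / 4 * Z := by
    calc (2 : ℝ) ^ (p - 1) * ((4 * θ) ^ p * Z) ≤ (2 : ℝ) ^ (p - 1) * ((1 / 4) ^ p * Z) := by
          apply mul_le_mul_of_nonneg_left _ (by positivity)
          exact mul_le_mul_of_nonneg_right h2 hZ
      _ = ((2 : ℝ) ^ (p - 1) * (1 / 4) ^ p) * Z := by ring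
      _ ≤ 1 / 4 * Z := mul_le_mul_of_nonneg_right h3 hZ
  have h7 : Z ^ 2 ≤ 2 ^ (p - 1) + 1 / 4 * Z := by
    have h8 : (2 : ℝ) ^ (p - 1) * (1 + (4 * θ) ^ p * Z) =
        2 ^ (p - 1) + 2 ^ (p - 1) * ((4 * θ) ^ p * Z) := by ring
    rw [h8] at h
    linarith
  rw [e1] at hcon
  have h9 : 2 < Z := by linarith
  nlinarith

end BOOT_

theorem tBOOT : T_DEC → T_PHI → T_BOOT := by
  intro hdec hphi Y Γ _ _ _ _ P g hg hP hY s p hs hp hth
  obtain ⟨θ, hθ⟩ : ∃ θ, θ = th (kap Y) g s p := ⟨_, rfl⟩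
  have hθ0 : 0 ≤ θ := by rw [hθ]; exact BOOT_.th_nonneg _ _ _ _
  rw [← hθ] at hth ⊢
  obtain ⟨A, hA⟩ : ∃ A, A = av (fun ε : Y → Bool => Mx P (TT Y s) (sv ε) ^ (2 * p)) := ⟨_, rfl⟩
  have hA0 : 0 ≤ A := by
    rw [hA]
    exact av_nonneg fun ε => pow_nonneg (Mx_nonneg P _ _) _
  obtain ⟨Z, hZ⟩ : ∃ Z, Z = √A := ⟨_, rfl⟩
  have hZ0 : 0 ≤ Z := by rw [hZ]; exact Real.sqrt_nonneg _
  have hZA : Z ^ 2 = A := by rw [hZ]; exact Real.sq_sqrt hA0
  obtain ⟨B, hB⟩ : ∃ B, B = av (fun ε : Y → Bool => DX P (TT Y s) ε ^ p) := ⟨_, rfl⟩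
  -- the moment of the deviation
  have hBZ : B ≤ (4 * θ) ^ p * Z := by
    have h1 : B ≤ av (fun ε : Y → Bool =>
        (4 : ℝ) ^ p * av (fun I : Finset Y => FX P (TT Y s) I ε ^ p)) := by
      rw [hB]
      refine av_mono fun ε => ?_
      calc DX P (TT Y s) ε ^ p ≤ (4 * av (fun I : Finset Y => FX P (TT Y s) I ε)) ^ p :=
            pow_le_pow_left₀ (BOOT_.DX_nonneg P _ ε) (BOOT_.DX_le P hdec (finite_TT s) ε) p
        _ = (4 : ℝ) ^ p * av (fun I : Finset Y => FX P (TT Y s) I ε) ^ p := by rw [mul_pow]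
        _ ≤ _ := by
            apply mul_le_mul_of_nonneg_left _ (by positivity)
            exact av_pow_le _ (fun I => BOOT_.FX_nonneg P _ I ε) p
    rw [av_mul_left, av_comm] at h1
    refine h1.trans ?_
    have h2 : av (fun I : Finset Y => av (fun ε : Y → Bool => FX P (TT Y s) I ε ^ p)) ≤
        av (fun _ : Finset Y => θ ^ p * Z) := by
      refine av_mono fun I => ?_
      rw [hθ, hZ, hA]
      exact hphi Y Γ P g hg hP hY s p hs hp I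
    rw [av_const] at h2
    calc (4 : ℝ) ^ p * av (fun I : Finset Y => av (fun ε : Y → Bool => FX P (TT Y s) I ε ^ p))
        ≤ (4 : ℝ) ^ p * (θ ^ p * Z) := mul_le_mul_of_nonneg_left h2 (by positivity)
      _ = (4 * θ) ^ p * Z := by rw [mul_pow]; ring
  -- the moment of the maximum
  have hAB : A ≤ 2 ^ (p - 1) * (1 + B) := by
    rw [hA, hB]
    have h1 : av (fun ε : Y → Bool => Mx P (TT Y s) (sv ε) ^ (2 * p)) ≤
        av (fun ε : Y → Bool => (2 : ℝ) ^ (p - 1) * (1 + DX P (TT Y s) ε ^ p)) := by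
      refine av_mono fun ε => ?_
      calc Mx P (TT Y s) (sv ε) ^ (2 * p) = (Mx P (TT Y s) (sv ε) ^ 2) ^ p := pow_mul _ _ _
        _ ≤ (1 + DX P (TT Y s) ε) ^ p :=
            pow_le_pow_left₀ (by positivity) (BOOT_.Mx_sq_le P s ε) p
        _ ≤ 2 ^ (p - 1) * (1 ^ p + DX P (TT Y s) ε ^ p) :=
            add_pow_le zero_le_one (BOOT_.DX_nonneg P _ ε) p
        _ = _ := by rw [one_pow]
    rw [av_mul_left, av_add, av_const] at h1
    exact h1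
  have hZ2 : Z ^ 2 ≤ 2 ^ (p - 1) * (1 + (4 * θ) ^ p * Z) := by
    rw [hZA]
    refine hAB.trans ?_
    apply mul_le_mul_of_nonneg_left _ (by positivity)
    linarith
  have hZp : Z ≤ 2 ^ p := BOOT_.close hp hZ0 hθ0 (by linarith) hZ2
  have hB8 : B ≤ (8 * θ) ^ p := by
    calc B ≤ (4 * θ) ^ p * Z := hBZ
      _ ≤ (4 * θ) ^ p * 2 ^ p := mul_le_mul_of_nonneg_left hZp (by positivity)
      _ = (8 * θ) ^ p := by rw [← mul_pow]; congr 1; ring
  -- Markov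
  classical
  have hc : ((Bad P s).ncard : ℝ) ≤ ∑ ε : Y → Bool, DX P (TT Y s) ε ^ p := by
    rw [Set.ncard_eq_toFinset_card' (Bad P s), Finset.card_eq_sum_ones, Nat.cast_sum]
    calc ∑ _ε ∈ (Bad P s).toFinset, ((1 : ℕ) : ℝ)
        ≤ ∑ ε ∈ (Bad P s).toFinset, DX P (TT Y s) ε ^ p := by
          refine sum_le_sum fun ε hε => ?_
          rw [Set.mem_toFinset] at hε
          rw [Nat.cast_one]
          exact one_le_pow₀ (BOOT_.one_le_DX P hε)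
      _ ≤ ∑ ε : Y → Bool, DX P (TT Y s) ε ^ p :=
          sum_le_sum_of_subset_of_nonneg (subset_univ _)
            fun ε _ _ => pow_nonneg (BOOT_.DX_nonneg P _ ε) p
  have hcard : (Fintype.card (Y → Bool) : ℝ) = 2 ^ Fintype.card Y := by
    rw [Fintype.card_fun, Fintype.card_bool]
    push_cast
    rfl
  have hsum : ∑ ε : Y → Bool, DX P (TT Y s) ε ^ p = B * 2 ^ Fintype.card Y := by
    rw [hB]
    unfold av
    rw [hcard, div_mul_cancel₀]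
    positivity
  rw [hsum] at hc
  refine hc.trans ?_
  exact mul_le_mul_of_nonneg_right hB8 (by positivity)

end Pool.Agent.LCD
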