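import Mathlib
import Pool.Agent.LCD.Targets2

set_option autoImplicit false
set_option linter.unusedSectionVars false

/-!
# CNT: counting the exceptional tuples of CM types
-/

namespace Pool.Agent.LCD

open NumberField Finset Module
open Pool.Agent.CMT (QBar IsCMType cc)
open Pool.Agent.CMTP (HG toPerm)
open Pool.Agent.FFT (act conj)
open scoped BigOperators

namespace CNT_

/-- the sum of an even function over a half -/
theorem half_sum {X : Type} [Fintype X] [DecidableEq X] (c : X → X) (hc : ∀ x, c (c x) = x)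
    (Φ₀ : Finset X) (h0 : ∀ x, x ∈ Φ₀ ↔ c x ∉ Φ₀) {R : Type} [CommRing R] (g : X → R)
    (hg : ∀ x, g (c x) = g x) : ∑ x, g x = 2 * ∑ y : {x // x ∈ Φ₀}, g y := by
  have h1 : ∑ x ∈ Φ₀ᶜ, g x = ∑ x ∈ Φ₀, g x := by
    refine Finset.sum_bij' (fun x _ => c x) (fun x _ => c x) ?_ ?_ ?_ ?_ ?_
    · intro x hx
      rw [mem_compl] at hx
      by_contra h
      exact hx ((h0 x).mpr h)
    · intro x hx
      rw [mem_compl]
      exact (h0 x).mp hx
    · intro x _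
      exact hc x
    · intro x _
      exact hc x
    · intro x _
      exact (hg x).symm
  rw [← Finset.sum_add_sum_compl Φ₀, h1, Finset.sum_coe_sort Φ₀ g]
  ring

theorem l1_half {X : Type} [Fintype X] [DecidableEq X] (c : X → X) (hc : ∀ x, c (c x) = x)
    (Φ₀ : Finset X) (h0 : ∀ x, x ∈ Φ₀ ↔ c x ∉ Φ₀) (f : X → ℤ) (hf : ∀ x, f (c x) = - f x) :
    ∑ x, (f x).natAbs = 2 * l1 (fun y : {x // x ∈ Φ₀} => f y) := by
  have h1 := half_sum (R := ℤ) c hc Φ₀ h0 (fun x => ((f x).natAbs : ℤ)) (fun x => by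
    rw [hf x, Int.natAbs_neg])
  unfold l1
  exact_mod_cast h1

theorem not_mem {X : Type} [DecidableEq X] (c : X → X) (Φ₀ : Finset X)
    (h0 : ∀ x, x ∈ Φ₀ ↔ c x ∉ Φ₀) (x : X) (hx : x ∉ Φ₀) : c x ∈ Φ₀ := by
  by_contra h
  exact hx ((h0 x).mpr h)

section Main

variable {J : Type} [Fintype J] {K : J → Type} [∀ j, Field (K j)] [∀ j, NumberField (K j)]
  [∀ j, IsCMField (K j)]

/-- the sign vector of a tuple of types -/
noncomputable def ev [DecidableEq (Σ j, K j →+* QBar)] (Φ₀ : Finset (Σ j, K j →+* QBar))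
    (Φ : ∀ j, Finset (K j →+* QBar)) : {x // x ∈ Φ₀} → Bool :=
  fun y => by classical exact decide ((y : Σ j, K j →+* QBar).2 ∈ Φ (y : Σ j, K j →+* QBar).1)

theorem ev_true [DecidableEq (Σ j, K j →+* QBar)] (Φ₀ : Finset (Σ j, K j →+* QBar))
    (Φ : ∀ j, Finset (K j →+* QBar)) (y : {x // x ∈ Φ₀}) :
    ev Φ₀ Φ y = true ↔ (y : Σ j, K j →+* QBar).2 ∈ Φ (y : Σ j, K j →+* QBar).1 := by
  unfold ev
  simp

theorem sb_ev [DecidableEq (Σ j, K j →+* QBar)] (Φ₀ : Finset (Σ j, K j →+* QBar))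
    (Φ : ∀ j, Finset (K j →+* QBar)) (y : {x // x ∈ Φ₀}) :
    sb (ev Φ₀ Φ y) = ((FFT.CF_.sg Φ (y : Σ j, K j →+* QBar) : ℤ) : ℝ) := by
  have h := ev_true Φ₀ Φ y
  unfold FFT.CF_.sg sb
  by_cases hy : (y : Σ j, K j →+* QBar).2 ∈ Φ (y : Σ j, K j →+* QBar).1
  · rw [if_pos (h.mpr hy), if_pos hy]
    norm_num
  · rw [if_neg (fun h' => hy (h.mp h')), if_neg hy]
    norm_num

theorem cm_iff {Φ : ∀ j, Finset (K j →+* QBar)} (hΦ : ∀ j, IsCMType (K j) (Φ j))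
    (x : Σ j, K j →+* QBar) : x.2 ∈ Φ x.1 ↔ (conj x).2 ∉ Φ (conj x).1 := hΦ x.1 x.2

theorem ev_inj [DecidableEq (Σ j, K j →+* QBar)] (Φ₀ : Finset (Σ j, K j →+* QBar))
    (h0 : ∀ x, x ∈ Φ₀ ↔ conj x ∉ Φ₀) {Φ Φ' : ∀ j, Finset (K j →+* QBar)}
    (hΦ : ∀ j, IsCMType (K j) (Φ j)) (hΦ' : ∀ j, IsCMType (K j) (Φ' j))
    (h : ev Φ₀ Φ = ev Φ₀ Φ') : Φ = Φ' := by
  have h1 : ∀ x ∈ Φ₀, (x.2 ∈ Φ x.1 ↔ x.2 ∈ Φ' x.1) := by
    intro x hx
    rw [← ev_true Φ₀ Φ ⟨x, hx⟩, ← ev_true Φ₀ Φ' ⟨x, hx⟩, h]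
  have h2 : ∀ x : Σ j, K j →+* QBar, (x.2 ∈ Φ x.1 ↔ x.2 ∈ Φ' x.1) := by
    intro x
    by_cases hx : x ∈ Φ₀
    · exact h1 x hx
    · have h3 := h1 (conj x) (not_mem conj Φ₀ h0 x hx)
      rw [cm_iff hΦ x, cm_iff hΦ' x, h3]
  funext j
  ext φ
  exact h2 ⟨j, φ⟩

theorem ev_surj [DecidableEq (Σ j, K j →+* QBar)] (Φ₀ : Finset (Σ j, K j →+* QBar))
    (h0 : ∀ x, x ∈ Φ₀ ↔ conj x ∉ Φ₀) (ε : {x // x ∈ Φ₀} → Bool) :
    ∃ Φ : ∀ j, Finset (K j →+* QBar), (∀ j, IsCMType (K j) (Φ j)) ∧ ev Φ₀ Φ = ε := by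
  classical
  -- the membership predicate
  let Q : (Σ j, K j →+* QBar) → Prop := fun x =>
    (∃ hx : x ∈ Φ₀, ε ⟨x, hx⟩ = true) ∨ (∃ hx : conj x ∈ Φ₀, ε ⟨conj x, hx⟩ = false)
  let Φ : ∀ j, Finset (K j →+* QBar) := fun j => univ.filter (fun φ => Q ⟨j, φ⟩)
  have hmem : ∀ x : Σ j, K j →+* QBar, x.2 ∈ Φ x.1 ↔ Q x := by
    intro x
    simp only [Φ, mem_filter, mem_univ, true_and]
  have hQ : ∀ x, Q x ↔ ¬ Q (conj x) := by
    intro x
    by_cases hx : x ∈ Φ₀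
    · have hx' : conj x ∉ Φ₀ := (h0 x).mp hx
      have e1 : Q x ↔ ε ⟨x, hx⟩ = true := by
        constructor
        · rintro (⟨_, h⟩ | ⟨h, _⟩)
          · exact h
          · exact absurd h hx'
        · intro h
          exact Or.inl ⟨hx, h⟩
      have e2 : Q (conj x) ↔ ε ⟨x, hx⟩ = false := by
        constructor
        · rintro (⟨h, _⟩ | ⟨h1, h2⟩)
          · exact absurd h hx'
          · have e3 : (⟨conj (conj x), h1⟩ : {x // x ∈ Φ₀}) = ⟨x, hx⟩ :=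
              Subtype.ext (FFT.CF_.conj_conj x)
            rw [e3] at h2
            exact h2
        · intro h
          have h1 : conj (conj x) ∈ Φ₀ := by rw [FFT.CF_.conj_conj]; exact hx
          refine Or.inr ⟨h1, ?_⟩
          have e3 : (⟨conj (conj x), h1⟩ : {x // x ∈ Φ₀}) = ⟨x, hx⟩ :=
            Subtype.ext (FFT.CF_.conj_conj x)
          rw [e3]
          exact h
      rw [e1, e2]
      cases ε ⟨x, hx⟩ <;> simp
    · have hx' : conj x ∈ Φ₀ := not_mem conj Φ₀ h0 x hx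
      have e1 : Q x ↔ ε ⟨conj x, hx'⟩ = false := by
        constructor
        · rintro (⟨h, _⟩ | ⟨_, h⟩)
          · exact absurd h hx
          · exact h
        · intro h
          exact Or.inr ⟨hx', h⟩
      have e2 : Q (conj x) ↔ ε ⟨conj x, hx'⟩ = true := by
        constructor
        · rintro (⟨_, h⟩ | ⟨h1, _⟩)
          · exact h
          · rw [FFT.CF_.conj_conj] at h1
            exact absurd h1 hx
        · intro h
          exact Or.inl ⟨hx', h⟩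
      rw [e1, e2]
      cases ε ⟨conj x, hx'⟩ <;> simp
  refine ⟨Φ, ?_, ?_⟩
  · intro j φ
    have h1 := hmem ⟨j, φ⟩
    have h2 := hmem (conj ⟨j, φ⟩)
    have h3 := hQ ⟨j, φ⟩
    show φ ∈ Φ j ↔ (conj (⟨j, φ⟩ : Σ j, K j →+* QBar)).2 ∉ Φ (conj (⟨j, φ⟩ : Σ j, K j →+* QBar)).1
    rw [h2]
    exact h1.trans h3
  · funext y
    have h1 := ev_true Φ₀ Φ y
    have h2 := hmem (y : Σ j, K j →+* QBar)
    have h3 : Q (y : Σ j, K j →+* QBar) ↔ ε y = true := by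
      constructor
      · rintro (⟨_, h⟩ | ⟨h, _⟩)
        · exact h
        · exact absurd h ((h0 y).mp y.2)
      · intro h
        exact Or.inl ⟨y.2, h⟩
    rw [Bool.eq_iff_iff, h1, h2, h3]

/-- a tuple of types with a small relation has a bad sign vector -/
theorem bad [DecidableEq (Σ j, K j →+* QBar)] (Φ₀ : Finset (Σ j, K j →+* QBar))
    (h0 : ∀ x, x ∈ Φ₀ ↔ conj x ∉ Φ₀) {Φ : ∀ j, Finset (K j →+* QBar)}
    (hΦ : ∀ j, IsCMType (K j) (Φ j)) (i : ℕ) (hL : ¬ Low Φ i)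
    (P : SP {x // x ∈ Φ₀} (FFT.CF_.actHom K).range)
    (hP : ∀ (h : (FFT.CF_.actHom K).range) (y : {x // x ∈ Φ₀}),
      ((P.π h y : Σ j, K j →+* QBar) = (h : Equiv.Perm (Σ j, K j →+* QBar)) y ∧ P.σ h y = true) ∨
      ((P.π h y : Σ j, K j →+* QBar) = conj ((h : Equiv.Perm (Σ j, K j →+* QBar)) y) ∧
        P.σ h y = false)) :
    ev Φ₀ Φ ∈ Bad P (2 * i) := by
  unfold Low at hL
  push Not at hL
  obtain ⟨f, hodd, hsum, hrel, hne⟩ := hL
  have hl := l1_half conj FFT.CF_.conj_conj Φ₀ h0 f hodd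
  refine ⟨fun y => f y, ?_, by omega, ?_⟩
  · by_contra hcon
    have h1 : l1 (fun y : {x // x ∈ Φ₀} => f y) = 0 := by omega
    rw [h1, mul_zero] at hl
    apply hne
    funext x
    have := (Finset.sum_eq_zero_iff.mp hl) x (mem_univ x)
    exact Int.natAbs_eq_zero.mp this
  · funext h
    obtain ⟨τ, hτ⟩ := h.2
    have hτ' : ∀ x, (h : Equiv.Perm (Σ j, K j →+* QBar)) x = act K τ x := by
      intro x
      rw [← hτ]
      rfl
    have h1 : P.W (rl fun y : {x // x ∈ Φ₀} => f y) (sv (ev Φ₀ Φ)) h =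
        (((∑ y : {x // x ∈ Φ₀}, FFT.CF_.sg Φ (act K τ y) * f y : ℤ)) : ℝ) := by
      unfold SP.W rl sv
      push_cast
      refine Finset.sum_congr rfl fun y _ => ?_
      rw [sb_ev]
      rcases hP h y with ⟨e1, e2⟩ | ⟨e1, e2⟩
      · rw [e1, e2, hτ']
        simp only [sb, if_true]
        ring
      · rw [e1, e2, hτ', FFT.CF_.sg_conj hΦ]
        simp only [sb, Bool.false_eq_true, if_false]
        push_cast
        ring
    rw [h1]
    have h2 := half_sum (R := ℤ) conj FFT.CF_.conj_conj Φ₀ h0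
      (fun x => FFT.CF_.sg Φ (act K τ x) * f x) (fun x => by
        rw [← FFT.CF_.act_conj, FFT.CF_.sg_conj hΦ, hodd]
        ring)
    rw [hrel τ] at h2
    have h3 : ∑ y : {x // x ∈ Φ₀}, FFT.CF_.sg Φ (act K τ y) * f y = 0 := by omega
    rw [h3]
    simp

/-- the orbits are large -/
theorem orbit (g : ℕ) (hg : ∀ j, 2 * g ≤ finrank ℚ (K j)) (x : Σ j, K j →+* QBar) :
    2 * g ≤ {y : Σ j, K j →+* QBar | ∃ h ∈ (FFT.CF_.actHom K).range, h x = y}.ncard := by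
  classical
  obtain ⟨j, φ⟩ := x
  refine (hg j).trans ?_
  rw [← CMTP.card_emb (K := K j), ← Nat.card_eq_fintype_card, ← Set.ncard_univ]
  have hinj : Function.Injective (fun ψ : K j →+* QBar => (⟨j, ψ⟩ : Σ j, K j →+* QBar)) := by
    intro ψ ψ' h
    exact eq_of_heq (Sigma.mk.inj h).2
  rw [← Set.ncard_image_of_injective _ hinj]
  refine Set.ncard_le_ncard ?_ (Set.toFinite _)
  rintro _ ⟨ψ, _, rfl⟩
  obtain ⟨h, hh, hψ⟩ := CMTP.transitive (K j) φ ψ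
  obtain ⟨τ, rfl⟩ := hh
  refine ⟨FFT.CF_.actHom K τ, ⟨τ, rfl⟩, ?_⟩
  show act K τ ⟨j, φ⟩ = ⟨j, ψ⟩
  rw [← hψ]
  rfl

theorem card_X : Fintype.card (Σ j, K j →+* QBar) = ∑ j, finrank ℚ (K j) := by
  rw [Fintype.card_sigma]
  exact Finset.sum_congr rfl fun j _ => CMTP.card_emb

end Main

theorem kap_le {Y : Type} [Fintype Y] (N : ℕ) (h : Fintype.card Y ≤ N) :
    1 ≤ kap Y ∧ kap Y ≤ 1 + Real.log N := by
  unfold kap
  have h1 : (0 : ℝ) ≤ Real.log (Fintype.card Y) := Real.log_natCast_nonneg _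
  refine ⟨by linarith, ?_⟩
  rcases Nat.eq_zero_or_pos (Fintype.card Y) with h0 | h0
  · rw [h0]
    have h2 : (0 : ℝ) ≤ Real.log N := Real.log_natCast_nonneg _
    simp only [Nat.cast_zero, Real.log_zero]
    linarith
  · have h2 : Real.log (Fintype.card Y) ≤ Real.log N :=
      Real.log_le_log (by exact_mod_cast h0) (by exact_mod_cast h)
    linarith

end CNT_

open CNT_ in
/-- CNT: counting the exceptional tuples of CM types -/
theorem tCNT : T_HALF → T_ABS → T_CNT := by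
  rintro hHALF ⟨c₀, hc₀, hABS⟩
  refine ⟨c₀ / 2, by positivity, ?_⟩
  intro J _ K _ _ _ g i hi hg hN
  classical
  by_cases hne : Nonempty {Φ : ∀ j, Finset (K j →+* QBar) // ∀ j, IsCMType (K j) (Φ j)}
  swap
  · have he : IsEmpty {Φ : ∀ j, Finset (K j →+* QBar) //
        (∀ j, IsCMType (K j) (Φ j)) ∧ ¬ Low Φ i} :=
      ⟨fun Φ => hne ⟨⟨Φ.1, Φ.2.1⟩⟩⟩
    rw [Nat.card_of_isEmpty, Nat.cast_zero]
    positivity
  obtain ⟨⟨Ψ, hΨ⟩⟩ := hne
  -- the half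
  let Φ₀ : Finset (Σ j, K j →+* QBar) := univ.filter (fun x => x.2 ∈ Ψ x.1)
  have hmem0 : ∀ x, x ∈ Φ₀ ↔ x.2 ∈ Ψ x.1 := by
    intro x
    simp only [Φ₀, mem_filter, mem_univ, true_and]
  have h0 : ∀ x, x ∈ Φ₀ ↔ conj x ∉ Φ₀ := by
    intro x
    rw [hmem0, hmem0]
    exact cm_iff hΨ x
  letI : Fintype (FFT.CF_.actHom K).range := Fintype.ofFinite _
  obtain ⟨P, hSpr, hP⟩ := hHALF (Σ j, K j →+* QBar) (FFT.CF_.actHom K).range conj
    FFT.CF_.conj_conj (by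
      rintro _ ⟨τ, rfl⟩ x
      rfl) g (orbit g hg) Φ₀ h0
  -- numbers
  set N : ℕ := ∑ j, finrank ℚ (K j) with hNdef
  have hcardY : Fintype.card {x // x ∈ Φ₀} ≤ N := by
    rw [Fintype.card_coe, hNdef, ← card_X]
    exact Finset.card_le_univ _
  obtain ⟨hk1, hk2⟩ := kap_le N hcardY
  have hlogN : (0 : ℝ) ≤ Real.log N := Real.log_natCast_nonneg _
  have hi' : (1 : ℝ) ≤ i := by exact_mod_cast hi
  have hpow : (1 : ℝ) ≤ (1 + Real.log N) ^ 4 := one_le_pow₀ (by linarith)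
  have hgpos : (0 : ℝ) < g := by
    have h1 : (1 : ℝ) ≤ i * (1 + Real.log N) ^ 4 := by nlinarith
    have h2 : (0 : ℝ) < c₀ / 2 * g := by linarith
    by_contra h3
    push Not at h3
    have : c₀ / 2 * g ≤ 0 := mul_nonpos_of_nonneg_of_nonpos (by positivity) h3
    linarith
  have hs : ((2 * i : ℕ) : ℝ) * kap {x // x ∈ Φ₀} ^ 4 ≤ c₀ * g := by
    have h1 : kap {x // x ∈ Φ₀} ^ 4 ≤ (1 + Real.log N) ^ 4 :=
      pow_le_pow_left₀ (by linarith) hk2 4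
    have h2 : (i : ℝ) * kap {x // x ∈ Φ₀} ^ 4 ≤ i * (1 + Real.log N) ^ 4 :=
      mul_le_mul_of_nonneg_left h1 (by linarith)
    push_cast
    linarith
  have hmain := hABS {x // x ∈ Φ₀} (FFT.CF_.actHom K).range P g hgpos hSpr (2 * i) (by omega) hs
  have hexp : Real.exp (-(c₀ * g / (((2 * i : ℕ) : ℝ) * kap {x // x ∈ Φ₀}))) ≤
      Real.exp (-(c₀ / 2 * g / (i * (1 + Real.log N)))) := by
    apply Real.exp_le_exp.mpr
    apply neg_le_neg
    have h3 : c₀ / 2 * g / (i * (1 + Real.log N)) = c₀ * g / (2 * i * (1 + Real.log N)) := by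
      field_simp
    rw [h3]
    push_cast
    apply div_le_div_of_nonneg_left (by positivity) (by positivity)
    exact mul_le_mul_of_nonneg_left hk2 (by positivity)
  -- counting
  have hcm : Nat.card {Φ : ∀ j, Finset (K j →+* QBar) // ∀ j, IsCMType (K j) (Φ j)} =
      2 ^ Fintype.card {x // x ∈ Φ₀} := by
    have hb : Function.Bijective (fun Φ : {Φ : ∀ j, Finset (K j →+* QBar) //
        ∀ j, IsCMType (K j) (Φ j)} => ev Φ₀ Φ.1) := by
      constructor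
      · intro Φ Φ' h
        exact Subtype.ext (ev_inj Φ₀ h0 Φ.2 Φ'.2 h)
      · intro ε
        obtain ⟨Φ, h1, h2⟩ := ev_surj Φ₀ h0 ε
        exact ⟨⟨Φ, h1⟩, h2⟩
    rw [Nat.card_eq_of_bijective _ hb, Nat.card_eq_fintype_card, Fintype.card_fun,
      Fintype.card_bool]
  have hle : Nat.card {Φ : ∀ j, Finset (K j →+* QBar) //
      (∀ j, IsCMType (K j) (Φ j)) ∧ ¬ Low Φ i} ≤ (Bad P (2 * i)).ncard := by
    rw [← Nat.card_coe_set_eq]
    let F : {Φ : ∀ j, Finset (K j →+* QBar) // (∀ j, IsCMType (K j) (Φ j)) ∧ ¬ Low Φ i} →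
        Bad P (2 * i) := fun Φ => ⟨ev Φ₀ Φ.1, bad Φ₀ h0 Φ.2.1 i Φ.2.2 P hP⟩
    apply Nat.card_le_card_of_injective F
    intro Φ Φ' h
    exact Subtype.ext (ev_inj Φ₀ h0 Φ.2.1 Φ'.2.1 (congrArg Subtype.val h))
  calc (Nat.card {Φ : ∀ j, Finset (K j →+* QBar) //
      (∀ j, IsCMType (K j) (Φ j)) ∧ ¬ Low Φ i} : ℝ) ≤ ((Bad P (2 * i)).ncard : ℝ) := by
        exact_mod_cast hle
    _ ≤ Real.exp (-(c₀ * g / (((2 * i : ℕ) : ℝ) * kap {x // x ∈ Φ₀}))) *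
        2 ^ Fintype.card {x // x ∈ Φ₀} := hmain
    _ ≤ Real.exp (-(c₀ / 2 * g / (i * (1 + Real.log N)))) *
        2 ^ Fintype.card {x // x ∈ Φ₀} := mul_le_mul_of_nonneg_right hexp (by positivity)
    _ = Real.exp (-(c₀ / 2 * g / (i * (1 + Real.log N)))) *
        Nat.card {Φ : ∀ j, Finset (K j →+* QBar) // ∀ j, IsCMType (K j) (Φ j)} := by
        rw [hcm]
        push_cast
        rfl

end Pool.Agent.LCD
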