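import Pool.Agent.LCD.Targets

set_option autoImplicit false

/-!
# LCD, DEC: decoupling
-/

namespace Pool.Agent.LCD

open Finset
open scoped BigOperators

namespace DEC_

variable {Y : Type} [DecidableEq Y]

/-- membership as a sign -/
noncomputable def sg (a : Y) (I : Finset Y) : ℝ := if a ∈ I then 1 else -1

/-- add or remove `a` -/
def tg (a : Y) (I : Finset Y) : Finset Y := symmDiff I {a}

lemma tg_inv (a : Y) : Function.Involutive (tg a) := by
  intro I
  unfold tg
  exact symmDiff_symmDiff_cancel_right {a} I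

lemma mem_tg_self (a : Y) (I : Finset Y) : a ∈ tg a I ↔ a ∉ I := by
  unfold tg
  rw [Finset.mem_symmDiff]
  simp

lemma mem_tg_ne {a b : Y} (h : b ≠ a) (I : Finset Y) : b ∈ tg a I ↔ b ∈ I := by
  unfold tg
  rw [Finset.mem_symmDiff]
  simp [h]

lemma sg_tg_self (a : Y) (I : Finset Y) : sg a (tg a I) = - sg a I := by
  unfold sg
  by_cases h : a ∈ I
  · rw [if_pos h, if_neg (by rw [mem_tg_self]; exact not_not.2 h)]
  · rw [if_neg h, if_pos ((mem_tg_self a I).2 h), neg_neg]

lemma sg_tg_ne {a b : Y} (h : b ≠ a) (I : Finset Y) : sg b (tg a I) = sg b I := by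
  unfold sg
  simp only [mem_tg_ne h]

variable [Fintype Y]

lemma av_sg (a : Y) : av (fun I : Finset Y => sg a I) = 0 := by
  have h := av_equiv (tg_inv a).toPerm (fun I : Finset Y => sg a I)
  have h2 : av (fun I : Finset Y => sg a (tg a I)) =
      - av (fun I : Finset Y => sg a I) := by
    rw [← av_neg]
    congr 1
    funext I
    exact sg_tg_self a I
  have h3 : av (fun I : Finset Y => sg a (tg a I)) = av (fun I : Finset Y => sg a I) := h
  linarith

lemma av_sg_sg {a b : Y} (hab : a ≠ b) : av (fun I : Finset Y => sg a I * sg b I) = 0 := by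
  have h := av_equiv (tg_inv a).toPerm (fun I : Finset Y => sg a I * sg b I)
  have h2 : av (fun I : Finset Y => sg a (tg a I) * sg b (tg a I)) =
      - av (fun I : Finset Y => sg a I * sg b I) := by
    rw [← av_neg]
    congr 1
    funext I
    rw [sg_tg_self, sg_tg_ne hab.symm]
    ring
  have h3 : av (fun I : Finset Y => sg a (tg a I) * sg b (tg a I)) =
      av (fun I : Finset Y => sg a I * sg b I) := h
  linarith

/-- the average of the indicator -/
lemma av_ind (a b : Y) : av (fun I : Finset Y => (1 + sg a I) / 2 * ((1 - sg b I) / 2)) =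
    if a = b then 0 else 1 / 4 := by
  by_cases hab : a = b
  · subst hab
    rw [if_pos rfl, ← av_zero (α := Finset Y)]
    congr 1
    funext I
    unfold sg
    split_ifs <;> norm_num
  · rw [if_neg hab]
    have e : (fun I : Finset Y => (1 + sg a I) / 2 * ((1 - sg b I) / 2)) =
        fun I => ((1 / 4 + 1 / 4 * sg a I) - 1 / 4 * sg b I) - 1 / 4 * (sg a I * sg b I) := by
      funext I
      ring
    rw [e, av_sub, av_sub, av_add, av_mul_left, av_mul_left, av_mul_left, av_sg, av_sg,
      av_sg_sg hab, av_const]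
    ring

lemma pv_sg (I : Finset Y) (ε : Y → Bool) (a : Y) : pv I ε a = (1 + sg a I) / 2 * sb (ε a) := by
  unfold pv sg
  split_ifs <;> ring

lemma pv_compl_sg (I : Finset Y) (ε : Y → Bool) (a : Y) :
    pv Iᶜ ε a = (1 - sg a I) / 2 * sb (ε a) := by
  unfold pv sg
  by_cases h : a ∈ I
  · rw [if_neg (by simpa using h), if_pos h]
    ring
  · rw [if_pos (by simpa using h), if_neg h]
    ring

/-- expansion of the inner products -/
lemma ip_expand {Γ : Type} [Fintype Γ] (P : SP Y Γ) (x v w : Y → ℝ) :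
    ip (P.W x v) (P.W x w) = ∑ a, ∑ b, v a * w b *
      ip (P.W x (Pi.single a 1)) (P.W x (Pi.single b 1)) := by
  conv_lhs => rw [W_eq_sum P x v, W_eq_sum P x w]
  rw [ip_sum_left]
  refine sum_congr rfl fun a _ => ?_
  rw [ip_sum_right]
  refine sum_congr rfl fun b _ => ?_
  rw [ip_smul_left, ip_smul_right]
  ring

end DEC_

open DEC_ in
theorem tDEC : T_DEC := by
  intro Y Γ _ _ _ _ P x ε
  set G : Y → Y → ℝ := fun a b => ip (P.W x (Pi.single a 1)) (P.W x (Pi.single b 1)) with hG
  have h1 : nG (P.W x (sv ε)) ^ 2 = ∑ a, ∑ b, sb (ε a) * sb (ε b) * G a b := by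
    rw [nG_sq_ip, ip_expand]
    rfl
  have h2 : nY x ^ 2 = ∑ a, G a a := by
    rw [← sum_diag P x]
    exact sum_congr rfl fun a _ => nG_sq_ip _
  have h3 : av (fun I : Finset Y => ip (P.W x (pv I ε)) (P.W x (pv Iᶜ ε))) =
      ∑ a, ∑ b, sb (ε a) * sb (ε b) * G a b * (if a = b then 0 else 1 / 4) := by
    have e : (fun I : Finset Y => ip (P.W x (pv I ε)) (P.W x (pv Iᶜ ε))) =
        fun I => ∑ a, ∑ b, sb (ε a) * sb (ε b) * G a b *
          ((1 + sg a I) / 2 * ((1 - sg b I) / 2)) := by
      funext I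
      rw [ip_expand]
      refine sum_congr rfl fun a _ => sum_congr rfl fun b _ => ?_
      rw [pv_sg, pv_compl_sg]
      ring
    rw [e, av_sum]
    refine sum_congr rfl fun a _ => ?_
    rw [av_sum]
    refine sum_congr rfl fun b _ => ?_
    rw [av_mul_left, av_ind]
  rw [h1, h2, h3, mul_sum, ← sum_sub_distrib]
  refine sum_congr rfl fun a _ => ?_
  rw [mul_sum, ← sum_erase_add (s := univ) (a := a) _ (mem_univ a),
    ← sum_erase_add (s := univ) (f := fun b => 4 * (sb (ε a) * sb (ε b) * G a b *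
      (if a = b then 0 else 1 / 4))) (a := a) (mem_univ a)]
  rw [if_pos rfl, mul_zero, mul_zero, add_zero, sb_mul_self, one_mul, add_sub_cancel_right]
  refine sum_congr rfl fun b hb => ?_
  rw [if_neg (ne_of_mem_erase hb).symm]
  ring

end Pool.Agent.LCD
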