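import Pool.Agent.LCD.Targets2

set_option autoImplicit false

/-!
# Signed permutations of one half of a set with an involution
-/

namespace Pool.Agent.LCD

open Finset
open scoped BigOperators

namespace HALF_

variable {X : Type} [Fintype X] [DecidableEq X]

/-- the fibres of the orbit map are small -/
theorem fibre_le (H : Subgroup (Equiv.Perm X)) [Fintype H] (y w : X) :
    {x : X | ∃ h ∈ H, h y = x}.ncard *
      (univ.filter (fun τ : H => (τ : Equiv.Perm X) y = w)).card ≤ Fintype.card H := by
  classical
  have horb : {x : X | ∃ h ∈ H, h y = x} =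
      ((univ.image (fun τ : H => (τ : Equiv.Perm X) y) : Finset X) : Set X) := by
    ext x
    simp
  rw [horb, Set.ncard_coe_finset]
  by_cases hne : ∃ τ₀ : H, (τ₀ : Equiv.Perm X) y = w
  · obtain ⟨τ₀, hτ₀⟩ := hne
    have hfib : ∀ x ∈ univ.image (fun τ : H => (τ : Equiv.Perm X) y),
        (univ.filter (fun τ : H => (τ : Equiv.Perm X) y = w)).card ≤
          (univ.filter (fun τ : H => (τ : Equiv.Perm X) y = x)).card := by
      intro x hx
      obtain ⟨h, -, hh⟩ := mem_image.1 hx
      refine card_le_card_of_injOn (fun τ => h * τ₀⁻¹ * τ) ?_ ?_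
      · intro τ hτ
        have hτ' := (mem_filter.1 (mem_coe.1 hτ)).2
        refine mem_coe.2 (mem_filter.2 ⟨mem_univ _, ?_⟩)
        have e1 : (τ₀ : Equiv.Perm X)⁻¹ w = y := by
          rw [← hτ₀]
          simp
        simp only [Subgroup.coe_mul, Subgroup.coe_inv, Equiv.Perm.mul_apply]
        rw [hτ', e1]
        exact hh
      · intro τ _ τ' _ hττ
        exact mul_left_cancel hττ
    have hsum : Fintype.card H = ∑ x ∈ univ.image (fun τ : H => (τ : Equiv.Perm X) y),
        (univ.filter (fun τ : H => (τ : Equiv.Perm X) y = x)).card := by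
      rw [← card_univ]
      exact card_eq_sum_card_fiberwise fun τ hτ => mem_coe.2 (mem_image_of_mem _ (mem_coe.1 hτ))
    rw [hsum]
    calc (univ.image (fun τ : H => (τ : Equiv.Perm X) y)).card *
          (univ.filter (fun τ : H => (τ : Equiv.Perm X) y = w)).card
        = ∑ x ∈ univ.image (fun τ : H => (τ : Equiv.Perm X) y),
          (univ.filter (fun τ : H => (τ : Equiv.Perm X) y = w)).card := by
          rw [sum_const, smul_eq_mul]
      _ ≤ _ := sum_le_sum hfib
  · have : univ.filter (fun τ : H => (τ : Equiv.Perm X) y = w) = ∅ := by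
      refine filter_eq_empty_iff.2 fun τ _ h => hne ⟨τ, h⟩
    rw [this, card_empty, mul_zero]
    exact Nat.zero_le _

end HALF_

open HALF_ in
theorem tHALF : T_HALF := by
  classical
  intro X _ _ H _ c hc hcomm g hg Φ₀ hΦ
  have hmem : ∀ (h : H) (y : {x // x ∈ Φ₀}),
      (if (h : Equiv.Perm X) y ∈ Φ₀ then (h : Equiv.Perm X) y else c ((h : Equiv.Perm X) y)) ∈
        Φ₀ := by
    intro h y
    by_cases hy : (h : Equiv.Perm X) y ∈ Φ₀
    · rw [if_pos hy]
      exact hy
    · rw [if_neg hy, hΦ, hc]
      exact hy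
  have hinj : ∀ h : H, Function.Injective (fun y : {x // x ∈ Φ₀} =>
      (⟨_, hmem h y⟩ : {x // x ∈ Φ₀})) := by
    intro h y y' hyy
    have h1 := congrArg Subtype.val hyy
    simp only at h1
    have key : ∀ u v : {x // x ∈ Φ₀}, (h : Equiv.Perm X) u = c ((h : Equiv.Perm X) v) →
        False := by
      intro u v huv
      rw [hcomm h h.2 v] at huv
      have h2 := (h : Equiv.Perm X).injective huv
      have h3 := (hΦ v).1 v.2
      rw [← h2] at h3
      exact h3 u.2
    by_cases c1 : (h : Equiv.Perm X) y ∈ Φ₀ <;> by_cases c2 : (h : Equiv.Perm X) y' ∈ Φ₀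
    · rw [if_pos c1, if_pos c2] at h1
      exact Subtype.ext ((h : Equiv.Perm X).injective h1)
    · rw [if_pos c1, if_neg c2] at h1
      exact (key y y' h1).elim
    · rw [if_neg c1, if_pos c2] at h1
      exact (key y' y h1.symm).elim
    · rw [if_neg c1, if_neg c2] at h1
      have h2 := congrArg c h1
      rw [hc, hc] at h2
      exact Subtype.ext ((h : Equiv.Perm X).injective h2)
  refine ⟨⟨fun h => Equiv.ofBijective _ (Finite.injective_iff_bijective.1 (hinj h)),
    fun h y => decide ((h : Equiv.Perm X) y ∈ Φ₀)⟩, ?_, ?_⟩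
  · intro y z
    have hF : ∀ w : X, 2 * g * (univ.filter (fun τ : H => (τ : Equiv.Perm X) y = w)).card ≤
        Fintype.card H := fun w =>
      (Nat.mul_le_mul_right _ (hg y)).trans (fibre_le H y w)
    have hsub : univ.filter (fun τ : H => (Equiv.ofBijective _
        (Finite.injective_iff_bijective.1 (hinj τ)) : Equiv.Perm {x // x ∈ Φ₀}) y = z) ⊆
        univ.filter (fun τ : H => (τ : Equiv.Perm X) y = z) ∪
        univ.filter (fun τ : H => (τ : Equiv.Perm X) y = c z) := by
      intro τ hτ
      have h1 := congrArg Subtype.val (mem_filter.1 hτ).2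
      rw [Equiv.ofBijective_apply] at h1
      simp only at h1
      rw [mem_union, mem_filter, mem_filter]
      by_cases c1 : (τ : Equiv.Perm X) y ∈ Φ₀
      · rw [if_pos c1] at h1
        exact Or.inl ⟨mem_univ _, h1⟩
      · rw [if_neg c1] at h1
        refine Or.inr ⟨mem_univ _, ?_⟩
        rw [← h1, hc]
    have h2 := (card_le_card hsub).trans (card_union_le _ _)
    have h3 := hF z
    have h4 := hF (c z)
    have h5 : g * (univ.filter (fun τ : H => (Equiv.ofBijective _
        (Finite.injective_iff_bijective.1 (hinj τ)) : Equiv.Perm {x // x ∈ Φ₀}) y = z)).card ≤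
        Fintype.card H := by
      have h6 := Nat.mul_le_mul_left g h2
      have h7 : 2 * g * (univ.filter (fun τ : H => (τ : Equiv.Perm X) y = z)).card =
        2 * (g * (univ.filter (fun τ : H => (τ : Equiv.Perm X) y = z)).card) := by ring
      have h8 : 2 * g * (univ.filter (fun τ : H => (τ : Equiv.Perm X) y = c z)).card =
        2 * (g * (univ.filter (fun τ : H => (τ : Equiv.Perm X) y = c z)).card) := by ring
      rw [h7] at h3
      rw [h8] at h4
      rw [Nat.mul_add] at h6
      omega
    exact_mod_cast h5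
  · intro h y
    by_cases c1 : (h : Equiv.Perm X) y ∈ Φ₀
    · left
      refine ⟨?_, by simp [c1]⟩
      simp only [Equiv.ofBijective_apply]
      rw [if_pos c1]
    · right
      refine ⟨?_, by simp [c1]⟩
      simp only [Equiv.ofBijective_apply]
      rw [if_neg c1]

end Pool.Agent.LCD
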