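import Pool.Agent.LCD.Targets

set_option autoImplicit false

/-!
# Halving an integral vector
-/

namespace Pool.Agent.LCD

open Finset
open scoped BigOperators

namespace HALV_

section Sgn

variable {Y : Type}

/-- the sign of an integer -/
def e (f : Y → ℤ) (z : Y) : ℤ := if 0 < f z then 1 else -1

theorem natAbs_e (f : Y → ℤ) (z : Y) : (e f z).natAbs = 1 := by
  unfold e
  split_ifs <;> rfl

theorem e_mul (f : Y → ℤ) (z : Y) : f z = e f z * ((f z).natAbs : ℤ) := by
  unfold e
  split_ifs with h <;> omega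

end Sgn

variable {Y : Type} [Fintype Y] [DecidableEq Y]

/-- the number of signs `b` above `z` -/
def cnt (f : Y → ℤ) (δ : (Σ y : Y, Fin (f y).natAbs) → Bool) (b : Bool) (z : Y) : ℕ :=
  (univ.filter fun s : Fin (f z).natAbs => δ ⟨z, s⟩ = b).card

theorem cnt_add (f : Y → ℤ) (δ : (Σ y : Y, Fin (f y).natAbs) → Bool) (b : Bool) (z : Y) :
    cnt f δ b z + cnt f δ (!b) z = (f z).natAbs := by
  unfold cnt
  have h := Finset.card_filter_add_card_filter_not (s := (univ : Finset (Fin (f z).natAbs)))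
    (fun s => δ ⟨z, s⟩ = b)
  rw [card_univ, Fintype.card_fin] at h
  refine Eq.trans ?_ h
  congr 2
  ext s
  simp only [mem_filter, mem_univ, true_and]
  cases δ ⟨z, s⟩ <;> cases b <;> simp

theorem hv_eq (f : Y → ℤ) (δ : (Σ y : Y, Fin (f y).natAbs) → Bool) (z : Y) :
    hv (fun j : (Σ y : Y, Fin (f y).natAbs) => j.1) (fun j => decide (0 < f j.1)) δ z =
      (e f z : ℝ) * ((cnt f δ true z : ℝ) - cnt f δ false z) := by
  unfold hv
  rw [Fintype.sum_sigma, sum_eq_single z]
  · have e1 : ∀ s : Fin (f z).natAbs, (if (⟨z, s⟩ : Σ y : Y, Fin (f y).natAbs).1 = z then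
        sb (δ ⟨z, s⟩) * sb (decide (0 < f (⟨z, s⟩ : Σ y : Y, Fin (f y).natAbs).1)) else 0) =
        (e f z : ℝ) * sb (δ ⟨z, s⟩) := by
      intro s
      rw [if_pos rfl, mul_comm]
      congr 1
      unfold sb e
      by_cases h : 0 < f z
      · simp [h]
      · simp [h]
    rw [sum_congr rfl fun s _ => e1 s, ← mul_sum]
    congr 1
    have e2 : ∀ s : Fin (f z).natAbs, sb (δ ⟨z, s⟩) = (if δ ⟨z, s⟩ = true then (1 : ℝ) else 0) -
        (if δ ⟨z, s⟩ = false then (1 : ℝ) else 0) := by
      intro s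
      cases δ ⟨z, s⟩ <;> simp [sb]
    rw [sum_congr rfl fun s _ => e2 s, sum_sub_distrib]
    unfold cnt
    rw [Finset.sum_boole, Finset.sum_boole]
  · intro y _ hy
    exact sum_eq_zero fun s _ => if_neg hy
  · intro h
    exact absurd (mem_univ z) h

end HALV_

open HALV_ in
theorem tHALV : T_RAD → T_HALV := by
  intro hR Y Γ _ _ _ _ _ P g hg hS f
  obtain ⟨δ, hδ⟩ := hR Y Γ P g hg hS (Σ y : Y, Fin (f y).natAbs) (fun j => j.1)
    (fun j => decide (0 < f j.1))
  have hcard : Fintype.card (Σ y : Y, Fin (f y).natAbs) = l1 f := by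
    rw [Fintype.card_sigma]
    unfold l1
    exact sum_congr rfl fun y _ => Fintype.card_fin _
  rw [hcard] at hδ
  let F : Bool → Y → ℤ := fun b z => e f z * (cnt f δ b z : ℤ)
  have hl : ∀ b, l1 (F b) = ∑ z, cnt f δ b z := by
    intro b
    unfold l1
    refine sum_congr rfl fun z _ => ?_
    simp only [F]
    rw [Int.natAbs_mul, natAbs_e, one_mul, Int.natAbs_natCast]
  have hsum : l1 (F true) + l1 (F false) = l1 f := by
    rw [hl, hl, ← sum_add_distrib]
    unfold l1
    exact sum_congr rfl fun z _ => cnt_add f δ true z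
  have hval : ∀ b, rl f - (2 : ℝ) • rl (F b) = fun z =>
      (e f z : ℝ) * ((cnt f δ (!b) z : ℝ) - cnt f δ b z) := by
    intro b
    funext z
    have h1 := cnt_add f δ b z
    have h2 : (f z : ℝ) = (e f z : ℝ) * ((f z).natAbs : ℝ) := by
      have h3 := e_mul f z
      have h4 : (f z : ℝ) = ((e f z * ((f z).natAbs : ℤ) : ℤ) : ℝ) := by rw [← h3]
      rw [h4, Int.cast_mul, Int.cast_natCast]
    simp only [Pi.sub_apply, Pi.smul_apply, rl, smul_eq_mul, F]
    rw [h2, ← h1]
    push_cast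
    ring
  have hh : hv (fun j : (Σ y : Y, Fin (f y).natAbs) => j.1) (fun j => decide (0 < f j.1)) δ =
      rl f - (2 : ℝ) • rl (F false) := by
    rw [hval]
    funext z
    exact hv_eq f δ z
  have hneg : rl f - (2 : ℝ) • rl (F true) = -(rl f - (2 : ℝ) • rl (F false)) := by
    rw [hval, hval]
    funext z
    simp only [Pi.neg_apply, Bool.not_true, Bool.not_false]
    ring
  rw [hh] at hδ
  rcases Nat.lt_or_ge (l1 f) (2 * l1 (F false)) with h | h
  · refine ⟨F true, by omega, ?_⟩
    rw [hneg]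
    exact opLe_neg P hδ
  · exact ⟨F false, h, hδ⟩

end Pool.Agent.LCD
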