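import Pool.Agent.LCD.Targets

set_option autoImplicit false

/-!
# LCD, JEN: the part on `I` is not larger than the whole vector
-/

namespace Pool.Agent.LCD

open Finset
open scoped BigOperators

namespace JEN_

variable {Y : Type} [DecidableEq Y]

/-- change the signs outside `I` -/
def fl (I : Finset Y) (ε : Y → Bool) : Y → Bool := fun y => if y ∈ I then ε y else !ε y

lemma fl_inv (I : Finset Y) : Function.Involutive (fl I) := by
  intro ε
  funext y
  unfold fl
  by_cases h : y ∈ I <;> simp [h]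

lemma pv_eq (I : Finset Y) (ε : Y → Bool) :
    pv I ε = (1 / 2 : ℝ) • (sv ε + sv (fl I ε)) := by
  funext y
  simp only [pv, sv, fl, Pi.smul_apply, Pi.add_apply, smul_eq_mul]
  by_cases h : y ∈ I
  · rw [if_pos h, if_pos h]
    ring
  · rw [if_neg h, if_neg h, sb_not]
    ring

lemma pow_mean (a b : ℝ) (ha : 0 ≤ a) (hb : 0 ≤ b) (q : ℕ) :
    (1 / 2 * (a + b)) ^ q ≤ 1 / 2 * a ^ q + 1 / 2 * b ^ q := by
  rcases Nat.eq_zero_or_pos q with rfl | hq
  · norm_num
  · have h := add_pow_le ha hb q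
    obtain ⟨k, rfl⟩ : ∃ k, q = k + 1 := ⟨q - 1, by omega⟩
    rw [Nat.add_sub_cancel] at h
    rw [mul_pow]
    calc (1 / 2 : ℝ) ^ (k + 1) * (a + b) ^ (k + 1)
        ≤ (1 / 2 : ℝ) ^ (k + 1) * (2 ^ k * (a ^ (k + 1) + b ^ (k + 1))) :=
          mul_le_mul_of_nonneg_left h (by positivity)
      _ = 1 / 2 * a ^ (k + 1) + 1 / 2 * b ^ (k + 1) := by
          have e1 : (1 / 2 : ℝ) ^ (k + 1) * 2 ^ k = 1 / 2 := by
            rw [pow_succ, mul_right_comm, ← mul_pow]
            norm_num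
          rw [← mul_assoc, e1]
          ring

end JEN_

open JEN_ in
theorem tJEN : T_JEN := by
  intro Y _ _ M h0 hadd hsmul I q
  have h1 : ∀ ε : Y → Bool, M (pv I ε) ^ q ≤
      1 / 2 * M (sv ε) ^ q + 1 / 2 * M (sv (fl I ε)) ^ q := by
    intro ε
    refine le_trans (pow_le_pow_left₀ (h0 _) ?_ q) (pow_mean _ _ (h0 _) (h0 _) q)
    rw [pv_eq]
    refine (hsmul _ _).trans ?_
    rw [abs_of_pos (by norm_num : (0 : ℝ) < 1 / 2)]
    exact mul_le_mul_of_nonneg_left (hadd _ _) (by norm_num)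
  refine (av_mono h1).trans (le_of_eq ?_)
  rw [av_add, av_mul_left, av_mul_left]
  have h2 : av (fun ε : Y → Bool => M (sv (fl I ε)) ^ q) = av (fun ε => M (sv ε) ^ q) :=
    av_equiv (fl_inv I).toPerm (fun ε => M (sv ε) ^ q)
  rw [h2]
  ring

end Pool.Agent.LCD
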