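import Pool.Agent.LCD.Targets

set_option autoImplicit false

/-!
# LCD, LEV: one level of the chain
-/

namespace Pool.Agent.LCD

open Finset
open scoped BigOperators

namespace LEV_

variable {Y : Type} [DecidableEq Y]

/-- the sign vector which agrees with `ε` on `I` and with `ε'` outside `I` -/
def mix (I : Finset Y) (ε ε' : Y → Bool) : Y → Bool := fun y => if y ∈ I then ε y else ε' y

lemma mix_inv (I : Finset Y) : Function.Involutive
    (fun q : (Y → Bool) × (Y → Bool) => (mix I q.1 q.2, mix I q.2 q.1)) := by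
  rintro ⟨ε, ε'⟩
  refine Prod.ext ?_ ?_ <;> funext y <;> by_cases h : y ∈ I <;> simp [mix, h]

lemma av_prod {α β : Type} [Fintype α] [Fintype β] (f : α → β → ℝ) :
    av (fun q : α × β => f q.1 q.2) = av (fun a => av (fun b => f a b)) := by
  unfold av
  rw [Fintype.sum_prod_type, Fintype.card_prod, ← sum_div, div_div]
  push_cast
  rw [mul_comm (Fintype.card β : ℝ)]

/-- resampling the signs outside `I` -/
lemma av_mix [Fintype Y] (I : Finset Y) (F : (Y → Bool) → ℝ) :
    av F = av (fun ε => av (fun ε' => F (mix I ε ε'))) := by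
  have h1 := av_equiv (mix_inv I).toPerm (fun q : (Y → Bool) × (Y → Bool) => F q.1)
  have h2 : av (fun q : (Y → Bool) × (Y → Bool) => F (mix I q.1 q.2)) =
      av (fun q : (Y → Bool) × (Y → Bool) => F q.1) := h1
  rw [av_prod (fun ε ε' => F (mix I ε ε')), av_prod (fun ε _ => F ε)] at h2
  rw [h2]
  congr 1
  funext ε
  exact (av_const _).symm

lemma pv_mix (I : Finset Y) (ε ε' : Y → Bool) : pv I (mix I ε ε') = pv I ε := by
  funext y
  unfold pv mix
  by_cases h : y ∈ I <;> simp [h]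

lemma pv_compl_mix [Fintype Y] (I : Finset Y) (ε ε' : Y → Bool) :
    pv Iᶜ (mix I ε ε') = pv Iᶜ ε' := by
  funext y
  unfold pv mix
  by_cases h : y ∈ I <;> simp [h]

end LEV_

open LEV_ in
theorem tLEV : T_MAXP → T_LEV := by
  intro hMax Y Γ _ _ _ _ P ι _ y z u L p hp hL hu hcard hop I M hM0 hM
  set C : ℝ := 9 / 2 * √(2 * p + L) with hC
  have hC0 : 0 ≤ C := by positivity
  rw [av_mix I]
  -- the coefficients
  let c : (Y → Bool) → ι → Y → ℝ := fun ε k b => if b ∈ I then 0 else
    ip (P.W (y k) (pv I ε)) (P.W (z k) (Pi.single b 1))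
  have hform : ∀ ε ε' : Y → Bool, ∀ k,
      ip (P.W (y k) (pv I (mix I ε ε'))) (P.W (z k) (pv Iᶜ (mix I ε ε'))) =
        ∑ b, sb (ε' b) * c ε k b := by
    intro ε ε' k
    rw [pv_mix, pv_compl_mix, W_eq_sum P (z k) (pv Iᶜ ε'), ip_sum_right]
    refine sum_congr rfl fun b _ => ?_
    rw [ip_smul_right]
    simp only [c, pv]
    by_cases h : b ∈ I
    · rw [if_neg (by simpa using h), if_pos h]
      ring
    · rw [if_pos (by simpa using h), if_neg h]
  have hnorm : ∀ (ε : Y → Bool) (k : ι), nY (c ε k) ≤ u * M (pv I ε) := by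
    intro ε k
    have h1 : nY (c ε k) ^ 2 = ip (P.W (y k) (pv I ε)) (P.W (z k) (c ε k)) := by
      rw [nY_sq, W_eq_sum P (z k) (c ε k), ip_sum_right]
      refine sum_congr rfl fun b _ => ?_
      rw [ip_smul_right]
      simp only [c]
      by_cases h : b ∈ I
      · simp [h]
      · rw [if_neg h]
        ring
    have h2 : nY (c ε k) ^ 2 ≤ M (pv I ε) * (u * nY (c ε k)) := by
      rw [h1]
      refine (le_abs_self _).trans ((abs_ip_le _ _).trans ?_)
      exact mul_le_mul (hM k _) (hop k _) (nG_nonneg _) (hM0 _)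
    rcases (nY_nonneg (c ε k)).eq_or_lt with h | h
    · rw [← h]
      exact mul_nonneg hu (hM0 _)
    · have h3 : nY (c ε k) * nY (c ε k) ≤ u * M (pv I ε) * nY (c ε k) := by
        calc nY (c ε k) * nY (c ε k) = nY (c ε k) ^ 2 := (_root_.sq _).symm
          _ ≤ M (pv I ε) * (u * nY (c ε k)) := h2
          _ = u * M (pv I ε) * nY (c ε k) := by ring
      exact le_of_mul_le_mul_right h3 h
  have hinner : ∀ ε : Y → Bool,
      av (fun ε' : Y → Bool => (⨆ k, |ip (P.W (y k) (pv I (mix I ε ε')))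
        (P.W (z k) (pv Iᶜ (mix I ε ε')))|) ^ p) ≤ (C * u) ^ p * M (pv I ε) ^ p := by
    intro ε
    simp only [hform]
    have := hMax Y ι (c ε) (u * M (pv I ε)) L p hp hL (mul_nonneg hu (hM0 _)) (hnorm ε) hcard
    refine this.trans (le_of_eq ?_)
    rw [← mul_pow]
    congr 1
    ring
  calc av (fun ε : Y → Bool => av (fun ε' : Y → Bool =>
        (⨆ k, |ip (P.W (y k) (pv I (mix I ε ε'))) (P.W (z k) (pv Iᶜ (mix I ε ε')))|) ^ p))
      ≤ av (fun ε : Y → Bool => (C * u) ^ p * M (pv I ε) ^ p) := av_mono hinner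
    _ = (C * u) ^ p * av (fun ε : Y → Bool => M (pv I ε) ^ p) := av_mul_left _ _

end Pool.Agent.LCD
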