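import Pool.Agent.LCD.Targets

/-!
# MAXP: moments of maxima of sums with random signs
-/

set_option autoImplicit false

namespace Pool.Agent.LCD

open Finset
open scoped BigOperators

namespace MAXP_

private lemma e3 : Real.exp 1 * √(Real.exp 1) ≤ 9 / 2 := by
  have h1 := Real.exp_one_lt_d9
  have h0 := Real.exp_pos 1
  refine le_of_sq_le_sq ?_ (by norm_num)
  rw [mul_pow, Real.sq_sqrt h0.le]
  have h2 : Real.exp 1 ^ 2 ≤ 2.7182818286 ^ 2 := pow_le_pow_left₀ h0.le h1.le 2
  calc Real.exp 1 ^ 2 * Real.exp 1 ≤ 2.7182818286 ^ 2 * 2.7182818286 :=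
        mul_le_mul h2 h1.le h0.le (by norm_num)
    _ ≤ (9 / 2) ^ 2 := by norm_num

end MAXP_

theorem tMAXP : T_MOM → T_MAXP := by
  intro hM β _ _ ι _ c B L p hp hL hB hc hcard
  have hR : 0 ≤ 9 / 2 * √(2 * p + L) * B := by positivity
  rcases isEmpty_or_nonempty ι with hι | hι
  · have h1 : ∀ δ : β → Bool, (⨆ k, |∑ b, sb (δ b) * c k b|) = 0 := fun δ => by
      rw [Real.iSup_of_isEmpty]
    have h2 : (fun δ : β → Bool => (⨆ k, |∑ b, sb (δ b) * c k b|) ^ p) = fun _ => 0 := by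
      funext δ
      rw [h1 δ, zero_pow (by omega)]
    rw [h2, av_zero]
    exact pow_nonneg hR p
  have hp' : (1 : ℝ) ≤ p := by exact_mod_cast hp
  have hp0 : (0 : ℝ) < 2 * p := by linarith
  set t : ℕ := max 1 ⌈L / (2 * p)⌉₊ with ht
  have ht1 : 1 ≤ t := le_max_left _ _
  have ht1' : (1 : ℝ) ≤ t := by exact_mod_cast ht1
  have ht2 : L ≤ 2 * p * t := by
    have h0 : ⌈L / (2 * (p : ℝ))⌉₊ ≤ t := le_max_right _ _
    have h1 : L / (2 * p) ≤ t := (Nat.le_ceil _).trans (by exact_mod_cast h0)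
    rw [div_le_iff₀ hp0] at h1
    linarith
  have ht3 : 2 * p * t ≤ 2 * p + L := by
    have h1 : (t : ℝ) ≤ L / (2 * p) + 1 := by
      rcases le_total ⌈L / (2 * p)⌉₊ 1 with h | h
      · rw [ht, max_eq_left h]
        have : 0 ≤ L / (2 * p) := by positivity
        push_cast
        linarith
      · rw [ht, max_eq_right h]
        exact (Nat.ceil_lt_add_one (by positivity)).le
    calc 2 * p * t ≤ 2 * p * (L / (2 * p) + 1) := mul_le_mul_of_nonneg_left h1 hp0.le
      _ = 2 * p + L := by field_simp; ring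
  set X : ι → (β → Bool) → ℝ := fun k δ => ∑ b, sb (δ b) * c k b with hX
  set Z : (β → Bool) → ℝ := fun δ => ⨆ k, |X k δ| with hZ
  have hZ0 : ∀ δ, 0 ≤ Z δ := fun δ => Real.iSup_nonneg fun k => abs_nonneg _
  set K : ℝ := Real.exp 1 * √(Real.exp 1 * (2 * p * t)) * B with hK
  have hK0 : 0 ≤ K := by positivity
  -- the moments
  have hmom : ∀ k, av (fun δ => X k δ ^ (2 * (p * t))) ≤
      (Real.exp 1 * (2 * p * t)) ^ (p * t) * (B ^ 2) ^ (p * t) := by
    intro k
    have h1 := hM β (c k) (p * t) (Nat.mul_pos hp ht1)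
    have h2 : ∑ j, c k j ^ 2 ≤ B ^ 2 := by
      rw [← nY_sq]
      exact pow_le_pow_left₀ (nY_nonneg _) (hc k) 2
    refine h1.trans ?_
    have h3 : (2 * Real.exp 1 * ((p * t : ℕ) : ℝ)) = Real.exp 1 * (2 * p * t) := by
      push_cast; ring
    rw [h3]
    exact mul_le_mul_of_nonneg_left
      (pow_le_pow_left₀ (sum_nonneg fun _ _ => by positivity) h2 _) (by positivity)
  have hkey : av (fun δ => Z δ ^ p) ^ (2 * t) ≤ (K ^ p) ^ (2 * t) := by
    calc av (fun δ => Z δ ^ p) ^ (2 * t) ≤ av (fun δ => (Z δ ^ p) ^ (2 * t)) :=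
          av_pow_le _ (fun δ => pow_nonneg (hZ0 δ) p) _
      _ ≤ av (fun δ => ∑ k, X k δ ^ (2 * (p * t))) := by
          apply av_mono
          intro δ
          obtain ⟨k, hk⟩ := exists_eq_ciSup_of_finite (f := fun k => |X k δ|)
          have hk' : Z δ = |X k δ| := hk.symm
          rw [hk', ← pow_mul, show p * (2 * t) = 2 * (p * t) by ring, pow_mul, sq_abs, ← pow_mul]
          exact single_le_sum (f := fun k => X k δ ^ (2 * (p * t)))
            (fun k _ => by rw [pow_mul]; positivity) (mem_univ k)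
      _ = ∑ k, av (fun δ => X k δ ^ (2 * (p * t))) := av_sum _ _
      _ ≤ ∑ _k : ι, (Real.exp 1 * (2 * p * t)) ^ (p * t) * (B ^ 2) ^ (p * t) :=
          sum_le_sum fun k _ => hmom k
      _ = Fintype.card ι * ((Real.exp 1 * (2 * p * t)) ^ (p * t) * (B ^ 2) ^ (p * t)) := by
          rw [sum_const, card_univ, nsmul_eq_mul]
      _ ≤ Real.exp (2 * p * t) * ((Real.exp 1 * (2 * p * t)) ^ (p * t) * (B ^ 2) ^ (p * t)) :=
          mul_le_mul_of_nonneg_right (hcard.trans (Real.exp_le_exp.2 ht2)) (by positivity)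
      _ = (K ^ p) ^ (2 * t) := by
          have h1 : Real.exp (2 * p * t) = (Real.exp 1 ^ 2) ^ (p * t) := by
            rw [← pow_mul, ← Real.exp_nat_mul]
            congr 1
            push_cast
            ring
          have h2 : K ^ 2 = Real.exp 1 ^ 2 * (Real.exp 1 * (2 * p * t)) * B ^ 2 := by
            rw [hK, mul_pow, mul_pow, Real.sq_sqrt (by positivity)]
          have h3 : (K ^ p) ^ (2 * t) = (K ^ 2) ^ (p * t) := by
            rw [← pow_mul, ← pow_mul]
            congr 1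
            ring
          rw [h3, h2, h1, mul_pow, mul_pow]
          ring
  have h5 : av (fun δ => Z δ ^ p) ≤ K ^ p :=
    le_of_pow_le_pow_left₀ (by omega) (pow_nonneg hK0 p) hkey
  refine h5.trans (pow_le_pow_left₀ hK0 ?_ p)
  refine mul_le_mul_of_nonneg_right ?_ hB
  calc Real.exp 1 * √(Real.exp 1 * (2 * p * t))
      ≤ Real.exp 1 * √(Real.exp 1 * (2 * p + L)) :=
        mul_le_mul_of_nonneg_left (Real.sqrt_le_sqrt
          (mul_le_mul_of_nonneg_left ht3 (Real.exp_pos 1).le)) (Real.exp_pos 1).le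
    _ = Real.exp 1 * √(Real.exp 1) * √(2 * p + L) := by
        rw [Real.sqrt_mul (Real.exp_pos 1).le]; ring
    _ ≤ 9 / 2 * √(2 * p + L) := mul_le_mul_of_nonneg_right MAXP_.e3 (Real.sqrt_nonneg _)

end Pool.Agent.LCD
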