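import Pool.Agent.LCD.Targets

set_option autoImplicit false

/-!
# LCD, NET: the chain of nets
-/

namespace Pool.Agent.LCD

open Finset
open scoped BigOperators

namespace NET_

/-! ### counting integral vectors -/

/-- a step -/
def stp {Y : Type} [DecidableEq Y] : Option (Y × Bool) → Y → ℤ
  | none => 0
  | some q => Pi.single q.1 (if q.2 then 1 else -1)

lemma drop_l1 {Y : Type} [Fintype Y] [DecidableEq Y] (f : Y → ℤ) (y : Y) (hy : f y ≠ 0) :
    l1 (f - stp (some (y, decide (0 < f y)))) + 1 = l1 f := by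
  unfold l1
  rw [← Finset.add_sum_erase univ _ (mem_univ y),
    ← Finset.add_sum_erase univ (fun z => (f z).natAbs) (mem_univ y)]
  have h1 : ∑ z ∈ univ.erase y, ((f - stp (some (y, decide (0 < f y)))) z).natAbs =
      ∑ z ∈ univ.erase y, (f z).natAbs := by
    refine sum_congr rfl fun z hz => ?_
    have hzy : z ≠ y := ne_of_mem_erase hz
    simp [stp, hzy]
  have h2 : ((f - stp (some (y, decide (0 < f y)))) y).natAbs + 1 = (f y).natAbs := by
    simp only [stp, Pi.sub_apply, Pi.single_eq_same]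
    by_cases h : 0 < f y
    · simp only [h, decide_true, if_true]
      omega
    · simp only [h, decide_false]
      rw [if_neg (by simp)]
      omega
  rw [h1]
  omega

lemma count_l1 (Y : Type) [Fintype Y] [DecidableEq Y] (m : ℕ) :
    {f : Y → ℤ | l1 f ≤ m}.ncard ≤ (2 * Fintype.card Y + 1) ^ m := by
  induction m with
  | zero =>
    have : {f : Y → ℤ | l1 f ≤ 0} = {0} := by
      ext f
      simp only [Set.mem_ofPred_eq, Set.mem_singleton_iff, Nat.le_zero]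
      exact l1_eq_zero
    rw [this, Set.ncard_singleton, pow_zero]
  | succ m ih =>
    have hfin : ({f : Y → ℤ | l1 f ≤ m} ×ˢ (Set.univ : Set (Option (Y × Bool)))).Finite :=
      (finite_l1 m).prod Set.finite_univ
    have hsub : {f : Y → ℤ | l1 f ≤ m + 1} ⊆
        (fun q : (Y → ℤ) × Option (Y × Bool) => q.1 + stp q.2) ''
          ({f : Y → ℤ | l1 f ≤ m} ×ˢ (Set.univ : Set (Option (Y × Bool)))) := by
      intro f hf
      rw [Set.mem_ofPred_eq] at hf
      by_cases h : l1 f ≤ m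
      · exact ⟨(f, none), ⟨h, Set.mem_univ _⟩, by simp [stp]⟩
      · have hne : f ≠ 0 := by
          intro h0
          rw [l1_eq_zero.2 h0] at h
          omega
        obtain ⟨y, hy⟩ := Function.ne_iff.1 hne
        have h1 := drop_l1 f y hy
        refine ⟨(f - stp (some (y, decide (0 < f y))), some (y, decide (0 < f y))),
          ⟨?_, Set.mem_univ _⟩, by simp⟩
        change l1 (f - stp (some (y, decide (0 < f y)))) ≤ m
        omega
    calc {f : Y → ℤ | l1 f ≤ m + 1}.ncard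
        ≤ ((fun q : (Y → ℤ) × Option (Y × Bool) => q.1 + stp q.2) ''
          ({f : Y → ℤ | l1 f ≤ m} ×ˢ (Set.univ : Set (Option (Y × Bool))))).ncard :=
          Set.ncard_le_ncard hsub (hfin.image _)
      _ ≤ ({f : Y → ℤ | l1 f ≤ m} ×ˢ (Set.univ : Set (Option (Y × Bool)))).ncard :=
          Set.ncard_image_le hfin
      _ = {f : Y → ℤ | l1 f ≤ m}.ncard * (2 * Fintype.card Y + 1) := by
          rw [Set.ncard_prod, Set.ncard_univ, Nat.card_eq_fintype_card, Fintype.card_option,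
            Fintype.card_prod, Fintype.card_bool, mul_comm 2]
      _ ≤ (2 * Fintype.card Y + 1) ^ m * (2 * Fintype.card Y + 1) := Nat.mul_le_mul_right _ ih
      _ = (2 * Fintype.card Y + 1) ^ (m + 1) := (pow_succ _ _).symm

lemma kap_ge (Y : Type) [Fintype Y] (h : 2 ≤ Fintype.card Y) : 1 ≤ kap Y := by
  unfold kap
  have : (1 : ℝ) ≤ Fintype.card Y := by
    have : 1 ≤ Fintype.card Y := by omega
    exact_mod_cast this
  linarith [Real.log_nonneg this]

lemma count_exp (Y : Type) [Fintype Y] [DecidableEq Y] (h : 2 ≤ Fintype.card Y) (m : ℕ) :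
    (({f : Y → ℤ | l1 f ≤ m}.ncard : ℕ) : ℝ) ≤ Real.exp (m * kap Y) := by
  have h1 : (({f : Y → ℤ | l1 f ≤ m}.ncard : ℕ) : ℝ) ≤ (2 * Fintype.card Y + 1 : ℝ) ^ m := by
    exact_mod_cast count_l1 Y m
  have hn : (2 : ℝ) ≤ Fintype.card Y := by exact_mod_cast h
  have h2 : (2 * Fintype.card Y + 1 : ℝ) ≤ Real.exp (kap Y) := by
    unfold kap
    rw [Real.exp_add, Real.exp_log (by linarith)]
    have := Real.exp_one_gt_d9
    nlinarith
  calc (({f : Y → ℤ | l1 f ≤ m}.ncard : ℕ) : ℝ) ≤ (2 * Fintype.card Y + 1 : ℝ) ^ m := h1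
    _ ≤ Real.exp (kap Y) ^ m := pow_le_pow_left₀ (by linarith) h2 m
    _ = Real.exp (m * kap Y) := (Real.exp_nat_mul _ _).symm

/-! ### the operators -/

section Ops

variable {Y Γ : Type} [Fintype Y] [DecidableEq Y] [Fintype Γ] [Nonempty Γ] (P : SP Y Γ) {g : ℝ}

lemma opLe_rl (hg : 0 < g) (hP : Spr P g) (f : Y → ℤ) : OpLe P (rl f) (l1 f / √g) := by
  have h1 : rl f = ∑ y, (f y : ℝ) • Pi.single (M := fun _ => ℝ) y 1 := eq_sum_single (rl f)
  rw [h1]
  have h2 : OpLe P (∑ y, (f y : ℝ) • Pi.single (M := fun _ => ℝ) y 1)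
      (∑ y, |(f y : ℝ)| * (1 / √g)) :=
    opLe_sum P univ _ _ fun y _ => opLe_smul P (opLe_single P hg hP y) _
  rw [← sum_mul, ← l1_cast, mul_one_div] at h2
  exact h2

lemma opLe_xv (hg : 0 < g) (hP : Spr P g) (f : Y → ℤ) (s : ℕ) (h1 : 1 ≤ l1 f) (h2 : l1 f ≤ s) :
    OpLe P (xv f) (√(s / g)) := by
  rw [xv_eq]
  have hsq : 0 < √(sq f : ℝ) := Real.sqrt_pos.2 (sq_pos h1)
  have hsg : 0 < √g := Real.sqrt_pos.2 hg
  refine opLe_mono P (opLe_smul P (opLe_rl P hg hP f) _) ?_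
  rw [abs_of_pos (by positivity), Real.sqrt_div (Nat.cast_nonneg s), one_div_mul_eq_div,
    div_right_comm]
  refine div_le_div_of_nonneg_right ?_ hsg.le
  rw [div_le_iff₀ hsq]
  have e1 : √(l1 f : ℝ) ≤ √(s : ℝ) := Real.sqrt_le_sqrt (by exact_mod_cast h2)
  have e2 : √(l1 f : ℝ) ≤ √(sq f : ℝ) := Real.sqrt_le_sqrt (by exact_mod_cast l1_le_sq f)
  calc (l1 f : ℝ) = √(l1 f : ℝ) * √(l1 f : ℝ) := (Real.mul_self_sqrt (Nat.cast_nonneg _)).symm
    _ ≤ √(s : ℝ) * √(sq f : ℝ) := mul_le_mul e1 e2 (Real.sqrt_nonneg _) (Real.sqrt_nonneg _)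

/-- two vectors with the same data at the level `r` are close -/
lemma close (f f' F : Y → ℤ) (r : ℕ) (B : ℝ) (h1 : 1 ≤ l1 f)
    (hs : sq f' = sq f) (hB : 0 ≤ B)
    (hf : OpLe P (rl f - (2 : ℝ) ^ r • rl F) (√(B * l1 f)))
    (hf' : OpLe P (rl f' - (2 : ℝ) ^ r • rl F) (√(B * l1 f'))) :
    OpLe P (xv f - xv f') (2 * √B) := by
  set a : ℝ := √(sq f : ℝ) with ha
  have ha0 : 0 < a := Real.sqrt_pos.2 (sq_pos h1)
  have ha2 : a ^ 2 = sq f := Real.sq_sqrt (Nat.cast_nonneg _)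
  have e : xv f - xv f' = (1 / a) • ((rl f - (2 : ℝ) ^ r • rl F) -
      (rl f' - (2 : ℝ) ^ r • rl F)) := by
    rw [xv_eq, xv_eq, hs, ← ha, sub_sub_sub_cancel_right, smul_sub]
  rw [e]
  refine opLe_mono P (opLe_smul P (opLe_sub P hf hf') (1 / a)) ?_
  have b1 : √(B * l1 f) ≤ a * √B := by
    rw [← Real.sqrt_sq ha0.le, ← Real.sqrt_mul (by positivity), ha2, mul_comm (sq f : ℝ)]
    exact Real.sqrt_le_sqrt (mul_le_mul_of_nonneg_left (by exact_mod_cast l1_le_sq f) hB)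
  have b2 : √(B * l1 f') ≤ a * √B := by
    rw [← Real.sqrt_sq ha0.le, ← Real.sqrt_mul (by positivity), ha2, mul_comm (sq f : ℝ), ← hs]
    exact Real.sqrt_le_sqrt (mul_le_mul_of_nonneg_left (by exact_mod_cast l1_le_sq f') hB)
  rw [abs_of_pos (by positivity)]
  calc 1 / a * (√(B * l1 f) + √(B * l1 f')) ≤ 1 / a * (a * √B + a * √B) :=
        mul_le_mul_of_nonneg_left (add_le_add b1 b2) (by positivity)
    _ = 2 * √B := by field_simp; ring

end Ops

lemma sqrt_step (B : ℝ) (hB : 0 ≤ B) : 2 * √(2 * B) + 2 * √B ≤ √(47 / 2 * B) := by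
  apply Real.le_sqrt_of_sq_le
  rw [Real.sqrt_mul (by norm_num : (0 : ℝ) ≤ 2)]
  have h1 : √B ^ 2 = B := Real.sq_sqrt hB
  have h2 : √(2 : ℝ) ^ 2 = 2 := Real.sq_sqrt (by norm_num)
  have h3 : √(2 : ℝ) ≤ 1.4375 := by
    rw [Real.sqrt_le_left (by norm_num)]
    norm_num
  have e : (2 * (√2 * √B) + 2 * √B) ^ 2 = (4 * √2 ^ 2 + 8 * √2 + 4) * √B ^ 2 := by ring
  rw [e, h1, h2]
  refine mul_le_mul_of_nonneg_right ?_ hB
  linarith

end NET_

open NET_ in
theorem tNET : T_SEQ → T_NET := by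
  classical
  intro hSEQ Y Γ _ _ _ _ P g hg hP hn s hs
  have hY : Nonempty Y := by
    rw [← Fintype.card_pos_iff]
    omega
  have hκ := kap_ge Y hn
  have hch : ∀ x : Y → ℝ, ∃ (f : Y → ℤ) (F : ℕ → Y → ℤ), x ∈ TT Y s →
      (1 ≤ l1 f ∧ l1 f ≤ s ∧ x = xv f ∧ F 0 = f ∧ (∀ r, 2 ^ r * l1 (F r) ≤ l1 f) ∧
      ∀ r, OpLe P (rl f - (2 : ℝ) ^ r • rl (F r)) (√(200 * kap Y * 2 ^ r * l1 f / g))) := by
    intro x
    by_cases hx : x ∈ TT Y s
    · obtain ⟨f, h1, h2, h3⟩ := hx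
      obtain ⟨F, h4, h5, h6⟩ := hSEQ Y Γ P g hg hP f
      exact ⟨f, F, fun _ => ⟨h1, h2, h3, h4, h5, h6⟩⟩
    · exact ⟨0, fun _ => 0, fun h => absurd h hx⟩
  choose f F hf using hch
  let R : ℕ → (Y → ℤ) × ℕ → Y → ℝ := fun r κ =>
    if h : ∃ x' ∈ TT Y s, (F x' r, sq (f x')) = κ then h.choose else 0
  have hR : ∀ r, ∀ x ∈ TT Y s, R r (F x r, sq (f x)) ∈ TT Y s ∧
      F (R r (F x r, sq (f x))) r = F x r ∧ sq (f (R r (F x r, sq (f x)))) = sq (f x) := by
    intro r x hx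
    have hex : ∃ x' ∈ TT Y s, (F x' r, sq (f x')) = (F x r, sq (f x)) := ⟨x, hx, rfl⟩
    have e : R r (F x r, sq (f x)) = hex.choose := dif_pos hex
    obtain ⟨h1, h2⟩ := hex.choose_spec
    rw [e]
    exact ⟨h1, (Prod.mk.inj h2).1, (Prod.mk.inj h2).2⟩
  let Q : ℕ → (Y → ℝ) → (Y → ℝ) := fun r x =>
    if r ≤ Nat.size s then R r (F x r, sq (f x)) else 0
  have hQ : ∀ r ≤ Nat.size s, ∀ x, Q r x = R r (F x r, sq (f x)) := fun r hr x => if_pos hr
  have hQ0 : ∀ r, Nat.size s < r → ∀ x, Q r x = 0 := fun r hr x => if_neg (not_le.2 hr)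
  -- the distance of `x` and `Q r x`
  have hdist : ∀ r ≤ Nat.size s, ∀ x ∈ TT Y s,
      OpLe P (x - Q r x) (2 * √(200 * kap Y * 2 ^ r / g)) := by
    intro r hr x hx
    rw [hQ r hr]
    obtain ⟨h1, h2, h3⟩ := hR r x hx
    set x' := R r (F x r, sq (f x)) with hx'
    obtain ⟨a1, a2, a3, a4, a5, a6⟩ := hf x hx
    obtain ⟨b1, b2, b3, b4, b5, b6⟩ := hf x' h1
    have c1 := a6 r
    have c2 := b6 r
    rw [h2] at c2
    have e1 : ∀ t : ℕ, 200 * kap Y * 2 ^ r * (t : ℝ) / g = 200 * kap Y * 2 ^ r / g * t :=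
      fun t => by ring
    rw [e1] at c1 c2
    have := close P (f x) (f x') (F x r) r (200 * kap Y * 2 ^ r / g) a1 h3
      (by positivity) c1 c2
    rw [← a3, ← b3] at this
    exact this
  refine ⟨Q, ?_, ?_, ?_, ?_, ?_⟩
  · intro x hx
    rw [hQ 0 (Nat.zero_le _)]
    obtain ⟨h1, h2, h3⟩ := hR 0 x hx
    obtain ⟨_, _, a3, a4, _⟩ := hf x hx
    obtain ⟨_, _, b3, b4, _⟩ := hf _ h1
    have h4 : f (R 0 (F x 0, sq (f x))) = f x := by
      rw [← b4, h2, a4]
    rw [b3, h4]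
    exact a3.symm
  · intro x _
    exact hQ0 _ (Nat.lt_succ_self _) x
  · intro r x hx
    by_cases hr : r ≤ Nat.size s
    · left
      rw [hQ r hr]
      exact (hR r x hx).1
    · exact Or.inr (hQ0 r (not_le.1 hr) x)
  · intro r hr x hx
    rcases hr.lt_or_eq with hlt | heq
    · have e : Q r x - Q (r + 1) x = (x - Q (r + 1) x) - (x - Q r x) := by abel
      rw [e]
      refine opLe_mono P (opLe_sub P (hdist (r + 1) hlt x hx) (hdist r hr x hx)) ?_
      set B : ℝ := 200 * kap Y * 2 ^ r / g with hB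
      have hB0 : 0 ≤ B := by positivity
      have e1 : 200 * kap Y * 2 ^ (r + 1) / g = 2 * B := by
        rw [hB, pow_succ]
        ring
      have e2 : 4700 * kap Y * 2 ^ r / g = 47 / 2 * B := by
        rw [hB]
        ring
      rw [e1, e2]
      exact sqrt_step B hB0
    · rw [hQ0 (r + 1) (by omega), sub_zero, hQ r hr]
      obtain ⟨h1, -, -⟩ := hR r x hx
      obtain ⟨f', c1, c2, c3⟩ := h1
      rw [c3]
      refine opLe_mono P (opLe_xv P hg hP f' s c1 c2) ?_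
      apply Real.sqrt_le_sqrt
      refine div_le_div_of_nonneg_right ?_ hg.le
      have hs2 : (s : ℝ) ≤ 2 ^ r := by
        rw [heq]
        exact_mod_cast (Nat.lt_size_self s).le
      have h2r : (0 : ℝ) ≤ 2 ^ r := by positivity
      calc (s : ℝ) ≤ 1 * 2 ^ r := by rw [one_mul]; exact hs2
        _ ≤ 4700 * kap Y * 2 ^ r := mul_le_mul_of_nonneg_right (by linarith) h2r
  · intro r hr
    set m : ℕ := s / 2 ^ r with hm
    let A : Set (Y → ℤ) := {f | l1 f ≤ m}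
    let Φ : ((Y → ℤ) × (Y → ℤ)) × ℕ → (Y → ℝ) × (Y → ℝ) := fun q =>
      (R r (q.1.1, q.2), if r + 1 ≤ Nat.size s then R (r + 1) (q.1.2, q.2) else 0)
    have hAfin : A.Finite := finite_l1 m
    have hfin : ((A ×ˢ A) ×ˢ (Set.Icc 1 (s ^ 2))).Finite :=
      (hAfin.prod hAfin).prod (Set.finite_Icc _ _)
    have hsub : ((fun x => (Q r x, Q (r + 1) x)) '' TT Y s) ⊆
        Φ '' ((A ×ˢ A) ×ˢ (Set.Icc 1 (s ^ 2))) := by
      rintro _ ⟨x, hx, rfl⟩
      obtain ⟨a1, a2, a3, a4, a5, a6⟩ := hf x hx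
      refine ⟨((F x r, F x (r + 1)), sq (f x)), ⟨⟨?_, ?_⟩, ?_⟩, ?_⟩
      · change l1 (F x r) ≤ m
        rw [hm, Nat.le_div_iff_mul_le (by positivity), mul_comm]
        exact (a5 r).trans a2
      · change l1 (F x (r + 1)) ≤ m
        rw [hm, Nat.le_div_iff_mul_le (by positivity), mul_comm]
        have h1 := (a5 (r + 1)).trans a2
        have h2 : 2 ^ r * l1 (F x (r + 1)) ≤ 2 ^ (r + 1) * l1 (F x (r + 1)) :=
          Nat.mul_le_mul_right _ (Nat.pow_le_pow_right (by norm_num) (Nat.le_succ r))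
        exact h2.trans h1
      · refine ⟨a1.trans (l1_le_sq _), (sq_le_l1_sq _).trans (Nat.pow_le_pow_left a2 2)⟩
      · simp only [Φ, Prod.mk.injEq]
        exact ⟨(hQ r hr x).symm, rfl⟩
    have h1 : ((fun x => (Q r x, Q (r + 1) x)) '' TT Y s).ncard ≤ A.ncard * A.ncard * s ^ 2 := by
      calc ((fun x => (Q r x, Q (r + 1) x)) '' TT Y s).ncard
          ≤ (Φ '' ((A ×ˢ A) ×ˢ (Set.Icc 1 (s ^ 2)))).ncard :=
            Set.ncard_le_ncard hsub (hfin.image _)
        _ ≤ ((A ×ˢ A) ×ˢ (Set.Icc 1 (s ^ 2))).ncard := Set.ncard_image_le hfin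
        _ = A.ncard * A.ncard * s ^ 2 := by
            rw [Set.ncard_prod, Set.ncard_prod]
            congr 1
            rw [← Finset.coe_Icc, Set.ncard_coe_finset, Nat.card_Icc]
            omega
    have hsp : (1 : ℝ) ≤ s := by exact_mod_cast hs
    have hA := count_exp Y hn m
    have hmle : (m : ℝ) ≤ s / 2 ^ r := by
      rw [hm]
      exact_mod_cast (Nat.cast_div_le (α := ℝ) (m := s) (n := 2 ^ r))
    have hA0 : (0 : ℝ) ≤ (A.ncard : ℝ) := Nat.cast_nonneg _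
    have hexp0 : 0 ≤ Real.exp (m * kap Y) := (Real.exp_pos _).le
    have hlog : 0 ≤ Real.log s := Real.log_nonneg hsp
    calc ((((fun x => (Q r x, Q (r + 1) x)) '' TT Y s).ncard : ℕ) : ℝ)
        ≤ (A.ncard : ℝ) * A.ncard * (s : ℝ) ^ 2 := by exact_mod_cast h1
      _ ≤ Real.exp (m * kap Y) * Real.exp (m * kap Y) * (s : ℝ) ^ 2 :=
          mul_le_mul_of_nonneg_right (mul_le_mul hA hA hA0 hexp0) (by positivity)
      _ = Real.exp (2 * m * kap Y + 2 * Real.log s) := by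
          have e1 : (s : ℝ) ^ 2 = Real.exp (2 * Real.log s) := by
            rw [mul_comm, Real.exp_mul, Real.exp_log (by linarith)]
            norm_num
          rw [e1, ← Real.exp_add, ← Real.exp_add]
          congr 1
          ring
      _ ≤ Real.exp (2 * (s / 2 ^ r) * kap Y + 4 * Real.log s) := by
          rw [Real.exp_le_exp]
          have : (m : ℝ) * kap Y ≤ s / 2 ^ r * kap Y :=
            mul_le_mul_of_nonneg_right hmle (by linarith)
          nlinarith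

end Pool.Agent.LCD
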