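import Pool.Agent.LCD.Targets

/-!
# NUM: the numerical estimate of the chaining sum
-/

set_option autoImplicit false

open Finset

namespace Pool.Agent.LCD

namespace NUM_

theorem geo (n : ℕ) : ∑ r ∈ range n, (√2 : ℝ) ^ r ≤ (√2 + 1) * (√2) ^ n := by
  induction n with
  | zero => simp; positivity
  | succ n ih =>
    rw [sum_range_succ, pow_succ]
    have h2 : (√2 : ℝ) * √2 = 2 := Real.mul_self_sqrt (by norm_num)
    have : (√2 + 1) * ((√2 : ℝ) ^ n * √2) = (√2) ^ n * (√2 * √2 + √2) := by ring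
    rw [this, h2]
    nlinarith [ih]

theorem two_pow_size {s : ℕ} (hs : 1 ≤ s) : 2 ^ (Nat.size s) ≤ 2 * s := by
  have h1 : 0 < Nat.size s := Nat.size_pos.2 (by omega)
  have h2 : 2 ^ (Nat.size s - 1) ≤ s := Nat.lt_size.1 (by omega)
  have h3 : 2 ^ (Nat.size s) = 2 * 2 ^ (Nat.size s - 1) := by
    conv_lhs => rw [show Nat.size s = (Nat.size s - 1) + 1 by omega]
    rw [pow_succ]; ring
  omega

theorem size_le {s : ℕ} {κ : ℝ} (hκ : 1 ≤ κ) (hs : 1 ≤ s) (hl : Real.log s ≤ κ) :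
    ((Nat.size s : ℕ) : ℝ) + 1 ≤ 4 * κ := by
  have h := two_pow_size hs
  have h' : ((2 : ℝ)) ^ (Nat.size s) ≤ 2 * s := by exact_mod_cast h
  have hs' : (0 : ℝ) < s := by exact_mod_cast hs
  have h1 : (Nat.size s : ℝ) * Real.log 2 ≤ Real.log 2 + Real.log s := by
    have := Real.log_le_log (by positivity) h'
    rwa [Real.log_pow, Real.log_mul (by norm_num) hs'.ne'] at this
  have h2 := Real.log_two_gt_d9
  have h3 := Real.log_two_lt_d9
  have h4 : (0 : ℝ) ≤ Nat.size s := by positivity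
  nlinarith

theorem sqrt_pow (n : ℕ) : √((2 : ℝ) ^ n) = (√2) ^ n := by
  rw [Real.sqrt_eq_iff_mul_self_eq (by positivity) (by positivity), ← mul_pow,
    Real.mul_self_sqrt (by norm_num)]

theorem sqrt_pow_size {s : ℕ} (hs : 1 ≤ s) : (√2 : ℝ) ^ (Nat.size s + 1) ≤ 2 * √s := by
  have h := two_pow_size hs
  have h' : ((2 : ℝ)) ^ (Nat.size s + 1) ≤ 2 ^ 2 * s := by
    have : ((2 : ℝ)) ^ (Nat.size s) ≤ 2 * s := by exact_mod_cast h
    rw [pow_succ]; linarith
  rw [← sqrt_pow]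
  calc √((2 : ℝ) ^ (Nat.size s + 1)) ≤ √(2 ^ 2 * s) := Real.sqrt_le_sqrt h'
    _ = 2 * √s := by rw [Real.sqrt_mul (by norm_num), Real.sqrt_sq (by norm_num)]

theorem sqrt_add_le {a b : ℝ} (ha : 0 ≤ a) (hb : 0 ≤ b) : √(a + b) ≤ √a + √b := by
  rw [Real.sqrt_le_iff]
  refine ⟨by positivity, ?_⟩
  have h1 := Real.sq_sqrt ha
  have h2 := Real.sq_sqrt hb
  have h3 : 0 ≤ √a * √b := by positivity
  nlinarith

/-- one term of the sum -/
theorem term {κ g : ℝ} {s p : ℕ} (hκ : 1 ≤ κ) (hg : 0 < g) (hs : 1 ≤ s) (r : ℕ) :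
    9 * √(2 * p + 2 * (s / 2 ^ r) * κ + 4 * Real.log s) * √(4700 * κ * 2 ^ r / g) ≤
      9 * (√(4700 * κ * (2 * p + 4 * Real.log s) / g) * (√2) ^ r + √(9400 * s * κ ^ 2 / g)) := by
  have hs' : (1 : ℝ) ≤ s := by exact_mod_cast hs
  have hl : 0 ≤ Real.log s := Real.log_nonneg hs'
  have h2 : (0 : ℝ) < 2 ^ r := by positivity
  have e : √(2 * p + 2 * (s / 2 ^ r) * κ + 4 * Real.log s) * √(4700 * κ * 2 ^ r / g) =
      √(4700 * κ * (2 * p + 4 * Real.log s) / g * 2 ^ r + 9400 * s * κ ^ 2 / g) := by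
    rw [← Real.sqrt_mul (by positivity)]
    congr 1
    field_simp
    ring
  rw [mul_assoc, e, ← sqrt_pow, ← Real.sqrt_mul (by positivity)]
  have := sqrt_add_le (a := 4700 * κ * (2 * p + 4 * Real.log s) / g * 2 ^ r)
    (b := 9400 * s * κ ^ 2 / g) (by positivity) (by positivity)
  linarith

end NUM_

open NUM_ in
theorem tNUM : T_NUM := by
  intro κ g s p hκ hg hs hp hl h1 h2
  have hs' : (1 : ℝ) ≤ s := by exact_mod_cast hs
  have hs0 : (0 : ℝ) < s := by linarith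
  have hp' : (1 : ℝ) ≤ p := by exact_mod_cast hp
  have hl0 : 0 ≤ Real.log s := Real.log_nonneg hs'
  set X : ℝ := 4700 * κ * (2 * p + 4 * Real.log s) / g with hX
  set Y : ℝ := 9400 * s * κ ^ 2 / g with hY
  have hX0 : 0 ≤ X := by positivity
  have hY0 : 0 ≤ Y := by positivity
  have hth : th κ g s p ≤ 9 * (√X * ((√2 + 1) * (2 * √s)) + 4 * κ * √Y) := by
    unfold th
    refine (sum_le_sum fun r _ => term (p := p) hκ hg hs r).trans ?_
    rw [← mul_sum, sum_add_distrib, ← mul_sum, sum_const, card_range, nsmul_eq_mul]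
    have g1 := geo (Nat.size s + 1)
    have g2 := sqrt_pow_size hs
    have g3 := size_le hκ hs hl
    push_cast
    gcongr
    exact g1.trans (by gcongr)
  have hsq2 : √2 ≤ 1.415 := by
    rw [Real.sqrt_le_left (by norm_num)]; norm_num
  -- the first term
  have hκ4 : κ ^ 2 ≤ κ ^ 4 := pow_le_pow_right₀ hκ (by norm_num)
  have e1 : κ * s * p / g ≤ 1 / 10 ^ 11 := by
    rw [div_le_div_iff₀ hg (by norm_num)]; nlinarith
  have e2 : κ ^ 4 * s / g ≤ 1 / 10 ^ 11 := by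
    rw [div_le_div_iff₀ hg (by norm_num)]; nlinarith
  have e3 : κ ^ 2 * s / g ≤ 1 / 10 ^ 11 := by
    refine le_trans ?_ e2
    gcongr
  have hXs : X * s ≤ (5.4e-4) ^ 2 := by
    have : X * s ≤ 4700 * (2 * (κ * s * p / g) + 4 * (κ ^ 2 * s / g)) := by
      have : X * s = 4700 * (2 * (κ * s * p / g) + 4 * (κ * Real.log s * s / g)) := by
        rw [hX]; field_simp
      rw [this]
      have : κ * Real.log s * s / g ≤ κ ^ 2 * s / g := by
        rw [pow_two]; gcongr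
      linarith
    refine this.trans ?_
    norm_num at e1 e3 ⊢
    linarith
  have hYk : Y * κ ^ 2 ≤ (3.1e-4) ^ 2 := by
    have : Y * κ ^ 2 = 9400 * (κ ^ 4 * s / g) := by
      rw [hY]; field_simp
    rw [this]
    norm_num at e2 ⊢
    linarith
  have f1 : √X * √s ≤ 5.4e-4 := by
    rw [← Real.sqrt_mul hX0]
    exact Real.sqrt_le_iff.2 ⟨by norm_num, hXs⟩
  have f2 : κ * √Y ≤ 3.1e-4 := by
    have : κ * √Y = √(Y * κ ^ 2) := by
      rw [Real.sqrt_mul hY0, Real.sqrt_sq (by linarith)]; ring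
    rw [this]
    exact Real.sqrt_le_iff.2 ⟨by norm_num, hYk⟩
  have f3 : √X * ((√2 + 1) * (2 * √s)) ≤ 4.83 * 5.4e-4 := by
    have : √X * ((√2 + 1) * (2 * √s)) = (2 * (√2 + 1)) * (√X * √s) := by ring
    rw [this]
    have h0 : 0 ≤ √X * √s := by positivity
    have h3 : 2 * (√2 + 1) ≤ 4.83 := by linarith
    exact mul_le_mul h3 f1 h0 (by norm_num)
  have f4 : 4 * κ * √Y ≤ 4 * 3.1e-4 := by linarith
  calc 24 * th κ g s p ≤ 24 * (9 * (√X * ((√2 + 1) * (2 * √s)) + 4 * κ * √Y)) := by linarith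
    _ ≤ 24 * (9 * (4.83 * 5.4e-4 + 4 * 3.1e-4)) := by linarith
    _ ≤ 1 := by norm_num

end Pool.Agent.LCD
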