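import Pool.Agent.LCD.Targets

set_option autoImplicit false
set_option linter.unusedSectionVars false

/-!
# The chaining sum
-/

namespace Pool.Agent.LCD

open Finset
open scoped BigOperators

namespace PHI_

variable {Y Γ : Type} [Fintype Y] [DecidableEq Y] [Fintype Γ]

/-- first supremum -/
noncomputable def XA (P : SP Y Γ) (Z : Set ((Y → ℝ) × (Y → ℝ))) (I : Finset Y)
    (ε : Y → Bool) : ℝ :=
  ⨆ k : Z, |ip (P.W k.1.2 (pv I ε)) (P.W (k.1.1 - k.1.2) (pv Iᶜ ε))|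

/-- second supremum -/
noncomputable def XB (P : SP Y Γ) (Z : Set ((Y → ℝ) × (Y → ℝ))) (I : Finset Y)
    (ε : Y → Bool) : ℝ :=
  ⨆ k : Z, |ip (P.W k.1.1 (pv Iᶜ ε)) (P.W (k.1.1 - k.1.2) (pv I ε))|

theorem XA_nonneg (P : SP Y Γ) (Z : Set ((Y → ℝ) × (Y → ℝ))) (I : Finset Y)
    (ε : Y → Bool) : 0 ≤ XA P Z I ε := Real.iSup_nonneg fun _ => abs_nonneg _

theorem XB_nonneg (P : SP Y Γ) (Z : Set ((Y → ℝ) × (Y → ℝ))) (I : Finset Y)
    (ε : Y → Bool) : 0 ≤ XB P Z I ε := Real.iSup_nonneg fun _ => abs_nonneg _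

/-- one step -/
theorem step (P : SP Y Γ) (a b η ζ : Y → ℝ) :
    ip (P.W a η) (P.W a ζ) - ip (P.W b η) (P.W b ζ) =
      ip (P.W a ζ) (P.W (a - b) η) + ip (P.W b η) (P.W (a - b) ζ) := by
  rw [W_sub_left, W_sub_left, ip_sub_right, ip_sub_right, ip_comm (P.W a ζ) (P.W a η),
    ip_comm (P.W a ζ) (P.W b η)]
  ring

/-- the telescoping sum -/
theorem tele (P : SP Y Γ) (a : ℕ → Y → ℝ) (η ζ : Y → ℝ) (R : ℕ) (h0 : a (R + 1) = 0) :
    ip (P.W (a 0) η) (P.W (a 0) ζ) = ∑ r ∈ range (R + 1),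
      (ip (P.W (a r) ζ) (P.W (a r - a (r + 1)) η) +
        ip (P.W (a (r + 1)) η) (P.W (a r - a (r + 1)) ζ)) := by
  have h1 : ∑ r ∈ range (R + 1),
      (ip (P.W (a r) ζ) (P.W (a r - a (r + 1)) η) +
        ip (P.W (a (r + 1)) η) (P.W (a r - a (r + 1)) ζ)) =
      ∑ r ∈ range (R + 1), (ip (P.W (a r) η) (P.W (a r) ζ) -
        ip (P.W (a (r + 1)) η) (P.W (a (r + 1)) ζ)) :=
    sum_congr rfl fun r _ => (step P (a r) (a (r + 1)) η ζ).symm
  rw [h1, sum_range_sub' (fun r => ip (P.W (a r) η) (P.W (a r) ζ)), h0, W_zero_left]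
  simp [ip, av]

theorem FX_le (P : SP Y Γ) {T : Set (Y → ℝ)} (hT : T.Finite) (Q : ℕ → (Y → ℝ) → (Y → ℝ))
    (R : ℕ) (h0 : ∀ x ∈ T, Q 0 x = x) (hR : ∀ x ∈ T, Q (R + 1) x = 0) (I : Finset Y)
    (ε : Y → Bool) :
    FX P T I ε ≤ ∑ r ∈ range (R + 1),
      (XA P ((fun x => (Q r x, Q (r + 1) x)) '' T) I ε +
        XB P ((fun x => (Q r x, Q (r + 1) x)) '' T) I ε) := by
  have hnn : 0 ≤ ∑ r ∈ range (R + 1),
      (XA P ((fun x => (Q r x, Q (r + 1) x)) '' T) I ε +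
        XB P ((fun x => (Q r x, Q (r + 1) x)) '' T) I ε) :=
    sum_nonneg fun r _ => add_nonneg (XA_nonneg P _ I ε) (XB_nonneg P _ I ε)
  refine sup_le' (fun x => |ip (P.W x (pv I ε)) (P.W x (pv Iᶜ ε))|) hnn ?_
  intro x hx
  have h1 := tele P (fun r => Q r x) (pv I ε) (pv Iᶜ ε) R (hR x hx)
  simp only [h0 x hx] at h1
  show |ip (P.W x (pv I ε)) (P.W x (pv Iᶜ ε))| ≤ _
  rw [h1]
  refine (abs_sum_le_sum_abs _ _).trans (sum_le_sum fun r _ => ?_)
  refine (abs_add_le _ _).trans ?_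
  rw [add_comm]
  have hmem : (Q r x, Q (r + 1) x) ∈ (fun x => (Q r x, Q (r + 1) x)) '' T := ⟨x, hx, rfl⟩
  refine add_le_add ?_ ?_
  · have h2 := le_sup' (hT.image _) (fun k : (Y → ℝ) × (Y → ℝ) =>
      |ip (P.W k.2 (pv I ε)) (P.W (k.1 - k.2) (pv Iᶜ ε))|) hmem
    unfold XA
    exact h2
  · have h2 := le_sup' (hT.image _) (fun k : (Y → ℝ) × (Y → ℝ) =>
      |ip (P.W k.1 (pv Iᶜ ε)) (P.W (k.1 - k.2) (pv I ε))|) hmem
    unfold XB
    exact h2

theorem kap_pos (hY : 2 ≤ Fintype.card Y) : 0 < kap Y := by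
  unfold kap
  have : 0 ≤ Real.log (Fintype.card Y) := Real.log_nonneg (by exact_mod_cast (by omega))
  linarith

end PHI_

open PHI_ in
theorem tPHI : T_NET → T_LEV → T_JEN → T_SUM → T_PHI := by
  intro hNET hLEV hJEN hSUM Y Γ _ _ _ _ P g hg hP hY s p hs hp I
  obtain ⟨Q, hQ0, hQR, hQT, hQop, hQcard⟩ := hNET Y Γ P g hg hP hY s hs
  have hT : (TT Y s).Finite := finite_TT s
  have hκ : 0 < kap Y := kap_pos hY
  have hs1 : (1 : ℝ) ≤ s := by exact_mod_cast hs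
  have hlog : 0 ≤ Real.log s := Real.log_nonneg hs1
  have hp1 : (1 : ℝ) ≤ p := by exact_mod_cast hp
  have hM0 : ∀ v, 0 ≤ Mx P (TT Y s) v := Mx_nonneg P _
  have hMT : ∀ r, ∀ x ∈ TT Y s, ∀ v, nG (P.W (Q r x) v) ≤ Mx P (TT Y s) v := by
    intro r x hx v
    rcases hQT r x hx with h | h
    · exact le_Mx P hT h v
    · rw [h, W_zero_left, nG_zero]
      exact hM0 v
  set u : ℕ → ℝ := fun r => √(4700 * kap Y * 2 ^ r / g) with hu
  set L : ℕ → ℝ := fun r => 2 * (s / 2 ^ r) * kap Y + 4 * Real.log s with hL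
  have hL0 : ∀ r, 0 ≤ L r := fun r => by
    have : (0 : ℝ) ≤ 2 * (s / 2 ^ r) * kap Y := by positivity
    simp only [hL]
    linarith
  have hu0 : ∀ r, 0 < u r := fun r => Real.sqrt_pos.2 (by positivity)
  set m : ℝ := av (fun ε : Y → Bool => Mx P (TT Y s) (sv ε) ^ p) with hm
  set Z : ℕ → Set ((Y → ℝ) × (Y → ℝ)) := fun r => (fun x => (Q r x, Q (r + 1) x)) '' TT Y s
    with hZ
  set θ : ℕ → ℝ := fun r => 9 / 2 * √(2 * p + L r) * u r with hθ
  have hθ0 : ∀ r, 0 < θ r := fun r => by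
    have h1 : 0 < 2 * (p : ℝ) + L r := by have := hL0 r; linarith
    have h2 := Real.sqrt_pos.2 h1
    have h3 := hu0 r
    simp only [hθ]
    positivity
  have hcard : ∀ r ≤ Nat.size s, ∀ _ : Fintype (Z r), (Fintype.card (Z r) : ℝ) ≤
      Real.exp (L r) := by
    intro r hr _
    have h1 := hQcard r hr
    have h2 : (Z r).ncard = Fintype.card (Z r) := by
      rw [← Nat.card_coe_set_eq, Nat.card_eq_fintype_card]
    rw [← h2]
    exact h1
  have hJ : ∀ J : Finset Y, av (fun ε : Y → Bool => Mx P (TT Y s) (pv J ε) ^ p) ≤ m :=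
    fun J => hJEN Y (Mx P (TT Y s)) hM0 (Mx_add_le P hT) (Mx_smul_le P hT) J p
  have hXA : ∀ r ≤ Nat.size s, av (fun ε : Y → Bool => XA P (Z r) I ε ^ p) ≤ θ r ^ p * m := by
    intro r hr
    have hfin : (Z r).Finite := hT.image _
    have : Fintype (Z r) := hfin.fintype
    have h1 := hLEV Y Γ P (Z r) (fun k => k.1.2) (fun k => k.1.1 - k.1.2) (u r) (L r) p hp
      (hL0 r) (hu0 r).le (hcard r hr _) (by
        rintro ⟨k, x, hx, rfl⟩
        exact hQop r hr x hx) I (Mx P (TT Y s)) hM0 (by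
        rintro ⟨k, x, hx, rfl⟩ v
        exact hMT (r + 1) x hx v)
    refine h1.trans ?_
    exact mul_le_mul_of_nonneg_left (hJ I) (pow_nonneg (hθ0 r).le _)
  have hXB : ∀ r ≤ Nat.size s, av (fun ε : Y → Bool => XB P (Z r) I ε ^ p) ≤ θ r ^ p * m := by
    intro r hr
    have hfin : (Z r).Finite := hT.image _
    have : Fintype (Z r) := hfin.fintype
    have h1 := hLEV Y Γ P (Z r) (fun k => k.1.1) (fun k => k.1.1 - k.1.2) (u r) (L r) p hp
      (hL0 r) (hu0 r).le (hcard r hr _) (by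
        rintro ⟨k, x, hx, rfl⟩
        exact hQop r hr x hx) Iᶜ (Mx P (TT Y s)) hM0 (by
        rintro ⟨k, x, hx, rfl⟩ v
        exact hMT r x hx v)
    rw [compl_compl] at h1
    refine h1.trans ?_
    exact mul_le_mul_of_nonneg_left (hJ Iᶜ) (pow_nonneg (hθ0 r).le _)
  set X : ℕ × Bool → (Y → Bool) → ℝ := fun i ε =>
    if i.2 then XA P (Z i.1) I ε else XB P (Z i.1) I ε with hX
  have hX0 : ∀ i ε, 0 ≤ X i ε := by
    intro i ε
    simp only [hX]
    split_ifs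
    · exact XA_nonneg P _ I ε
    · exact XB_nonneg P _ I ε
  have hsplit : ∀ f : ℕ × Bool → ℝ, ∑ i ∈ range (Nat.size s + 1) ×ˢ (univ : Finset Bool), f i =
      ∑ r ∈ range (Nat.size s + 1), (f (r, true) + f (r, false)) := by
    intro f
    rw [sum_product]
    refine sum_congr rfl fun r _ => ?_
    rw [Fintype.sum_bool]
  have hS := hSUM (Y → Bool) (ℕ × Bool) (range (Nat.size s + 1) ×ˢ univ) X
    (fun i => θ i.1) m p hp ⟨(0, true), by simp⟩ (fun i _ ε => hX0 i ε) (fun i _ => hθ0 i.1) (by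
      rintro ⟨r, b⟩ hi
      have hr : r ≤ Nat.size s := by
        rw [mem_product, mem_range] at hi
        exact Nat.lt_succ_iff.1 hi.1
      cases b
      · simp only [hX, Bool.false_eq_true, if_false]
        exact hXB r hr
      · simp only [hX, if_true]
        exact hXA r hr)
  have hth : ∑ i ∈ range (Nat.size s + 1) ×ˢ (univ : Finset Bool), θ i.1 = th (kap Y) g s p := by
    rw [hsplit (fun i => θ i.1)]
    unfold th
    refine sum_congr rfl fun r _ => ?_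
    simp only [hθ, hu, hL]
    rw [add_assoc (2 * (p : ℝ))]
    ring
  rw [hth] at hS
  have hth0 : 0 ≤ th (kap Y) g s p := by
    rw [← hth]
    exact sum_nonneg fun i _ => (hθ0 i.1).le
  have hm2 : m ≤ √(av (fun ε : Y → Bool => Mx P (TT Y s) (sv ε) ^ (2 * p))) := by
    apply Real.le_sqrt_of_sq_le
    have h1 := av_pow_le (fun ε : Y → Bool => Mx P (TT Y s) (sv ε) ^ p)
      (fun ε => pow_nonneg (hM0 _) _) 2
    refine h1.trans (le_of_eq ?_)
    congr 1
    funext ε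
    rw [← pow_mul, mul_comm]
  calc av (fun ε : Y → Bool => FX P (TT Y s) I ε ^ p)
      ≤ av (fun ε : Y → Bool =>
          (∑ i ∈ range (Nat.size s + 1) ×ˢ (univ : Finset Bool), X i ε) ^ p) := by
        refine av_mono fun ε => ?_
        have hFX0 : 0 ≤ FX P (TT Y s) I ε := Real.iSup_nonneg fun _ => abs_nonneg _
        have h1 := FX_le P hT Q (Nat.size s) hQ0 hQR I ε
        have h2 : ∑ i ∈ range (Nat.size s + 1) ×ˢ (univ : Finset Bool), X i ε =
            ∑ r ∈ range (Nat.size s + 1), (XA P (Z r) I ε + XB P (Z r) I ε) := by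
          rw [hsplit (fun i => X i ε)]
          refine sum_congr rfl fun r _ => ?_
          simp only [hX, if_true, Bool.false_eq_true, if_false]
        rw [h2]
        exact pow_le_pow_left₀ hFX0 h1 p
    _ ≤ th (kap Y) g s p ^ p * m := hS
    _ ≤ _ := mul_le_mul_of_nonneg_left hm2 (pow_nonneg hth0 _)

end Pool.Agent.LCD
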