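import Pool.Agent.LCD.Targets

set_option autoImplicit false
set_option linter.unusedSectionVars false

/-!
# The operator norm from the trace of a power
-/

namespace Pool.Agent.LCD

open Finset Matrix
open scoped BigOperators

namespace POW_

variable {Y Γ : Type} [Fintype Y] [DecidableEq Y] [Fintype Γ]

theorem cs (v w : Y → ℝ) : (v ⬝ᵥ w) ^ 2 ≤ (v ⬝ᵥ v) * (w ⬝ᵥ w) := by
  have h := sum_mul_sq_le_sq_mul_sq (univ : Finset Y) v w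
  unfold dotProduct
  simpa [pow_two] using h

theorem dp_nonneg (v : Y → ℝ) : 0 ≤ v ⬝ᵥ v := by
  unfold dotProduct
  exact sum_nonneg fun y _ => mul_self_nonneg _

/-- a symmetric matrix can be moved -/
theorem mv {A : Matrix Y Y ℝ} (hA : A.IsSymm) (v w : Y → ℝ) :
    (A *ᵥ v) ⬝ᵥ w = v ⬝ᵥ (A *ᵥ w) := by
  rw [Matrix.dotProduct_mulVec, ← Matrix.mulVec_transpose, hA.eq]

theorem cs2 {A : Matrix Y Y ℝ} (hA : A.IsSymm) (v : Y → ℝ) :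
    (v ⬝ᵥ (A *ᵥ v)) ^ 2 ≤ (v ⬝ᵥ v) * (v ⬝ᵥ ((A * A) *ᵥ v)) := by
  refine (cs v (A *ᵥ v)).trans (le_of_eq ?_)
  rw [mv hA, Matrix.mulVec_mulVec]

theorem symm_pow {A : Matrix Y Y ℝ} (hA : A.IsSymm) (k : ℕ) : (A ^ k).IsSymm := by
  unfold Matrix.IsSymm at *
  rw [Matrix.transpose_pow, hA]

theorem itr {A : Matrix Y Y ℝ} (hA : A.IsSymm) (v : Y → ℝ) (h0 : 0 ≤ v ⬝ᵥ (A *ᵥ v)) (t : ℕ) :
    (v ⬝ᵥ (A *ᵥ v)) ^ (2 ^ t) ≤ (v ⬝ᵥ v) ^ (2 ^ t - 1) * (v ⬝ᵥ ((A ^ (2 ^ t)) *ᵥ v)) := by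
  induction t with
  | zero => simp
  | succ t ih =>
    have hv := dp_nonneg v
    have h1 : (v ⬝ᵥ (A *ᵥ v)) ^ (2 ^ (t + 1)) = ((v ⬝ᵥ (A *ᵥ v)) ^ (2 ^ t)) ^ 2 := by
      rw [← pow_mul, pow_succ]
    rw [h1]
    have h2 : ((v ⬝ᵥ (A *ᵥ v)) ^ (2 ^ t)) ^ 2 ≤
        ((v ⬝ᵥ v) ^ (2 ^ t - 1) * (v ⬝ᵥ ((A ^ (2 ^ t)) *ᵥ v))) ^ 2 :=
      pow_le_pow_left₀ (pow_nonneg h0 _) ih 2
    refine h2.trans ?_
    rw [mul_pow]
    have h3 := cs2 (symm_pow hA (2 ^ t)) v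
    have h4 : A ^ (2 ^ t) * A ^ (2 ^ t) = A ^ (2 ^ (t + 1)) := by
      rw [← pow_add, pow_succ, mul_two]
    rw [h4] at h3
    refine (mul_le_mul_of_nonneg_left h3 (by positivity)).trans (le_of_eq ?_)
    have h5 : 2 ^ (t + 1) - 1 = (2 ^ t - 1) * 2 + 1 := by
      have := Nat.one_le_two_pow (n := t)
      rw [pow_succ]
      omega
    rw [h5, pow_add, pow_mul, pow_one]
    ring

theorem frob (B : Matrix Y Y ℝ) (v : Y → ℝ) :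
    (B *ᵥ v) ⬝ᵥ (B *ᵥ v) ≤ (Bᵀ * B).trace * (v ⬝ᵥ v) := by
  have h1 : (Bᵀ * B).trace = ∑ i, (B i ⬝ᵥ B i) := by
    simp only [Matrix.trace, Matrix.diag, Matrix.mul_apply, Matrix.transpose_apply, dotProduct]
    rw [sum_comm]
  rw [h1, sum_mul]
  have h2 : (B *ᵥ v) ⬝ᵥ (B *ᵥ v) = ∑ i, (B i ⬝ᵥ v) ^ 2 := by
    unfold dotProduct
    refine sum_congr rfl fun i _ => ?_
    rw [pow_two]
    rfl
  rw [h2]
  exact sum_le_sum fun i _ => cs _ _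

theorem fin {A : Matrix Y Y ℝ} (hA : A.IsSymm) (v : Y → ℝ) {t : ℕ} (ht : 1 ≤ t) :
    v ⬝ᵥ ((A ^ (2 ^ t)) *ᵥ v) ≤ (A ^ (2 ^ t)).trace * (v ⬝ᵥ v) := by
  obtain ⟨s, rfl⟩ : ∃ s, t = s + 1 := ⟨t - 1, by omega⟩
  have hB := symm_pow hA (2 ^ s)
  have h4 : A ^ (2 ^ (s + 1)) = A ^ (2 ^ s) * A ^ (2 ^ s) := by
    rw [← pow_add, pow_succ, mul_two]
  have h := frob (A ^ (2 ^ s)) v
  rw [hB.eq, ← h4, mv hB, Matrix.mulVec_mulVec, ← h4] at h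
  exact h

theorem gm_symm (P : SP Y Γ) (h : Y → ℝ) : (Gm P h).IsSymm := by
  unfold Matrix.IsSymm
  ext a b
  simp only [Matrix.transpose_apply, Gm, Matrix.of_apply]
  exact ip_comm _ _

theorem gm_form (P : SP Y Γ) (h v : Y → ℝ) : v ⬝ᵥ (Gm P h *ᵥ v) = nG (P.W h v) ^ 2 := by
  rw [nG_sq_ip]
  conv_rhs => rw [W_eq_sum P h v]
  rw [ip_sum_left]
  unfold dotProduct
  refine sum_congr rfl fun a _ => ?_
  rw [ip_smul_left, ip_sum_right]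
  congr 1
  show ∑ b, Gm P h a b * v b = _
  refine sum_congr rfl fun b _ => ?_
  rw [ip_smul_right]
  simp only [Gm, Matrix.of_apply]
  ring

end POW_

open POW_ in
theorem tPOW : T_POW := by
  intro Y Γ _ _ _ _ P h v t ht
  have hA := gm_symm P h
  have hf := gm_form P h v
  have h0 : 0 ≤ v ⬝ᵥ (Gm P h *ᵥ v) := by
    rw [hf]
    positivity
  have h1 := itr hA v h0 t
  have h2 := fin hA v ht
  have hv := dp_nonneg v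
  have h3 : v ⬝ᵥ v = nY v ^ 2 := by
    rw [nY_sq]
    unfold dotProduct
    exact sum_congr rfl fun y _ => by ring
  rw [hf] at h1
  rw [pow_mul, pow_mul, ← h3]
  refine h1.trans ((mul_le_mul_of_nonneg_left h2 (by positivity)).trans (le_of_eq ?_))
  have h5 : 2 ^ t = (2 ^ t - 1) + 1 := by
    have := Nat.one_le_two_pow (n := t)
    omega
  calc (v ⬝ᵥ v) ^ (2 ^ t - 1) * ((Gm P h ^ 2 ^ t).trace * v ⬝ᵥ v)
      = (Gm P h ^ 2 ^ t).trace * ((v ⬝ᵥ v) ^ (2 ^ t - 1) * (v ⬝ᵥ v)) := by ring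
    _ = (Gm P h ^ 2 ^ t).trace * (v ⬝ᵥ v) ^ (2 ^ t - 1 + 1) := by rw [pow_succ]
    _ = _ := by rw [← h5]

end Pool.Agent.LCD
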