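import Pool.Agent.LCD.Targets

set_option autoImplicit false

/-!
# RAD: some choice of signs makes the operator small
-/

namespace Pool.Agent.LCD

open Finset
open scoped BigOperators

namespace RAD_

theorem exists_pow (x : ℝ) (hx : 0 ≤ x) : ∃ t : ℕ, 1 ≤ t ∧ x ≤ 2 ^ t ∧ (2 : ℝ) ^ t ≤ 2 * (1 + x) := by
  classical
  have hex : ∃ t : ℕ, x ≤ 2 ^ (t + 1) := by
    obtain ⟨t, ht⟩ := pow_unbounded_of_one_lt x (by norm_num : (1 : ℝ) < 2)
    exact ⟨t, ht.le.trans (pow_le_pow_right₀ (by norm_num) (Nat.le_succ t))⟩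
  refine ⟨Nat.find hex + 1, by omega, Nat.find_spec hex, ?_⟩
  rcases Nat.eq_zero_or_pos (Nat.find hex) with h0 | h0
  · rw [h0]
    norm_num
    linarith
  · obtain ⟨s, hs⟩ : ∃ s, Nat.find hex = s + 1 := ⟨Nat.find hex - 1, by omega⟩
    have hmin := Nat.find_min hex (m := s) (by omega)
    push Not at hmin
    rw [hs, pow_succ]
    linarith

theorem exp_sq : Real.exp 1 * Real.exp 1 ≤ 15 / 2 := by
  have h := Real.exp_one_lt_d9
  have h0 := Real.exp_pos 1
  nlinarith

end RAD_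

open RAD_ in
theorem tRAD : T_MOM → T_TRC → T_POW → T_RAD := by
  intro hMOM hTRC hPOW Y Γ _ _ _ _ _ P g hg hP U _ y ρ
  classical
  have hn : (1 : ℝ) ≤ Fintype.card Y := by exact_mod_cast Fintype.card_pos
  have hlog : 0 ≤ Real.log (Fintype.card Y) := Real.log_nonneg hn
  obtain ⟨t, ht1, ht2, ht3⟩ := exists_pow _ hlog
  set k : ℕ := 2 ^ t with hk
  have hkr : (k : ℝ) = 2 ^ t := by rw [hk]; push_cast; rfl
  have hk1 : 1 ≤ k := Nat.one_le_two_pow
  have hk0 : k ≠ 0 := by omega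
  have hkap : (k : ℝ) ≤ 2 * kap Y := by rw [hkr]; exact ht3
  have hkap1 : 1 ≤ kap Y := by unfold kap; linarith
  have hm0 : (0 : ℝ) ≤ Fintype.card U := Nat.cast_nonneg _
  have hg1 : 0 ≤ 1 / g := by positivity
  -- the average of the trace
  have h1 := hTRC Y Γ P g hg hP U y ρ k hk1
  have h2 := hMOM U (fun _ => 1) k hk1
  simp only [mul_one, one_pow, sum_const, card_univ, nsmul_eq_mul] at h2
  obtain ⟨δ, hδ⟩ := exists_le_av (fun δ : U → Bool => ((Gm P (hv y ρ δ)) ^ k).trace)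
  refine ⟨δ, fun v => ?_⟩
  have h3 : ((Gm P (hv y ρ δ)) ^ k).trace ≤
      Fintype.card Y * (1 / g) ^ k * ((2 * Real.exp 1 * k) ^ k * (Fintype.card U : ℝ) ^ k) :=
    (hδ.trans h1).trans (mul_le_mul_of_nonneg_left h2 (by positivity))
  have h4 : (Fintype.card Y : ℝ) ≤ Real.exp 1 ^ k := by
    rw [← Real.exp_nat_mul, mul_one]
    calc (Fintype.card Y : ℝ) = Real.exp (Real.log (Fintype.card Y)) := by
          rw [Real.exp_log (by linarith)]
      _ ≤ Real.exp k := Real.exp_le_exp.2 (by rw [hkr]; exact ht2)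
  have h5 : ((Gm P (hv y ρ δ)) ^ k).trace ≤ (30 * kap Y * Fintype.card U / g) ^ k := by
    refine h3.trans ?_
    have he := exp_sq
    have hpos : 0 ≤ (2 * Real.exp 1 * k) ^ k * (Fintype.card U : ℝ) ^ k := by positivity
    calc Fintype.card Y * (1 / g) ^ k * ((2 * Real.exp 1 * k) ^ k * (Fintype.card U : ℝ) ^ k)
        ≤ Real.exp 1 ^ k * (1 / g) ^ k * ((2 * Real.exp 1 * k) ^ k * (Fintype.card U : ℝ) ^ k) := by
          gcongr
      _ = (Real.exp 1 * (1 / g) * ((2 * Real.exp 1 * k) * Fintype.card U)) ^ k := by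
          rw [← mul_pow, ← mul_pow, ← mul_pow]
      _ ≤ (30 * kap Y * Fintype.card U / g) ^ k := by
          refine pow_le_pow_left₀ (by positivity) ?_ k
          rw [show Real.exp 1 * (1 / g) * ((2 * Real.exp 1 * k) * Fintype.card U) =
            (Real.exp 1 * Real.exp 1) * (2 * k) * Fintype.card U / g by ring]
          refine div_le_div_of_nonneg_right ?_ hg.le
          refine mul_le_mul_of_nonneg_right ?_ hm0
          have : (Real.exp 1 * Real.exp 1) * (2 * (k : ℝ)) ≤ 15 / 2 * (2 * (2 * kap Y)) :=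
            mul_le_mul he (by linarith) (by positivity) (by norm_num)
          linarith
  have h6 := hPOW Y Γ P (hv y ρ δ) v t ht1
  rw [← hk] at h6
  have hA : 0 ≤ 30 * kap Y * Fintype.card U / g := by
    have : 0 ≤ kap Y := by linarith
    positivity
  have hv0 := nY_nonneg v
  have h7 : nG (P.W (hv y ρ δ) v) ^ (2 * k) ≤
      (√(30 * kap Y * Fintype.card U / g) * nY v) ^ (2 * k) := by
    refine h6.trans ?_
    rw [mul_pow, pow_mul (√(30 * kap Y * Fintype.card U / g)) 2 k, Real.sq_sqrt hA]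
    exact mul_le_mul_of_nonneg_right h5 (by positivity)
  exact le_of_pow_le_pow_left₀ (by omega) (by positivity) h7

end Pool.Agent.LCD
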