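import Mathlib
import Pool.Agent.LCD.Targets

set_option autoImplicit false

/-!
# Repeated halving
-/

namespace Pool.Agent.LCD

open Finset
open scoped BigOperators

namespace SEQ_

theorem kap_nonneg (Y : Type) [Fintype Y] [Nonempty Y] : 0 ≤ kap Y := by
  have h1 : (1 : ℝ) ≤ Fintype.card Y := by exact_mod_cast Fintype.card_pos
  have h2 := Real.log_nonneg h1
  unfold kap
  linarith

/-- one term of the telescoping sum -/
theorem step_le {κ g m m' : ℝ} (hκ : 0 ≤ κ) (hg : 0 < g) (r : ℕ)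
    (h : 2 ^ r * m' ≤ m) :
    (2 : ℝ) ^ r * √(30 * κ * m' / g) ≤ √2 ^ r * √(30 * κ * m / g) := by
  have e1 : (2 : ℝ) ^ r = √2 ^ r * √2 ^ r := by
    rw [← mul_pow, Real.mul_self_sqrt (by norm_num)]
  have h1 : √2 ^ r * √(30 * κ * m' / g) ≤ √(30 * κ * m / g) := by
    rw [← Real.sqrt_sq (show 0 ≤ √2 ^ r by positivity), ← Real.sqrt_mul (by positivity)]
    refine Real.sqrt_le_sqrt ?_
    have e2 : (√2 ^ r) ^ 2 = (2 : ℝ) ^ r := by rw [e1]; ring
    rw [e2]
    have e3 : (2 : ℝ) ^ r * (30 * κ * m' / g) = 30 * κ * (2 ^ r * m') / g := by ring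
    rw [e3]
    have h3 : 30 * κ * (2 ^ r * m') ≤ 30 * κ * m :=
      mul_le_mul_of_nonneg_left h (by linarith)
    exact div_le_div_of_nonneg_right h3 hg.le
  rw [e1, mul_assoc]
  exact mul_le_mul_of_nonneg_left h1 (by positivity)

theorem const_le {κ g m : ℝ} (hκ : 0 ≤ κ) (hg : 0 < g) (hm : 0 ≤ m) (r : ℕ) :
    (√2 + 1) * (√2 ^ r * √(30 * κ * m / g)) ≤ √(200 * κ * 2 ^ r * m / g) := by
  have e1 : (2 : ℝ) ^ r = √2 ^ r * √2 ^ r := by
    rw [← mul_pow, Real.mul_self_sqrt (by norm_num)]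
  have h2 : (0 : ℝ) ≤ √2 := Real.sqrt_nonneg 2
  have h3 : √2 * √2 = (2 : ℝ) := Real.mul_self_sqrt (by norm_num)
  have h4 : √2 ≤ (3 : ℝ) / 2 := by
    rw [Real.sqrt_le_left (by norm_num)]
    norm_num
  apply Real.le_sqrt_of_sq_le
  have hX : 0 ≤ κ * m / g := by positivity
  have e5 : ((√2 + 1) * (√2 ^ r * √(30 * κ * m / g))) ^ 2
      = (√2 + 1) ^ 2 * (2 ^ r * (√(30 * κ * m / g)) ^ 2) := by rw [e1]; ring
  have e6 : (√(30 * κ * m / g)) ^ 2 = 30 * κ * m / g := Real.sq_sqrt (by positivity)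
  rw [e5, e6]
  have e7 : (√2 + 1) ^ 2 * (2 ^ r * (30 * κ * m / g))
      = (30 * (√2 + 1) ^ 2) * (2 ^ r * (κ * m / g)) := by ring
  have e8 : 200 * κ * 2 ^ r * m / g = 200 * (2 ^ r * (κ * m / g)) := by ring
  rw [e7, e8]
  refine mul_le_mul_of_nonneg_right ?_ (by positivity)
  nlinarith

end SEQ_

theorem tSEQ : T_HALV → T_SEQ := by
  intro hH Y Γ _ _ _ _ _ P g hg hP f
  choose H hH1 hH2 using hH Y Γ P g hg hP
  have hκ := SEQ_.kap_nonneg Y
  have hl : ∀ r, 2 ^ r * l1 (H^[r] f) ≤ l1 f := by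
    intro r
    induction r with
    | zero => simp
    | succ r ih =>
      have h1 := hH1 (H^[r] f)
      rw [Function.iterate_succ_apply']
      calc 2 ^ (r + 1) * l1 (H (H^[r] f)) = 2 ^ r * (2 * l1 (H (H^[r] f))) := by ring
        _ ≤ 2 ^ r * l1 (H^[r] f) := Nat.mul_le_mul_left _ h1
        _ ≤ l1 f := ih
  refine ⟨fun r => H^[r] f, rfl, hl, ?_⟩
  · have key : ∀ r, OpLe P (rl f - (2 : ℝ) ^ r • rl (H^[r] f))
        ((√2 + 1) * (√2 ^ r * √(30 * kap Y * l1 f / g))) := by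
      intro r
      induction r with
      | zero =>
        have e : rl f - (2 : ℝ) ^ 0 • rl (H^[0] f) = 0 := by simp
        rw [e]
        exact opLe_mono P (opLe_zero P) (by positivity)
      | succ r ih =>
        have e : rl f - (2 : ℝ) ^ (r + 1) • rl (H^[r + 1] f)
            = (rl f - (2 : ℝ) ^ r • rl (H^[r] f))
              + (2 : ℝ) ^ r • (rl (H^[r] f) - (2 : ℝ) • rl (H (H^[r] f))) := by
          rw [Function.iterate_succ_apply', smul_sub, smul_smul, pow_succ]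
          abel
        rw [e]
        have h2 := opLe_smul P (hH2 (H^[r] f)) ((2 : ℝ) ^ r)
        refine opLe_mono P (opLe_add P ih h2) ?_
        rw [abs_of_nonneg (by positivity)]
        have h3 := SEQ_.step_le (κ := kap Y) (g := g) (m := l1 f) (m' := l1 (H^[r] f)) hκ hg r
          (by exact_mod_cast hl r)
        have h4 : √2 * √2 = (2 : ℝ) := Real.mul_self_sqrt (by norm_num)
        have e5 : (√2 + 1) * (√2 ^ (r + 1) * √(30 * kap Y * l1 f / g))
            = (√2 + 1) * (√2 ^ r * √(30 * kap Y * l1 f / g))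
              + √2 ^ r * √(30 * kap Y * l1 f / g) := by
          have : (√2 + 1) * √2 = (√2 + 1) + 1 := by nlinarith
          calc (√2 + 1) * (√2 ^ (r + 1) * √(30 * kap Y * l1 f / g))
              = ((√2 + 1) * √2) * (√2 ^ r * √(30 * kap Y * l1 f / g)) := by ring
            _ = _ := by rw [this]; ring
        rw [e5]
        linarith
    intro r
    exact opLe_mono P (key r) (SEQ_.const_le hκ hg (Nat.cast_nonneg _) r)

end Pool.Agent.LCD
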