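import Mathlib
import Pool.Agent.LCD.Targets

set_option autoImplicit false

/-!
# SUM: moments of sums
-/

namespace Pool.Agent.LCD

open Finset
open scoped BigOperators

/-- SUM -/
theorem tSUM : T_SUM := by
  intro α _ _ ι s X θ M p hp hs hX hθ hM
  have hΘ : 0 < ∑ i ∈ s, θ i := sum_pos hθ hs
  obtain ⟨Θ, hΘe⟩ : ∃ Θ, Θ = ∑ i ∈ s, θ i := ⟨_, rfl⟩
  rw [← hΘe] at hΘ ⊢
  have h1 : ∀ a, (∑ i ∈ s, X i a) ^ p ≤ ∑ i ∈ s, θ i / Θ * (X i a / (θ i / Θ)) ^ p := by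
    intro a
    have h2 := Real.pow_arith_mean_le_arith_mean_pow s (fun i => θ i / Θ)
      (fun i => X i a / (θ i / Θ)) (fun i hi => (div_pos (hθ i hi) hΘ).le)
      (by rw [← sum_div, ← hΘe, div_self hΘ.ne'])
      (fun i hi => div_nonneg (hX i hi a) (div_pos (hθ i hi) hΘ).le) p
    have h3 : ∑ i ∈ s, θ i / Θ * (X i a / (θ i / Θ)) = ∑ i ∈ s, X i a :=
      sum_congr rfl fun i hi => mul_div_cancel₀ _ (div_pos (hθ i hi) hΘ).ne'
    rw [h3] at h2
    exact h2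
  refine (av_mono h1).trans ?_
  rw [av_sum]
  have h4 : ∀ i ∈ s, av (fun a => θ i / Θ * (X i a / (θ i / Θ)) ^ p) ≤ θ i / Θ * (Θ ^ p * M) := by
    intro i hi
    have hw := div_pos (hθ i hi) hΘ
    rw [av_mul_left]
    refine mul_le_mul_of_nonneg_left ?_ hw.le
    have h5 : (fun a => (X i a / (θ i / Θ)) ^ p) = fun a => (1 / (θ i / Θ) ^ p) * X i a ^ p := by
      funext a
      rw [div_pow]
      ring
    rw [h5, av_mul_left]
    refine (mul_le_mul_of_nonneg_left (hM i hi) (by positivity)).trans (le_of_eq ?_)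
    have h6 := (hθ i hi).ne'
    have h7 := hΘ.ne'
    rw [div_pow]
    field_simp
  refine (sum_le_sum h4).trans (le_of_eq ?_)
  rw [← sum_mul, ← sum_div, ← hΘe, div_self hΘ.ne', one_mul]

end Pool.Agent.LCD
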