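import Mathlib
import Pool.Agent.LCD.Targets

set_option autoImplicit false

/-!
# TRC: trace moments of random signed sums of contractions
-/

namespace Pool.Agent.LCD

open Finset
open scoped BigOperators

namespace TRC_

section NBsec

variable {Y : Type} [Fintype Y] [DecidableEq Y]

/-- operator norm at most `b` -/
def NB (M : Matrix Y Y ℝ) (b : ℝ) : Prop := ∀ v : Y → ℝ, nY (M.mulVec v) ≤ b * nY v

theorem NB_one : NB (1 : Matrix Y Y ℝ) 1 := fun v => by
  rw [Matrix.one_mulVec, one_mul]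

theorem NB_mul {M M' : Matrix Y Y ℝ} {b b' : ℝ} (hb : 0 ≤ b) (h : NB M b) (h' : NB M' b') :
    NB (M * M') (b * b') := fun v => by
  rw [← Matrix.mulVec_mulVec, mul_assoc]
  exact (h _).trans (mul_le_mul_of_nonneg_left (h' v) hb)

theorem abs_le_nY (v : Y → ℝ) (a : Y) : |v a| ≤ nY v := by
  rw [← Real.sqrt_sq_eq_abs]
  unfold nY
  apply Real.sqrt_le_sqrt
  exact single_le_sum (f := fun y => v y ^ 2) (fun _ _ => by positivity) (mem_univ a)

theorem NB_diag {M : Matrix Y Y ℝ} {b : ℝ} (h : NB M b) (a : Y) : M a a ≤ b := by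
  have h1 := h (Pi.single a 1)
  rw [nY_single, mul_one] at h1
  have h2 := abs_le_nY (M.mulVec (Pi.single a 1)) a
  have h3 : M.mulVec (Pi.single a 1) a = M a a := by
    rw [Matrix.mulVec_single_one]
    rfl
  rw [h3] at h2
  exact (le_abs_self _).trans (h2.trans h1)

theorem NB_trace {M : Matrix Y Y ℝ} {b : ℝ} (h : NB M b) : M.trace ≤ Fintype.card Y * b := by
  unfold Matrix.trace
  calc ∑ a, M.diag a ≤ ∑ _a : Y, b := sum_le_sum fun a _ => NB_diag h a
    _ = _ := by rw [sum_const, card_univ, nsmul_eq_mul]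

end NBsec

section Signs

variable {U : Type} [Fintype U] [DecidableEq U]

theorem av_prod_nonneg (e : U → ℕ) : 0 ≤ av (fun δ : U → Bool => ∏ j, sb (δ j) ^ e j) := by
  unfold av
  apply div_nonneg _ (Nat.cast_nonneg _)
  have h := Finset.prod_univ_sum (fun _ : U => (univ : Finset Bool)) (fun j b => sb b ^ e j)
  rw [Fintype.piFinset_univ] at h
  rw [← h]
  apply prod_nonneg
  intro j _
  rw [Fintype.sum_bool]
  have h1 : sb true = 1 := by simp [sb]
  have h2 : sb false = -1 := by simp [sb]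
  rw [h1, h2, one_pow]
  rcases neg_one_pow_eq_or ℝ (e j) with h3 | h3 <;> rw [h3] <;> norm_num

theorem prod_shift (x : U → ℝ) (e : U → ℕ) (i : U) :
    ∏ l, x l ^ (e l + (Pi.single i 1 : U → ℕ) l) = (∏ l, x l ^ e l) * x i := by
  have h1 : ∏ l, x l ^ (Pi.single i 1 : U → ℕ) l = x i := by
    rw [prod_eq_single i]
    · simp
    · intro b _ hb
      simp [hb]
    · intro h
      exact absurd (mem_univ i) h
  simp only [pow_add]
  rw [prod_mul_distrib, h1]

end Signs

section Main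

variable {Y Γ : Type} [Fintype Y] [DecidableEq Y] [Fintype Γ] (P : SP Y Γ)

/-- the mixed Gram matrix -/
noncomputable def Cm (h h' : Y → ℝ) : Matrix Y Y ℝ :=
  Matrix.of fun a b => ip (P.W h (Pi.single a 1)) (P.W h' (Pi.single b 1))

theorem dot_Cm (h h' w v : Y → ℝ) :
    ∑ a, w a * (Cm P h h').mulVec v a = ip (P.W h w) (P.W h' v) := by
  rw [W_eq_sum P h w, W_eq_sum P h' v, ip_sum_left]
  refine sum_congr rfl fun a _ => ?_
  rw [ip_smul_left, ip_sum_right]
  congr 1
  unfold Matrix.mulVec dotProduct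
  refine sum_congr rfl fun b _ => ?_
  rw [ip_smul_right]
  simp only [Cm, Matrix.of_apply]
  ring

theorem NB_Cm {g : ℝ} (hg : 0 < g) (h h' : Y → ℝ) (h1 : OpLe P h (1 / √g))
    (h2 : OpLe P h' (1 / √g)) : NB (Cm P h h') (1 / g) := by
  intro v
  set w := (Cm P h h').mulVec v with hw
  have e1 : nY w ^ 2 = ip (P.W h w) (P.W h' v) := by
    rw [nY_sq, ← dot_Cm]
    refine sum_congr rfl fun a _ => ?_
    rw [← hw]
    ring
  have e2 : ip (P.W h w) (P.W h' v) ≤ (1 / √g * nY w) * (1 / √g * nY v) := by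
    refine (le_of_abs_le (abs_ip_le _ _)).trans ?_
    exact mul_le_mul (h1 w) (h2 v) (nG_nonneg _) (by have := nY_nonneg w; positivity)
  have e3 : (1 / √g * nY w) * (1 / √g * nY v) = (1 / g * nY v) * nY w := by
    have : (1 / √g) * (1 / √g) = 1 / g := by
      rw [div_mul_div_comm, one_mul, Real.mul_self_sqrt hg.le]
    calc (1 / √g * nY w) * (1 / √g * nY v) = ((1 / √g) * (1 / √g)) * nY v * nY w := by ring
      _ = _ := by rw [this]
  rw [e3, ← e1] at e2
  rcases eq_or_lt_of_le (nY_nonneg w) with h0 | h0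
  · rw [← h0]
    have := nY_nonneg v
    positivity
  · rw [_root_.sq] at e2
    exact le_of_mul_le_mul_right e2 h0

end Main

section Exp

variable {Y Γ U : Type} [Fintype Y] [DecidableEq Y] [Fintype Γ] [Fintype U] (P : SP Y Γ)

theorem hv_eq (y : U → Y) (ρ δ : U → Bool) :
    hv y ρ δ = ∑ j, sb (δ j) • (sb (ρ j) • (Pi.single (y j) (1 : ℝ) : Y → ℝ)) := by
  funext z
  rw [Finset.sum_apply]
  unfold hv
  refine sum_congr rfl fun j _ => ?_
  simp only [Pi.smul_apply, smul_eq_mul]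
  by_cases hz : y j = z
  · subst hz
    rw [if_pos rfl, Pi.single_eq_same]
    ring
  · rw [if_neg hz, Pi.single_eq_of_ne (Ne.symm hz)]
    ring

theorem Gm_eq (y : U → Y) (ρ δ : U → Bool) :
    Gm P (hv y ρ δ) = ∑ i, ∑ j, (sb (δ i) * sb (δ j)) •
      Cm P (sb (ρ i) • (Pi.single (y i) (1 : ℝ) : Y → ℝ)) (sb (ρ j) • (Pi.single (y j) (1 : ℝ) : Y → ℝ)) := by
  ext a b
  rw [Matrix.sum_apply]
  simp only [Gm, Matrix.of_apply]
  rw [hv_eq, W_sum_left, W_sum_left, ip_sum_left]
  refine sum_congr rfl fun i _ => ?_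
  rw [ip_sum_right, Matrix.sum_apply]
  refine sum_congr rfl fun j _ => ?_
  rw [W_smul_left P (sb (δ i)) (sb (ρ i) • (Pi.single (y i) (1 : ℝ) : Y → ℝ)),
    W_smul_left P (sb (δ j)) (sb (ρ j) • (Pi.single (y j) (1 : ℝ) : Y → ℝ)),
    ip_smul_left, ip_smul_right, Matrix.smul_apply, smul_eq_mul]
  simp only [Cm, Matrix.of_apply]
  ring

theorem expand [DecidableEq U] [Nonempty Γ] {g : ℝ} (hg : 0 < g) (hP : Spr P g) (y : U → Y)
    (ρ : U → Bool) : ∀ k : ℕ, ∃ (ι : Type) (_ : Fintype ι) (e : ι → U → ℕ)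
      (C : ι → Matrix Y Y ℝ), (∀ t, NB (C t) ((1 / g) ^ k)) ∧
      (∀ δ : U → Bool, (Gm P (hv y ρ δ)) ^ k = ∑ t, (∏ j, sb (δ j) ^ e t j) • C t) ∧
      ∀ δ : U → Bool, (∑ j, sb (δ j)) ^ (2 * k) = ∑ t, ∏ j, sb (δ j) ^ e t j
  | 0 => by
    refine ⟨Unit, inferInstance, fun _ _ => 0, fun _ => 1, ?_, ?_, ?_⟩
    · intro _
      rw [pow_zero]
      exact NB_one
    · intro δ
      simp
    · intro δ
      simp
  | (k + 1) => by
    obtain ⟨ι, hι, e, C, h1, h2, h3⟩ := expand hg hP y ρ k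
    set D : U → U → Matrix Y Y ℝ := fun i j =>
      Cm P (sb (ρ i) • (Pi.single (y i) (1 : ℝ) : Y → ℝ))
        (sb (ρ j) • (Pi.single (y j) (1 : ℝ) : Y → ℝ)) with hD
    have hD1 : ∀ i j, NB (D i j) (1 / g) := by
      intro i j
      have hop : ∀ l, OpLe P (sb (ρ l) • (Pi.single (y l) (1 : ℝ) : Y → ℝ)) (1 / √g) := by
        intro l
        have := opLe_smul P (opLe_single P hg hP (y l)) (sb (ρ l))
        rwa [abs_sb, one_mul] at this
      exact NB_Cm P hg _ _ (hop i) (hop j)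
    have hpr : ∀ (δ : U → Bool) (t : ι) (i j : U),
        ∏ l, sb (δ l) ^ (e t l + (Pi.single i 1 : U → ℕ) l + (Pi.single j 1 : U → ℕ) l) =
          (∏ l, sb (δ l) ^ e t l) * (sb (δ i) * sb (δ j)) := by
      intro δ t i j
      rw [prod_shift (fun l => sb (δ l)) (fun l => e t l + (Pi.single i 1 : U → ℕ) l) j,
        prod_shift (fun l => sb (δ l)) (fun l => e t l) i, mul_assoc]
    refine ⟨ι × (U × U), inferInstance,
      fun p l => e p.1 l + (Pi.single p.2.1 1 : U → ℕ) l + (Pi.single p.2.2 1 : U → ℕ) l,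
      fun p => C p.1 * D p.2.1 p.2.2, ?_, ?_, ?_⟩
    · intro p
      rw [pow_succ]
      exact NB_mul (by positivity) (h1 p.1) (hD1 _ _)
    · intro δ
      rw [pow_succ, h2 δ, Gm_eq, Fintype.sum_prod_type, Finset.sum_mul]
      refine sum_congr rfl fun t _ => ?_
      rw [Fintype.sum_prod_type, Finset.mul_sum]
      refine sum_congr rfl fun i _ => ?_
      rw [Finset.mul_sum]
      refine sum_congr rfl fun j _ => ?_
      simp only
      rw [hpr, Matrix.smul_mul, Matrix.mul_smul, smul_smul]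
    · intro δ
      rw [show 2 * (k + 1) = 2 * k + 2 from rfl, pow_add, h3 δ, Fintype.sum_prod_type,
        Finset.sum_mul]
      refine sum_congr rfl fun t _ => ?_
      rw [Fintype.sum_prod_type, _root_.sq, Finset.sum_mul_sum, Finset.mul_sum]
      refine sum_congr rfl fun i _ => ?_
      rw [Finset.mul_sum]
      refine sum_congr rfl fun j _ => ?_
      simp only
      rw [hpr]

end Exp

end TRC_

open TRC_ in
/-- TRC: trace moments -/
theorem tTRC : T_TRC := by
  intro Y Γ _ _ _ _ P g hg hP U _ _ y ρ k _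
  obtain ⟨ι, hι, e, C, h1, h2, h3⟩ := expand P hg hP y ρ k
  have e1 : av (fun δ : U → Bool => ((Gm P (hv y ρ δ)) ^ k).trace) =
      ∑ t, av (fun δ : U → Bool => ∏ j, sb (δ j) ^ e t j) * (C t).trace := by
    have : (fun δ : U → Bool => ((Gm P (hv y ρ δ)) ^ k).trace) =
        fun δ : U → Bool => ∑ t, (∏ j, sb (δ j) ^ e t j) * (C t).trace := by
      funext δ
      rw [h2 δ, Matrix.trace_sum]
      refine sum_congr rfl fun t _ => ?_
      rw [Matrix.trace_smul, smul_eq_mul]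
    rw [this, av_sum univ (fun t (δ : U → Bool) => (∏ j, sb (δ j) ^ e t j) * (C t).trace)]
    refine sum_congr rfl fun t _ => ?_
    exact av_mul_right _ _
  have e2 : av (fun δ : U → Bool => (∑ j, sb (δ j)) ^ (2 * k)) =
      ∑ t, av (fun δ : U → Bool => ∏ j, sb (δ j) ^ e t j) := by
    have : (fun δ : U → Bool => (∑ j, sb (δ j)) ^ (2 * k)) =
        fun δ : U → Bool => ∑ t, ∏ j, sb (δ j) ^ e t j := by
      funext δ
      exact h3 δ
    rw [this]
    exact av_sum univ (fun t (δ : U → Bool) => ∏ j, sb (δ j) ^ e t j)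
  rw [e1, e2, Finset.mul_sum]
  refine sum_le_sum fun t _ => ?_
  rw [mul_comm (Fintype.card Y * (1 / g) ^ k : ℝ)]
  exact mul_le_mul_of_nonneg_left (NB_trace (h1 t)) (av_prod_nonneg (e t))

end Pool.Agent.LCD
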