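import Pool.Agent.LCD.MOM
import Pool.Agent.LCD.MAXP
import Pool.Agent.LCD.TRC
import Pool.Agent.LCD.POW
import Pool.Agent.LCD.RAD
import Pool.Agent.LCD.HALV
import Pool.Agent.LCD.SEQ
import Pool.Agent.LCD.NET
import Pool.Agent.LCD.LEV
import Pool.Agent.LCD.JEN
import Pool.Agent.LCD.DEC
import Pool.Agent.LCD.SUM
import Pool.Agent.LCD.PHI
import Pool.Agent.LCD.BOOT
import Pool.Agent.LCD.NUM
import Pool.Agent.LCD.ABS
import Pool.Agent.LCD.HALF
import Pool.Agent.LCD.LOWT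
import Pool.Agent.LCD.CNT

set_option autoImplicit false

/-!
# Low codimension: assembly
-/

namespace Pool.Agent.LCD

theorem abs' : T_ABS :=
  tABS (tBOOT tDEC (tPHI (tNET (tSEQ (tHALV (tRAD tMOM tTRC tPOW)))) (tLEV (tMAXP tMOM)) tJEN tSUM))
    tNUM

theorem cnt : T_CNT := tCNT tHALF abs'

end Pool.Agent.LCD
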