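import Mathlib
import Pool.Agent.LCD.Targets2
import Pool.Agent.FFT.FINF
import Pool.Agent.FFT.MATCH

set_option autoImplicit false
set_option linter.unusedSectionVars false

/-!
# LOWT: from relations to Tate weights and induced types
-/

namespace Pool.Agent.LCD

open NumberField Finset Module
open Pool.Agent.CMT (QBar IsCMType cc cc_cc)
open Pool.Agent.CMTP (NotInduced toPerm)
open Pool.Agent.FFT (Idx CMWeight CMDivisorial act conj mult)
open Pool.Agent.FFT.CF_ (sg sg_conj act_conj conj_conj relation count)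
open scoped BigOperators

namespace LOWT_

variable {J : Type} [Fintype J] {K : J → Type} [∀ j, Field (K j)] [∀ j, NumberField (K j)]

theorem sum_mult {n : J → ℕ} {Φ : ∀ j, Finset (K j →+* QBar)} (i : ℕ) (Δ : Finset (Idx K n))
    (hΔ : CMWeight Φ i Δ) : ∑ x : (Σ j, K j →+* QBar), (mult Δ x).natAbs = 2 * i := by
  classical
  have h4 := count Δ (fun _ => True)
  have h5 : {x : Idx K n | x ∈ Δ ∧ True}.ncard = 2 * i := by
    rw [← hΔ.1, ← Set.ncard_coe_finset]
    congr 1
    ext p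
    simp
  simp only [if_true] at h4
  rw [h5] at h4
  have h6 : ((∑ x : (Σ j, K j →+* QBar), (mult Δ x).natAbs : ℕ) : ℤ) =
      ∑ x : (Σ j, K j →+* QBar), mult Δ x := by
    push_cast
    refine Finset.sum_congr rfl fun x _ => ?_
    have : 0 ≤ mult Δ x := by
      unfold mult
      positivity
    exact abs_of_nonneg this
  exact_mod_cast h6.trans h4.symm

variable [∀ j, IsCMField (K j)]

theorem lowDiv (Φ : ∀ j, Finset (K j →+* QBar)) (hΦ : ∀ j, IsCMType (K j) (Φ j)) (i : ℕ)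
    (hlow : Low Φ i) : LowDiv Φ i := by
  classical
  intro n i' Δ hi hΔ
  refine Pool.Agent.FFT.p_FINC Pool.Agent.FFT.p_MATCH J K Φ hΦ n Δ ?_
  have key := hlow (fun x => mult Δ x - mult Δ (conj x)) (by
      intro x
      rw [conj_conj]
      ring) (by
      have e1 : ∑ x : (Σ j, K j →+* QBar), (mult Δ x - mult Δ (conj x)).natAbs ≤
          ∑ x : (Σ j, K j →+* QBar), ((mult Δ x).natAbs + (mult Δ (conj x)).natAbs) :=
        Finset.sum_le_sum fun x _ => Int.natAbs_sub_le _ _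
      have e2 : ∑ x : (Σ j, K j →+* QBar), (mult Δ (conj x)).natAbs =
          ∑ x : (Σ j, K j →+* QBar), (mult Δ x).natAbs :=
        Fintype.sum_equiv (Function.Involutive.toPerm conj conj_conj) _ _ (fun _ => rfl)
      rw [Finset.sum_add_distrib, e2, sum_mult i' Δ hΔ] at e1
      refine e1.trans ?_
      omega) (by
      intro τ
      have e1 := relation Φ i' Δ hΔ τ
      have e2 : ∑ x, sg Φ (act K τ x) * mult Δ (conj x) = 0 := by
        have e3 : ∑ x, sg Φ (act K τ (conj x)) * mult Δ (conj (conj x)) =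
            ∑ x, sg Φ (act K τ x) * mult Δ (conj x) :=
          Fintype.sum_equiv (Function.Involutive.toPerm conj conj_conj) _ _ (fun _ => rfl)
        rw [← e3]
        have e4 : ∀ x : Σ j, K j →+* QBar, sg Φ (act K τ (conj x)) * mult Δ (conj (conj x)) =
            - (sg Φ (act K τ x) * mult Δ x) := by
          intro x
          rw [← act_conj, sg_conj hΦ, conj_conj]
          ring
        simp only [e4]
        rw [Finset.sum_neg_distrib, e1, neg_zero]
      have e5 : ∀ x : Σ j, K j →+* QBar, sg Φ (act K τ x) * (mult Δ x - mult Δ (conj x)) =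
          sg Φ (act K τ x) * mult Δ x - sg Φ (act K τ x) * mult Δ (conj x) := by
        intro x
        ring
      simp only [e5]
      rw [Finset.sum_sub_distrib, e1, e2, sub_self])
  intro x
  have := congrFun key x
  simp only [Pi.zero_apply] at this
  linarith

theorem sg_act (Φ : ∀ j, Finset (K j →+* QBar)) (j : J) (F : IntermediateField ℚ (K j))
    (hF : ∀ φ ψ : K j →+* QBar, (∀ x ∈ F, φ x = ψ x) → (φ ∈ Φ j ↔ ψ ∈ Φ j))
    (φ ψ : K j →+* QBar) (h : ∀ x ∈ F, φ x = ψ x) (τ : QBar ≃+* QBar) :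
    sg Φ (act K τ ⟨j, φ⟩) = sg Φ (act K τ ⟨j, ψ⟩) := by
  classical
  have e : ((τ : QBar →+* QBar).comp φ ∈ Φ j ↔ (τ : QBar →+* QBar).comp ψ ∈ Φ j) := by
    refine hF _ _ fun x hx => ?_
    rw [RingHom.comp_apply, RingHom.comp_apply, h x hx]
  show (if (τ : QBar →+* QBar).comp φ ∈ Φ j then (1 : ℤ) else -1) =
    if (τ : QBar →+* QBar).comp ψ ∈ Φ j then (1 : ℤ) else -1
  by_cases h1 : (τ : QBar →+* QBar).comp φ ∈ Φ j
  · rw [if_pos h1, if_pos (e.1 h1)]
  · rw [if_neg h1, if_neg (fun h2 => h1 (e.2 h2))]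

theorem primitive (Φ : ∀ j, Finset (K j →+* QBar)) (hΦ : ∀ j, IsCMType (K j) (Φ j)) (i : ℕ)
    (hi : 1 ≤ i) (hlow : Low Φ i) (j : J) (F : IntermediateField ℚ (K j))
    (hF : ∀ φ ψ : K j →+* QBar, (∀ x ∈ F, φ x = ψ x) → (φ ∈ Φ j ↔ ψ ∈ Φ j))
    (φ ψ : K j →+* QBar) (h : ∀ x ∈ F, φ x = ψ x) : φ = ψ := by
  classical
  let e : (K j →+* QBar) → (Σ j, K j →+* QBar) → ℤ := fun χ x => if x = ⟨j, χ⟩ then 1 else 0
  have hinj : ∀ a b : K j →+* QBar, (⟨j, a⟩ : Σ j, K j →+* QBar) = ⟨j, b⟩ → a = b := by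
    intro a b hab
    exact eq_of_heq (Sigma.mk.inj hab).2
  have hec : ∀ χ x, e χ (conj x) = e (cc χ) x := by
    intro χ x
    have : conj x = ⟨j, χ⟩ ↔ x = ⟨j, cc χ⟩ := by
      constructor
      · intro hx
        have := congrArg conj hx
        rw [conj_conj] at this
        exact this
      · intro hx
        have := congrArg conj hx
        have h2 : conj (⟨j, cc χ⟩ : Σ j, K j →+* QBar) = ⟨j, χ⟩ := by
          show (⟨j, cc (cc χ)⟩ : Σ j, K j →+* QBar) = ⟨j, χ⟩
          rw [cc_cc]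
        rw [h2] at this
        exact this
    simp only [e, this]
  have hsum : ∀ (g : (Σ j, K j →+* QBar) → ℤ) χ, ∑ x, g x * e χ x = g ⟨j, χ⟩ := by
    intro g χ
    simp [e]
  have habs : ∀ χ, ∑ x, (e χ x).natAbs = 1 := by
    intro χ
    have : ∀ x, (e χ x).natAbs = if x = (⟨j, χ⟩ : Σ j, K j →+* QBar) then 1 else 0 := by
      intro x
      simp only [e]
      split_ifs <;> rfl
    simp [this]
  have key := hlow (fun x => e φ x - e ψ x - e (cc φ) x + e (cc ψ) x) (by
      intro x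
      simp only [hec, cc_cc]
      ring) (by
      have e1 : ∑ x : (Σ j, K j →+* QBar), (e φ x - e ψ x - e (cc φ) x + e (cc ψ) x).natAbs ≤
          ∑ x : (Σ j, K j →+* QBar), ((e φ x).natAbs + (e ψ x).natAbs + (e (cc φ) x).natAbs +
            (e (cc ψ) x).natAbs) := by
        refine Finset.sum_le_sum fun x _ => ?_
        omega
      rw [Finset.sum_add_distrib, Finset.sum_add_distrib, Finset.sum_add_distrib, habs, habs,
        habs, habs] at e1
      omega) (by
      intro τ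
      have e5 : ∀ x : Σ j, K j →+* QBar,
          sg Φ (act K τ x) * (e φ x - e ψ x - e (cc φ) x + e (cc ψ) x) =
          sg Φ (act K τ x) * e φ x - sg Φ (act K τ x) * e ψ x - sg Φ (act K τ x) * e (cc φ) x +
            sg Φ (act K τ x) * e (cc ψ) x := by
        intro x
        ring
      simp only [e5]
      rw [Finset.sum_add_distrib, Finset.sum_sub_distrib, Finset.sum_sub_distrib,
        hsum (fun x => sg Φ (act K τ x)), hsum (fun x => sg Φ (act K τ x)),
        hsum (fun x => sg Φ (act K τ x)), hsum (fun x => sg Φ (act K τ x))]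
      have h1 := sg_act Φ j F hF φ ψ h τ
      have h2 : ∀ χ : K j →+* QBar, sg Φ (act K τ ⟨j, cc χ⟩) = - sg Φ (act K τ ⟨j, χ⟩) := by
        intro χ
        have : act K τ (⟨j, cc χ⟩ : Σ j, K j →+* QBar) = conj (act K τ ⟨j, χ⟩) := rfl
        rw [this, sg_conj hΦ]
      rw [h2 φ, h2 ψ, h1]
      ring)
  have hne : φ ≠ cc φ := by
    intro h1
    have h2 : φ ∈ Φ j ↔ cc φ ∉ Φ j := hΦ j φ
    rw [← h1] at h2
    tauto
  have h3 := congrFun key ⟨j, φ⟩
  simp only [e, Pi.zero_apply] at h3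
  by_contra hφψ
  have h4 : ¬ (⟨j, φ⟩ : Σ j, K j →+* QBar) = ⟨j, ψ⟩ := fun h5 => hφψ (hinj _ _ h5)
  have h5 : ¬ (⟨j, φ⟩ : Σ j, K j →+* QBar) = ⟨j, cc φ⟩ := fun h6 => hne (hinj _ _ h6)
  rw [if_neg h4, if_neg h5, if_pos trivial] at h3
  split_ifs at h3 <;> omega

theorem notInduced (Φ : ∀ j, Finset (K j →+* QBar)) (hΦ : ∀ j, IsCMType (K j) (Φ j)) (i : ℕ)
    (hi : 1 ≤ i) (hlow : Low Φ i) (j : J) : NotInduced (Φ j) := by
  classical
  intro F hF
  have h1 := primitive Φ hΦ i hi hlow j F hF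
  let φ0 : K j →+* QBar := ((IsAlgClosed.lift : K j →ₐ[ℚ] QBar) : K j →+* QBar)
  let alg : Algebra F QBar := (φ0.comp (algebraMap F (K j))).toAlgebra
  have h2 : Subsingleton (K j →ₐ[F] QBar) := ⟨fun a b => by
    have h3 : (a : K j →+* QBar) = (b : K j →+* QBar) := by
      refine h1 _ _ fun x hx => ?_
      have e1 := a.commutes ⟨x, hx⟩
      have e2 := b.commutes ⟨x, hx⟩
      exact e1.trans e2.symm
    exact AlgHom.coe_ringHom_injective h3⟩
  have h3 : Fintype.card (K j →ₐ[F] QBar) = Module.finrank F (K j) := AlgHom.card F (K j) QBar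
  have h4 : Fintype.card (K j →ₐ[F] QBar) ≤ 1 := Fintype.card_le_one_iff_subsingleton.2 h2
  have h5 : 0 < Module.finrank F (K j) := Module.finrank_pos
  rw [← IntermediateField.finrank_eq_one_iff_eq_top]
  omega

end LOWT_

/-- LOWT -/
theorem tLOWT : T_LOWT := by
  intro J _ K _ _ _ Φ hΦ i hi hlow
  exact ⟨fun j => LOWT_.notInduced Φ hΦ i hi hlow j, LOWT_.lowDiv Φ hΦ i hlow⟩

end Pool.Agent.LCD
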