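import Pool.Agent.LCD.Targets

/-!
# Moments of random sign sums
-/

set_option autoImplicit false

namespace Pool.Agent.LCD

open Finset
open scoped BigOperators

namespace MOM_

theorem fact_le (p : ℕ) : (p + 1).factorial ≤ (p + 1) ^ p := by
  induction p with
  | zero => simp
  | succ p ih =>
    rw [Nat.factorial_succ, pow_succ, mul_comm ((p + 1 + 1) ^ p)]
    refine Nat.mul_le_mul_left _ (ih.trans ?_)
    exact Nat.pow_le_pow_left (by omega) p

theorem two_fact (k : ℕ) (hk : 1 ≤ k) : 2 * (2 * k).factorial ≤ (2 * k) ^ (2 * k) := by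
  obtain ⟨p, hp⟩ : ∃ p, 2 * k = p + 1 := ⟨2 * k - 1, by omega⟩
  rw [hp, pow_succ, mul_comm ((p + 1) ^ p)]
  exact Nat.mul_le_mul (by omega) (fact_le p)

theorem pow_le (x : ℝ) (m : ℕ) (hm : Even m) :
    x ^ m ≤ m.factorial * (Real.exp x + Real.exp (-x)) := by
  have h1 : x ^ m = |x| ^ m := (hm.pow_abs x).symm
  have h2 := Real.pow_div_factorial_le_exp |x| (abs_nonneg x) m
  rw [div_le_iff₀ (by positivity)] at h2
  have h3 : Real.exp |x| ≤ Real.exp x + Real.exp (-x) := by
    rcases abs_cases x with h | h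
    · rw [h.1]
      linarith [Real.exp_pos (-x)]
    · rw [h.1]
      linarith [Real.exp_pos x]
  rw [h1]
  calc |x| ^ m ≤ Real.exp |x| * m.factorial := h2
    _ ≤ (Real.exp x + Real.exp (-x)) * m.factorial := by gcongr
    _ = _ := by ring

theorem av_exp {α : Type} [Fintype α] [DecidableEq α] (c : α → ℝ) :
    av (fun δ : α → Bool => Real.exp (∑ j, sb (δ j) * c j)) ≤ Real.exp ((∑ j, c j ^ 2) / 2) := by
  have h1 : ∑ δ : α → Bool, Real.exp (∑ j, sb (δ j) * c j) =
      ∏ j, ∑ b : Bool, Real.exp (sb b * c j) := by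
    rw [Finset.prod_univ_sum, Fintype.piFinset_univ]
    refine sum_congr rfl fun δ _ => ?_
    rw [Real.exp_sum]
  have h2 : (Fintype.card (α → Bool) : ℝ) = ∏ _j : α, (2 : ℝ) := by
    rw [Fintype.card_fun, Fintype.card_bool, prod_const, card_univ]
    push_cast
    rfl
  unfold av
  rw [h1, h2, ← prod_div_distrib]
  calc ∏ j, (∑ b : Bool, Real.exp (sb b * c j)) / 2 = ∏ j, Real.cosh (c j) := by
        refine prod_congr rfl fun j _ => ?_
        rw [Fintype.sum_bool, Real.cosh_eq]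
        simp [sb]
    _ ≤ ∏ j, Real.exp (c j ^ 2 / 2) := by
        refine prod_le_prod (fun j _ => (Real.cosh_pos _).le) fun j _ => ?_
        exact Real.cosh_le_exp_half_sq _
    _ = Real.exp ((∑ j, c j ^ 2) / 2) := by
        rw [← Real.exp_sum, sum_div]

theorem scaled {α : Type} [Fintype α] [DecidableEq α] (c : α → ℝ) (k : ℕ) (lam : ℝ) :
    lam ^ (2 * k) * av (fun δ : α → Bool => (∑ j, sb (δ j) * c j) ^ (2 * k)) ≤
      2 * (2 * k).factorial * Real.exp (lam ^ 2 * (∑ j, c j ^ 2) / 2) := by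
  rw [← av_mul_left]
  have h1 : av (fun δ : α → Bool => lam ^ (2 * k) * (∑ j, sb (δ j) * c j) ^ (2 * k)) ≤
      av (fun δ : α → Bool => (2 * k).factorial * (Real.exp (∑ j, sb (δ j) * (lam * c j)) +
        Real.exp (∑ j, sb (δ j) * (-(lam * c j))))) := by
    refine av_mono fun δ => ?_
    have h2 := pow_le (lam * ∑ j, sb (δ j) * c j) (2 * k) (even_two_mul k)
    rw [mul_pow] at h2
    refine h2.trans (le_of_eq ?_)
    congr 3
    · rw [mul_sum]
      refine sum_congr rfl fun j _ => ?_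
      ring
    · rw [mul_sum, ← sum_neg_distrib]
      refine sum_congr rfl fun j _ => ?_
      ring
  refine h1.trans ?_
  rw [av_mul_left, av_add]
  have h3 := av_exp (fun j => lam * c j)
  have h4 := av_exp (fun j => -(lam * c j))
  have e3 : ∑ j, (lam * c j) ^ 2 = lam ^ 2 * ∑ j, c j ^ 2 := by
    rw [mul_sum]
    exact sum_congr rfl fun j _ => by ring
  have e4 : ∑ j, (-(lam * c j)) ^ 2 = lam ^ 2 * ∑ j, c j ^ 2 := by
    rw [mul_sum]
    exact sum_congr rfl fun j _ => by ring
  rw [e3] at h3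
  rw [e4] at h4
  have h5 : (0 : ℝ) ≤ (2 * k).factorial := Nat.cast_nonneg _
  nlinarith [mul_le_mul_of_nonneg_left (add_le_add h3 h4) h5]

end MOM_

open MOM_ in
theorem tMOM : T_MOM := by
  intro α _ _ c k hk
  have hk0 : (0 : ℝ) < k := by exact_mod_cast hk
  rcases (sum_nonneg fun j _ => sq_nonneg (c j) : 0 ≤ ∑ j, c j ^ 2).eq_or_lt with h0 | h0
  · have hc : ∀ j, c j = 0 := by
      intro j
      have := (sum_eq_zero_iff_of_nonneg fun j _ => sq_nonneg (c j)).1 h0.symm j (mem_univ j)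
      exact pow_eq_zero_iff (two_ne_zero) |>.1 this
    have hz : (fun δ : α → Bool => (∑ j, sb (δ j) * c j) ^ (2 * k)) = fun _ => (0 : ℝ) := by
      funext δ
      simp only [hc, mul_zero, sum_const_zero]
      exact zero_pow (by omega)
    rw [hz, av_zero]
    positivity
  · set S := ∑ j, c j ^ 2 with hS
    set lam := Real.sqrt (2 * k / S) with hlam
    have hl2 : lam ^ 2 = 2 * k / S := Real.sq_sqrt (by positivity)
    have h := scaled c k lam
    rw [← hS, pow_mul, hl2] at h
    have e1 : 2 * (k : ℝ) / S * S / 2 = k := by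
      field_simp
    rw [e1] at h
    have h2 : (2 : ℝ) * (2 * k).factorial ≤ (2 * k) ^ (2 * k) := by
      exact_mod_cast two_fact k hk
    have h3 : (2 * (k : ℝ) / S) ^ k * av (fun δ : α → Bool => (∑ j, sb (δ j) * c j) ^ (2 * k)) ≤
        (2 * k) ^ (2 * k) * Real.exp 1 ^ k := by
      refine h.trans ?_
      rw [← Real.exp_nat_mul, mul_one]
      gcongr
    have h4 : (2 * (k : ℝ) / S) ^ k * ((2 * Real.exp 1 * k) ^ k * S ^ k) =
        (2 * k) ^ (2 * k) * Real.exp 1 ^ k := by
      have e5 : 2 * (k : ℝ) / S * (2 * Real.exp 1 * k * S) = (2 * (k : ℝ)) ^ 2 * Real.exp 1 := by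
        field_simp
      rw [pow_mul (2 * (k : ℝ)) 2 k, ← mul_pow, ← mul_pow, ← mul_pow, e5]
    rw [← h4] at h3
    exact le_of_mul_le_mul_left h3 (by positivity)

end Pool.Agent.LCD
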