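import Mathlib
import Pool.Agent.LCD.OrdLow

set_option autoImplicit false

/-!
# Ordinary Weil numbers in several CM fields: counting
-/

namespace Pool.Agent.LCD

open NumberField Finset Module
open Pool.Agent.CMT (QBar IsCMType cc cc_cc)
open Pool.Agent.CMV (IsOrdinary OrdinaryNumber OrdinaryClass commonPower HasType exists_iota
  exists_typ inj_aux finite_class card_class card_types SplitsCompletely)
open scoped BigOperators

section
variable {J : Type} [Fintype J] {K : J → Type} [∀ j, Field (K j)] [∀ j, NumberField (K j)]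
  [∀ j, IsCMField (K j)]

theorem even_sum (K : Type) [Field K] [NumberField K] [IsCMField K] :
    finrank ℚ K = 2 * (finrank ℚ K / 2) := by
  obtain ⟨R, hR⟩ := CMV.exists_half (cc (K := K)) cc_cc CMTP.cc_ne
  have h1 := CMV.card_of_half cc cc_cc R hR
  have hKX : Fintype.card (K →+* QBar) = finrank ℚ K := NumberField.Embeddings.card K QBar
  omega

theorem prod_pow (K : J → Type) [∀ j, Field (K j)] [∀ j, NumberField (K j)]
    [∀ j, IsCMField (K j)] :
    ∏ j, 2 ^ (finrank ℚ (K j) / 2) = 2 ^ ((∑ j, finrank ℚ (K j)) / 2) := by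
  rw [Finset.prod_pow_eq_pow_sum]
  congr 1
  have h : ∑ j, finrank ℚ (K j) = 2 * ∑ j, finrank ℚ (K j) / 2 := by
    rw [Finset.mul_sum]
    exact Finset.sum_congr rfl fun j _ => even_sum (K j)
  omega

theorem card_tuples (K : J → Type) [∀ j, Field (K j)] [∀ j, NumberField (K j)]
    [∀ j, IsCMField (K j)] :
    Nat.card {Φ : ∀ j, Finset (K j →+* QBar) // ∀ j, IsCMType (K j) (Φ j)} =
      2 ^ ((∑ j, finrank ℚ (K j)) / 2) := by
  classical
  rw [Nat.card_congr (Equiv.subtypePiEquivPi (β := fun j => Finset (K j →+* QBar))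
    (p := fun {j} Φ => IsCMType (K j) Φ)), Nat.card_pi, ← prod_pow]
  exact Finset.prod_congr rfl fun j _ => card_types (K j)

theorem finite_tuples (p : ℕ) [Fact p.Prime] : Finite (∀ j, OrdinaryClass p (K j)) := by
  have : ∀ j, Finite (OrdinaryClass p (K j)) := fun j => finite_class p (K j)
  infer_instance

theorem card_class_tuples (p : ℕ) [Fact p.Prime] (hs : ∀ j, SplitsCompletely p (K j)) :
    Nat.card (∀ j, OrdinaryClass p (K j)) = 2 ^ ((∑ j, finrank ℚ (K j)) / 2) := by
  rw [Nat.card_pi, ← prod_pow]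
  exact Finset.prod_congr rfl fun j _ => card_class p (K j) (hs j)

theorem card_bad_tuples (p : ℕ) [Fact p.Prime] (i : ℕ) (hi : 1 ≤ i) :
    Nat.card {t : ∀ j, OrdinaryClass p (K j) // BadTuple p i t} ≤
      Nat.card {Φ : ∀ j, Finset (K j →+* QBar) // (∀ j, IsCMType (K j) (Φ j)) ∧ ¬ Low Φ i} := by
  classical
  obtain ⟨ι⟩ := exists_iota p
  have h1 : ∀ j, ∃ typ : OrdinaryNumber p (K j) → {Φ : Finset (K j →+* QBar) //
      IsCMType (K j) Φ}, ∀ x, HasType ι x.1.2 (typ x).1 := fun j => exists_typ p (K j) ι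
  choose typ ht using h1
  have h0 : ∀ t : {t : ∀ j, OrdinaryClass p (K j) // BadTuple p i t},
      ∃ (q : ℕ) (π : ∀ j, K j) (h : ∀ j, IsOrdinary p q (π j)),
        (∀ j, Quotient.mk (commonPower p (K j)) ⟨(q, π j), h j⟩ = t.1 j) ∧
          ¬ (NoCommonPower π ∧ LowTate q π i) := fun t => t.2
  choose q π h hq hb using h0
  refine Nat.card_le_card_of_injective (fun t => ⟨fun j => (typ j ⟨(q t, π t j), h t j⟩).1, ?_, ?_⟩)
    ?_
  · intro j
    exact (typ j ⟨(q t, π t j), h t j⟩).2
  · intro hlow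
    apply hb t
    rcases isEmpty_or_nonempty J with hJ | ⟨⟨j₀⟩⟩
    · constructor
      · intro x
        exact (hJ.false x.1).elim
      · intro n i' Δ _ _
        refine ⟨∅, by simp, ?_, by simp⟩
        intro x
        exact (hJ.false x.1).elim
    · exact low_tate p (q t) (π t) (h t) (h t j₀).1 ι _
        (fun j => (typ j ⟨(q t, π t j), h t j⟩).2) (fun j => ht j ⟨(q t, π t j), h t j⟩) i hi hlow
  · intro t t' htt
    have h3 : ∀ j, (typ j ⟨(q t, π t j), h t j⟩).1 = (typ j ⟨(q t', π t' j), h t' j⟩).1 := by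
      intro j
      exact congrFun (congrArg (fun x : {Φ : ∀ j, Finset (K j →+* QBar) //
        (∀ j, IsCMType (K j) (Φ j)) ∧ ¬ Low Φ i} => x.1) htt) j
    apply Subtype.ext
    funext j
    have h4 := inj_aux p (K j) ι (typ j) (ht j) _ _ (Subtype.ext (h3 j))
    rw [hq t j, hq t' j] at h4
    exact h4

end

end Pool.Agent.LCD
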