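import Mathlib
import Pool.Agent.LCD.Final
import Pool.Agent.LCD.OrdCount

set_option autoImplicit false

namespace Pool.Agent.Results.MP_677d84_ag.OrdinaryLowCodimension

open NumberField Module
open Pool.Agent.CMV (OrdinaryClass SplitsCompletely)
open Pool.Agent.LCD

/-- **Low codimension: ordinary abelian varieties with multiplication by arbitrary CM fields.**
There is an absolute constant `c > 0` with the following property. Let `K_j` be finitely many CM
fields (no further condition), `N` the sum of their degrees, `2 g ≤ [K_j : ℚ]` for all `j`, `i ≥ 1`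
with `i (1 + log N) ^ 4 ≤ c g`, and `p` a prime. The tuples of classes (up to common powers) of
ordinary Weil numbers in the `K_j` form a finite set; there are exactly `2 ^ (N / 2)` of them if `p`
splits completely in all the `K_j`; and for all but at most
`exp (- c g / (i (1 + log N))) 2 ^ (N / 2)` of them the following is true: for all powers `q` of `p`
and all ordinary Weil `q`-numbers `π_j` in the classes, no two different eigenvalues of the Frobenius
have a common power, and all Tate weights of codimension at most `i` on all products of powers of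
the abelian varieties are disjoint unions of Tate weights of codimension one. -/
theorem result : ∃ c : ℝ, 0 < c ∧ ∀ (J : Type) [Fintype J] (K : J → Type) [∀ j, Field (K j)]
    [∀ j, NumberField (K j)] [∀ j, IsCMField (K j)] (p : ℕ) [Fact p.Prime] (g i : ℕ), 1 ≤ i →
    (∀ j, 2 * g ≤ finrank ℚ (K j)) →
    i * (1 + Real.log (∑ j, finrank ℚ (K j) : ℕ)) ^ 4 ≤ c * g →
      Finite (∀ j, OrdinaryClass p (K j)) ∧
      (Nat.card {t : ∀ j, OrdinaryClass p (K j) // BadTuple p i t} : ℝ) ≤
        Real.exp (-(c * g / (i * (1 + Real.log (∑ j, finrank ℚ (K j) : ℕ))))) *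
          2 ^ ((∑ j, finrank ℚ (K j)) / 2) ∧
      ((∀ j, SplitsCompletely p (K j)) →
        Nat.card (∀ j, OrdinaryClass p (K j)) = 2 ^ ((∑ j, finrank ℚ (K j)) / 2)) := by
  obtain ⟨c, hc, h⟩ := cnt
  refine ⟨c, hc, ?_⟩
  intro J _ K _ _ _ p _ g i hi hg hN
  refine ⟨finite_tuples p, ?_, card_class_tuples p⟩
  have h1 := h J K g i hi hg hN
  rw [card_tuples K] at h1
  push_cast at h1 ⊢
  refine le_trans ?_ h1
  exact_mod_cast card_bad_tuples (K := K) p i hi

end Pool.Agent.Results.MP_677d84_ag.OrdinaryLowCodimension
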